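import Pool.Agent.V5helper78.KU.Spc

/-!
# The angular part
-/

set_option autoImplicit false

namespace Pool.Agent.V5helper78.KU

open MeasureTheory Set Filter Topology Metric
open scoped ENNReal InnerProductSpace
open Pool.Agent.V5helper78.KO

/-- sets of positive vectors, with all smaller positive vectors, with coordinates at most `a` -/
structure Dn {M : ℕ} (a : ℝ) (D : Set (Fin M → ℝ)) : Prop where
  meas : MeasurableSet D
  pos : ∀ ρ ∈ D, ∀ β, 0 < ρ β
  down : ∀ ρ ∈ D, ∀ ρ' : Fin M → ℝ, (∀ β, 0 < ρ' β) → (∀ β, ρ' β ≤ ρ β) → ρ' ∈ D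
  le : ∀ ρ ∈ D, ∀ β, ρ β ≤ a

section

variable {Ω : Type} [MeasurableSpace Ω] {P : Measure Ω}

theorem two_sample [IsProbabilityMeasure P] {u : Ω → ℝ} (hu : Measurable u) {B : ℝ}
    (hB : ∀ ω, |u ω| ≤ B) :
    ∫⁻ b, ENNReal.ofReal (1 / 2) * ∫⁻ a, ENNReal.ofReal ((u b - u a) ^ 2) ∂P ∂P =
      ∫⁻ b, ENNReal.ofReal ((u b - ∫ ω, u ω ∂P) ^ 2) ∂P := by
  set A := ∫⁻ b, ENNReal.ofReal ((u b - ∫ ω, u ω ∂P) ^ 2) ∂P with hA
  have h1 : ∀ b, ∫⁻ a, ENNReal.ofReal ((u b - u a) ^ 2) ∂P =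
      A + ENNReal.ofReal ((u b - ∫ ω, u ω ∂P) ^ 2) := by
    intro b
    have h2 := split (P := P) hu hB (u b)
    have e1 : ∀ a, (u b - u a) ^ 2 = (u a - u b) ^ 2 := fun a => by ring
    have e2 : (u b - ∫ ω, u ω ∂P) ^ 2 = ((∫ ω, u ω ∂P) - u b) ^ 2 := by ring
    simp only [e1]
    rw [h2, e2]
  simp only [h1]
  rw [lintegral_const_mul _ (by fun_prop), lintegral_add_left measurable_const, lintegral_const,
    measure_univ, mul_one, ← hA, ← two_mul, ← mul_assoc, ← ENNReal.ofReal_ofNat,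
    ← ENNReal.ofReal_mul (by norm_num)]
  norm_num

end

section

variable {M : ℕ} {k : Fin M → ℕ} {K : ∀ β, Set (Ek (k β))} {Ω : Type} [MeasurableSpace Ω]
  {P : Measure Ω} {θ : ∀ β, Ω → Ek (k β)}

/-- the point with given norms and directions -/
noncomputable def xr (θ : ∀ β, Ω → Ek (k β)) (ρ : Fin M → ℝ) (ω : Fin M → Ω) : Xk k :=
  asm k fun β => ρ β • θ β (ω β)

theorem xr_meas (hθ : ∀ β, Measurable (θ β)) :
    Measurable fun p : (Fin M → ℝ) × (Fin M → Ω) => xr θ p.1 p.2 := by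
  refine (asm k).continuous.measurable.comp (measurable_pi_lambda _ fun β => ?_)
  have := hθ β
  fun_prop

/-- affine lines in a component -/
noncomputable def sl (y : ∀ β, Ek (k β)) (j : Fin M) (v : Ek (k j)) : Xk k :=
  asm k (Function.update y j v)

theorem sl_eq (y : ∀ β, Ek (k β)) (j : Fin M) (v : Ek (k j)) : sl y j v = sl y j 0 + ij j v := by
  unfold sl ij
  rw [ContinuousLinearMap.comp_apply, ContinuousLinearEquiv.coe_coe, ← map_add]
  congr 1
  funext β
  by_cases hβ : β = j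
  · subst hβ
    simp
  · simp [Function.update_of_ne hβ, Pi.single_eq_of_ne hβ]

theorem sl_diff (y : ∀ β, Ek (k β)) (j : Fin M) : ContDiff ℝ 1 (sl y j) := by
  have h1 : sl y j = fun v => sl y j 0 + ij j v := funext fun v => sl_eq y j v
  rw [h1]
  exact contDiff_const.add (ij j).contDiff

theorem sl_fderiv {f : Xk k → ℝ} (hf : ContDiff ℝ 1 f) (y : ∀ β, Ek (k β)) (j : Fin M)
    (v : Ek (k j)) : fderiv ℝ (fun v => f (sl y j v)) v = (fderiv ℝ f (sl y j v)).comp (ij j) := by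
  have h1 : HasFDerivAt (sl y j) (ij j) v := by
    have h2 : sl y j = fun v => sl y j 0 + ij j v := funext fun v => sl_eq y j v
    rw [h2]
    exact (ij j).hasFDerivAt.const_add _
  exact (((hf.differentiable one_ne_zero) (sl y j v)).hasFDerivAt.comp v h1).fderiv

theorem upd_meas {X : Fin M → Type} [∀ i, MeasurableSpace (X i)] (j : Fin M) :
    Measurable fun z : (∀ i, X i) × X j => Function.update z.1 j z.2 := by
  refine measurable_pi_lambda _ fun i => ?_
  by_cases hi : i = j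
  · subst hi
    simp only [Function.update_self]
    exact measurable_snd
  · simp only [Function.update_of_ne hi]
    exact (measurable_pi_apply i).comp measurable_fst

/-- one component -/
theorem ang_one [IsProbabilityMeasure P] (h : ∀ β, Plr (k β) (K β) P (θ β)) (hk : ∀ β, 1 ≤ k β)
    {c₀ : ℝ} (hc₀ : 0 ≤ c₀) (hK : ∀ β, Iso c₀ (K β)) {a : ℝ} {D : Set (Fin M → ℝ)} (hD : Dn a D)
    {f : Xk k → ℝ} (hf : ContDiff ℝ 1 f) {B : ℝ} (hB : ∀ x, |f x| ≤ B) (j : Fin M) :
    ∫⁻ z, D.indicator 1 (fun β => (z β).1) * (ENNReal.ofReal (1 / 2) *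
      ∫⁻ b, ENNReal.ofReal ((f (xx θ z) - f (xx θ (Function.update z j ((z j).1, b)))) ^ 2) ∂P)
      ∂(zm k P) ≤
    ENNReal.ofReal (c₀ * a ^ 2) * ∫⁻ z, D.indicator 1 (fun β => (z β).1) *
      ENNReal.ofReal (‖(fderiv ℝ f (xx θ z)).comp (ij j)‖ ^ 2) ∂(zm k P) := by
  have hθ : ∀ β, Measurable (θ β) := fun β => (h β).meas
  have hfm := hf.continuous.measurable
  have hxm := xx_meas hθ
  have hDm : Measurable fun z : Fin M → ℝ × Ω =>
      D.indicator (1 : (Fin M → ℝ) → ℝ≥0∞) (fun β => (z β).1) := by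
    have h1 : Measurable fun z : Fin M → ℝ × Ω => fun β => (z β).1 := by fun_prop
    exact (measurable_one.indicator hD.meas).comp h1
  have hdm : Measurable fun x => (fderiv ℝ f x).comp (ij j : Ek (k j) →L[ℝ] Xk k) := by
    have h1 : Continuous fun x => (fderiv ℝ f x).comp (ij j : Ek (k j) →L[ℝ] Xk k) :=
      (hf.continuous_fderiv one_ne_zero).clm_comp continuous_const
    exact h1.measurable
  have hup := upd_meas (X := fun _ : Fin M => ℝ × Ω) j
  have hup2 : Measurable fun p : (Fin M → ℝ × Ω) × Ω => Function.update p.1 j ((p.1 j).1, p.2) := by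
    have h1 : Measurable fun p : (Fin M → ℝ × Ω) × Ω => (p.1, (((p.1 j).1, p.2) : ℝ × Ω)) := by
      fun_prop
    exact hup.comp h1
  have hm1 : Measurable fun z : Fin M → ℝ × Ω =>
      ∫⁻ b, ENNReal.ofReal ((f (xx θ z) - f (xx θ (Function.update z j ((z j).1, b)))) ^ 2) ∂P := by
    refine Measurable.lintegral_prod_right' (f := fun p : (Fin M → ℝ × Ω) × Ω =>
      ENNReal.ofReal ((f (xx θ p.1) - f (xx θ (Function.update p.1 j ((p.1 j).1, p.2)))) ^ 2)) ?_
    exact (((hfm.comp (hxm.comp measurable_fst)).sub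
      (hfm.comp (hxm.comp hup2))).pow_const 2).ennreal_ofReal
  have hm2 : Measurable fun z : Fin M → ℝ × Ω => D.indicator 1 (fun β => (z β).1) *
      ENNReal.ofReal (‖(fderiv ℝ f (xx θ z)).comp (ij j : Ek (k j) →L[ℝ] Xk k)‖ ^ 2) :=
    hDm.mul ((hdm.comp hxm).norm.pow_const 2).ennreal_ofReal
  rw [← lintegral_const_mul _ hm2]
  refine pi_cmp (fun β => (rad (k β)).prod P) (hDm.mul (hm1.const_mul _)) (hm2.const_mul _) j
    fun z => ?_
  -- the one-block inequality
  set y : ∀ β, Ek (k β) := fun β => (z β).1 • θ β (z β).2 with hy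
  set φ : Ek (k j) → ℝ := fun v => f (sl y j v) with hφ
  have hφd : ContDiff ℝ 1 φ := hf.comp (sl_diff y j)
  have hxu : ∀ p : ℝ × Ω, xx θ (Function.update z j p) = sl y j (p.1 • θ j p.2) := by
    intro p
    unfold xx sl
    congr 1
    funext β
    by_cases hβ : β = j
    · subst hβ
      simp
    · simp [Function.update_of_ne hβ, hy]
  let g : ℝ → ℝ := fun r => D.indicator 1 (Function.update (fun β => (z β).1) j r)
  have hgm : Measurable g := by
    have h1 : Measurable fun r : ℝ => Function.update (fun β => (z β).1) j r :=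
      measurable_update _
    exact (measurable_one.indicator hD.meas).comp h1
  have hgD : ∀ p : ℝ × Ω, D.indicator (1 : (Fin M → ℝ) → ℝ≥0∞)
      (fun β => (Function.update z j p β).1) = ENNReal.ofReal (g p.1) := by
    intro p
    have h1 : (fun β => (Function.update z j p β).1) =
        Function.update (fun β => (z β).1) j p.1 := by
      funext β
      by_cases hβ : β = j
      · subst hβ; simp
      · simp [Function.update_of_ne hβ]
    rw [h1]
    simp only [g]
    by_cases hm : Function.update (fun β => (z β).1) j p.1 ∈ D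
    · rw [indicator_of_mem hm, indicator_of_mem hm]; simp
    · rw [indicator_of_notMem hm, indicator_of_notMem hm]; simp
  have hanti : ∀ r s, 0 < r → r ≤ s → g s ≤ g r := by
    intro r s hr hrs
    simp only [g]
    by_cases hm : Function.update (fun β => (z β).1) j s ∈ D
    · have hm' : Function.update (fun β => (z β).1) j r ∈ D := by
        refine hD.down _ hm _ (fun β => ?_) fun β => ?_
        · by_cases hβ : β = j
          · subst hβ; simpa using hr
          · have := hD.pos _ hm β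
            rw [Function.update_of_ne hβ] at this ⊢
            exact this
        · by_cases hβ : β = j
          · subst hβ; simpa using hrs
          · rw [Function.update_of_ne hβ, Function.update_of_ne hβ]
      rw [indicator_of_mem hm, indicator_of_mem hm']
      rfl
    · rw [indicator_of_notMem hm]
      exact indicator_nonneg (fun _ _ => zero_le_one) _
  have hsupp : ∀ r, a < r → g r ≤ 0 := by
    intro r hr
    simp only [g]
    by_cases hm : Function.update (fun β => (z β).1) j r ∈ D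
    · exfalso
      have := hD.le _ hm j
      rw [Function.update_self] at this
      linarith
    · rw [indicator_of_notMem hm]
  have hang := angular (h j) (hk j) hc₀ (hK j) hφd (fun v => hB _) hgm hanti hsupp
  have hθj := hθ j
  have hφm := hφd.continuous.measurable
  -- left side
  have hL : ∫⁻ p, D.indicator 1 (fun β => (Function.update z j p β).1) * (ENNReal.ofReal (1 / 2) *
      ∫⁻ b, ENNReal.ofReal ((f (xx θ (Function.update z j p)) - f (xx θ (Function.update
        (Function.update z j p) j ((Function.update z j p j).1, b)))) ^ 2) ∂P)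
        ∂((rad (k j)).prod P) = ∫⁻ s, aa P (θ j) φ s * ENNReal.ofReal (g s) ∂(rad (k j)) := by
    have e1 : ∀ p : ℝ × Ω, D.indicator 1 (fun β => (Function.update z j p β).1) *
        (ENNReal.ofReal (1 / 2) * ∫⁻ b, ENNReal.ofReal ((f (xx θ (Function.update z j p)) -
        f (xx θ (Function.update (Function.update z j p) j
          ((Function.update z j p j).1, b)))) ^ 2) ∂P) = ENNReal.ofReal (g p.1) *
        (ENNReal.ofReal (1 / 2) *
          ∫⁻ b, ENNReal.ofReal ((φ (p.1 • θ j p.2) - φ (p.1 • θ j b)) ^ 2) ∂P) := by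
      intro p
      rw [hgD]
      simp only [Function.update_idem, Function.update_self, hxu, hφ]
    simp only [e1]
    have e2 : Measurable fun p : ℝ × Ω => ENNReal.ofReal (g p.1) * (ENNReal.ofReal (1 / 2) *
          ∫⁻ b, ENNReal.ofReal ((φ (p.1 • θ j p.2) - φ (p.1 • θ j b)) ^ 2) ∂P) := by
      have e3 : Measurable fun p : ℝ × Ω =>
          ∫⁻ b, ENNReal.ofReal ((φ (p.1 • θ j p.2) - φ (p.1 • θ j b)) ^ 2) ∂P :=
        Measurable.lintegral_prod_right' (f := fun q : (ℝ × Ω) × Ω =>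
          ENNReal.ofReal ((φ (q.1.1 • θ j q.1.2) - φ (q.1.1 • θ j q.2)) ^ 2)) (by fun_prop)
      have e4 : Measurable fun p : ℝ × Ω => ENNReal.ofReal (g p.1) :=
        (hgm.comp measurable_fst).ennreal_ofReal
      exact e4.mul (e3.const_mul _)
    rw [lintegral_prod _ e2.aemeasurable]
    refine lintegral_congr fun s => ?_
    simp only
    have e5 : Measurable fun b => ENNReal.ofReal (1 / 2) *
        ∫⁻ b', ENNReal.ofReal ((φ (s • θ j b) - φ (s • θ j b')) ^ 2) ∂P := by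
      have e6 : Measurable fun b =>
          ∫⁻ b', ENNReal.ofReal ((φ (s • θ j b) - φ (s • θ j b')) ^ 2) ∂P :=
        Measurable.lintegral_prod_right' (f := fun q : Ω × Ω =>
          ENNReal.ofReal ((φ (s • θ j q.1) - φ (s • θ j q.2)) ^ 2)) (by fun_prop)
      exact e6.const_mul _
    rw [lintegral_const_mul _ e5, two_sample (P := P) (u := fun b => φ (s • θ j b))
      (by fun_prop) (fun b => hB _), mul_comm]
    rfl
  have hR : ∫⁻ p, ENNReal.ofReal (c₀ * a ^ 2) *
      (D.indicator 1 (fun β => (Function.update z j p β).1) *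
      ENNReal.ofReal (‖(fderiv ℝ f (xx θ (Function.update z j p))).comp
        (ij j : Ek (k j) →L[ℝ] Xk k)‖ ^ 2)) ∂((rad (k j)).prod P) =
      ENNReal.ofReal (c₀ * a ^ 2) *
        ∫⁻ s, bb P (θ j) φ s * ENNReal.ofReal (g s) ∂(rad (k j)) := by
    have e1 : ∀ p : ℝ × Ω, ENNReal.ofReal (c₀ * a ^ 2) *
        (D.indicator 1 (fun β => (Function.update z j p β).1) *
        ENNReal.ofReal (‖(fderiv ℝ f (xx θ (Function.update z j p))).comp
          (ij j : Ek (k j) →L[ℝ] Xk k)‖ ^ 2)) = ENNReal.ofReal (c₀ * a ^ 2) *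
        (ENNReal.ofReal (g p.1) * ENNReal.ofReal (‖fderiv ℝ φ (p.1 • θ j p.2)‖ ^ 2)) := by
      intro p
      rw [hgD, hxu, hφ, sl_fderiv hf]
    simp only [e1]
    have hfdm : Measurable fun v => ‖fderiv ℝ φ v‖ :=
      (hφd.continuous_fderiv one_ne_zero).norm.measurable
    have e2 : Measurable fun p : ℝ × Ω => ENNReal.ofReal (g p.1) *
        ENNReal.ofReal (‖fderiv ℝ φ (p.1 • θ j p.2)‖ ^ 2) := by
      have e4 : Measurable fun p : ℝ × Ω => ENNReal.ofReal (g p.1) :=
        (hgm.comp measurable_fst).ennreal_ofReal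
      have e5 : Measurable fun p : ℝ × Ω => p.1 • θ j p.2 := by fun_prop
      exact e4.mul ((hfdm.comp e5).pow_const 2).ennreal_ofReal
    rw [lintegral_const_mul _ e2, lintegral_prod _ e2.aemeasurable]
    congr 1
    refine lintegral_congr fun s => ?_
    simp only
    have e6 : Measurable fun b => ENNReal.ofReal (‖fderiv ℝ φ (s • θ j b)‖ ^ 2) := by
      have e5 : Measurable fun b : Ω => s • θ j b := by fun_prop
      exact ((hfdm.comp e5).pow_const 2).ennreal_ofReal
    rw [lintegral_const_mul _ e6, mul_comm]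
    rfl
  rw [hR]
  exact (le_of_eq hL).trans hang

/-- the measure of the norms -/
noncomputable abbrev rm (k : Fin M → ℕ) : Measure (Fin M → ℝ) := Measure.pi fun β => rad (k β)

/-- norms and directions are independent -/
theorem swap_z [IsProbabilityMeasure P] {F : (Fin M → ℝ) × (Fin M → Ω) → ℝ≥0∞}
    (hF : Measurable F) : ∫⁻ z, F (fun β => (z β).1, fun β => (z β).2) ∂(zm k P) =
      ∫⁻ ρ, ∫⁻ ω, F (ρ, ω) ∂(PP (Fin M) P) ∂(rm k) := by
  have h := measurePreserving_arrowProdEquivProdArrow ℝ Ω (Fin M) (fun β => rad (k β)) (fun _ => P)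
  have h1 := h.lintegral_comp hF
  rw [lintegral_prod _ hF.aemeasurable] at h1
  exact h1

/-- the mean over the directions -/
noncomputable def Hf (P : Measure Ω) (θ : ∀ β, Ω → Ek (k β)) (f : Xk k → ℝ) (ρ : Fin M → ℝ) : ℝ :=
  ∫ ω, f (xr θ ρ ω) ∂(PP (Fin M) P)

theorem Hf_meas [IsProbabilityMeasure P] (hθ : ∀ β, Measurable (θ β)) {f : Xk k → ℝ}
    (hf : Measurable f) : Measurable (Hf P θ f) := by
  have h1 : StronglyMeasurable fun p : (Fin M → ℝ) × (Fin M → Ω) => f (xr θ p.1 p.2) :=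
    (hf.comp (xr_meas hθ)).stronglyMeasurable
  exact h1.integral_prod_right.measurable

/-- summation over the components -/
theorem sum_step [IsProbabilityMeasure P] {W A : (Fin M → ℝ) → ℝ≥0∞} (hW : Measurable W)
    {FI GJ : Fin M → (Fin M → ℝ) × (Fin M → Ω) → ℝ≥0∞} (hFI : ∀ j, Measurable (FI j))
    (hGJ : ∀ j, Measurable (GJ j)) {GG : (Fin M → ℝ) × (Fin M → Ω) → ℝ≥0∞}
    (hGG : ∀ p, GG p = ∑ j, GJ j p) (C : ℝ≥0∞)
    (h1 : ∀ ρ, A ρ ≤ ∑ j, ∫⁻ ω, FI j (ρ, ω) ∂(PP (Fin M) P))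
    (h2 : ∀ j, ∫⁻ z, W (fun β => (z β).1) * FI j (fun β => (z β).1, fun β => (z β).2) ∂(zm k P) ≤
      C * ∫⁻ z, W (fun β => (z β).1) * GJ j (fun β => (z β).1, fun β => (z β).2) ∂(zm k P)) :
    ∫⁻ ρ, W ρ * A ρ ∂(rm k) ≤ C * ∫⁻ ρ, W ρ * ∫⁻ ω, GG (ρ, ω) ∂(PP (Fin M) P) ∂(rm k) := by
  have hFω : ∀ j ρ, Measurable fun ω => FI j (ρ, ω) := fun j ρ =>
    (hFI j).comp measurable_prodMk_left
  have hGω : ∀ j ρ, Measurable fun ω => GJ j (ρ, ω) := fun j ρ =>
    (hGJ j).comp measurable_prodMk_left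
  have hF2 : ∀ j, Measurable fun ρ => W ρ * ∫⁻ ω, FI j (ρ, ω) ∂(PP (Fin M) P) := fun j =>
    hW.mul (hFI j).lintegral_prod_right'
  have hG2 : ∀ j, Measurable fun ρ => W ρ * ∫⁻ ω, GJ j (ρ, ω) ∂(PP (Fin M) P) := fun j =>
    hW.mul (hGJ j).lintegral_prod_right'
  have e1 : ∫⁻ ρ, W ρ * ∫⁻ ω, GG (ρ, ω) ∂(PP (Fin M) P) ∂(rm k) =
      ∑ j, ∫⁻ ρ, W ρ * ∫⁻ ω, GJ j (ρ, ω) ∂(PP (Fin M) P) ∂(rm k) := by
    rw [← lintegral_finsetSum _ fun j _ => hG2 j]
    refine lintegral_congr fun ρ => ?_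
    rw [← Finset.mul_sum, ← lintegral_finsetSum _ fun j _ => hGω j ρ]
    simp only [hGG]
  rw [e1, Finset.mul_sum]
  have e2 : ∫⁻ ρ, W ρ * A ρ ∂(rm k) ≤
      ∑ j, ∫⁻ ρ, W ρ * ∫⁻ ω, FI j (ρ, ω) ∂(PP (Fin M) P) ∂(rm k) := by
    rw [← lintegral_finsetSum _ fun j _ => hF2 j]
    refine lintegral_mono fun ρ => ?_
    simp only
    rw [← Finset.mul_sum]
    exact mul_le_mul_right (h1 ρ) _
  refine e2.trans (Finset.sum_le_sum fun j _ => ?_)
  have h3 := h2 j
  have h4 := swap_z (k := k) (P := P) (F := fun p : (Fin M → ℝ) × (Fin M → Ω) =>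
    W p.1 * FI j p) ((hW.comp measurable_fst).mul (hFI j))
  have h5 := swap_z (k := k) (P := P) (F := fun p : (Fin M → ℝ) × (Fin M → Ω) =>
    W p.1 * GJ j p) ((hW.comp measurable_fst).mul (hGJ j))
  simp only at h4 h5
  rw [h4, h5] at h3
  have h6 : ∀ ρ, ∫⁻ ω, W ρ * FI j (ρ, ω) ∂(PP (Fin M) P) = W ρ *
      ∫⁻ ω, FI j (ρ, ω) ∂(PP (Fin M) P) := fun ρ => lintegral_const_mul _ (hFω j ρ)
  have h7 : ∀ ρ, ∫⁻ ω, W ρ * GJ j (ρ, ω) ∂(PP (Fin M) P) = W ρ *
      ∫⁻ ω, GJ j (ρ, ω) ∂(PP (Fin M) P) := fun ρ => lintegral_const_mul _ (hGω j ρ)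
  simp only [h6, h7] at h3
  exact h3

/-- all components -/
theorem ang_all [IsProbabilityMeasure P] (h : ∀ β, Plr (k β) (K β) P (θ β)) (hk : ∀ β, 1 ≤ k β)
    {c₀ : ℝ} (hc₀ : 0 ≤ c₀) (hK : ∀ β, Iso c₀ (K β)) {a : ℝ} {D : Set (Fin M → ℝ)} (hD : Dn a D)
    {f : Xk k → ℝ} (hf : ContDiff ℝ 1 f) {B : ℝ} (hB : ∀ x, |f x| ≤ B) :
    ∫⁻ ρ, D.indicator 1 ρ * ∫⁻ ω, ENNReal.ofReal ((f (xr θ ρ ω) - Hf P θ f ρ) ^ 2)
      ∂(PP (Fin M) P) ∂(rm k) ≤
    ENNReal.ofReal (c₀ * a ^ 2) * ∫⁻ ρ, D.indicator 1 ρ *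
      ∫⁻ ω, ENNReal.ofReal (‖fderiv ℝ f (xr θ ρ ω)‖ ^ 2) ∂(PP (Fin M) P) ∂(rm k) := by
  have hθ : ∀ β, Measurable (θ β) := fun β => (h β).meas
  have hfm := hf.continuous.measurable
  have hxm := xr_meas hθ
  have hDm : Measurable (D.indicator (1 : (Fin M → ℝ) → ℝ≥0∞)) := measurable_one.indicator hD.meas
  have hx : ∀ ρ, Measurable fun ω : Fin M → Ω => xr θ ρ ω := fun ρ =>
    hxm.comp measurable_prodMk_left
  have hdm : ∀ j, Measurable fun x =>
      ‖(fderiv ℝ f x).comp (ij j : Ek (k j) →L[ℝ] Xk k)‖ := fun j => by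
    have h1 : Continuous fun x => (fderiv ℝ f x).comp (ij j : Ek (k j) →L[ℝ] Xk k) :=
      (hf.continuous_fderiv one_ne_zero).clm_comp continuous_const
    exact h1.norm.measurable
  have hI : ∀ j, Measurable fun p : (Fin M → ℝ) × (Fin M → Ω) => ENNReal.ofReal (1 / 2) *
      ∫⁻ b, ENNReal.ofReal ((f (xr θ p.1 p.2) -
        f (xr θ p.1 (Function.update p.2 j b))) ^ 2) ∂P := by
    intro j
    refine Measurable.const_mul ?_ _
    refine Measurable.lintegral_prod_right' (f := fun q : ((Fin M → ℝ) × (Fin M → Ω)) × Ω =>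
      ENNReal.ofReal ((f (xr θ q.1.1 q.1.2) -
        f (xr θ q.1.1 (Function.update q.1.2 j q.2))) ^ 2)) ?_
    have e1 : Measurable fun q : ((Fin M → ℝ) × (Fin M → Ω)) × Ω =>
        ((q.1.1, Function.update q.1.2 j q.2) : (Fin M → ℝ) × (Fin M → Ω)) := by
      refine (measurable_fst.comp measurable_fst).prodMk ?_
      exact (upd_meas (X := fun _ : Fin M => Ω) j).comp
        ((measurable_snd.comp measurable_fst).prodMk measurable_snd)
    exact (((hfm.comp (hxm.comp measurable_fst)).sub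
      (hfm.comp (hxm.comp e1))).pow_const 2).ennreal_ofReal
  have hJ : ∀ j, Measurable fun p : (Fin M → ℝ) × (Fin M → Ω) =>
      ENNReal.ofReal (‖(fderiv ℝ f (xr θ p.1 p.2)).comp (ij j : Ek (k j) →L[ℝ] Xk k)‖ ^ 2) :=
    fun j => (((hdm j).comp hxm).pow_const 2).ennreal_ofReal
  have e2 : ∀ z : Fin M → ℝ × Ω, ∀ j b, xx θ (Function.update z j ((z j).1, b)) =
      xr θ (fun β => (z β).1) (Function.update (fun β => (z β).2) j b) := by
    intro z j b
    unfold xx xr
    congr 1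
    funext β
    by_cases hβ : β = j
    · subst hβ; simp
    · simp [Function.update_of_ne hβ]
  refine sum_step (k := k) (P := P) hDm hI hJ (GG := fun p : (Fin M → ℝ) × (Fin M → Ω) =>
    ENNReal.ofReal (‖fderiv ℝ f (xr θ p.1 p.2)‖ ^ 2)) (fun p => ?_) _ (fun ρ => ?_) fun j => ?_
  · simp only
    rw [norm_split, ENNReal.ofReal_sum_of_nonneg fun β _ => sq_nonneg _]
  · have h2 := efron_stein (μ := P) (fun ω : Fin M → Ω => f (xr θ ρ ω)) (hfm.comp (hx ρ)) B
      fun ω => hB _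
    refine h2.trans (le_of_eq ?_)
    rw [Finset.mul_sum]
    refine Finset.sum_congr rfl fun j _ => ?_
    rw [lintegral_const_mul]
    refine Measurable.lintegral_prod_right' (f := fun p : (Fin M → Ω) × Ω =>
      ENNReal.ofReal ((f (xr θ ρ p.1) - f (xr θ ρ (Function.update p.1 j p.2))) ^ 2)) ?_
    exact (((hfm.comp ((hx ρ).comp measurable_fst)).sub
      (hfm.comp ((hx ρ).comp (upd_meas (X := fun _ : Fin M => Ω) j)))).pow_const 2).ennreal_ofReal
  · have h4 := ang_one h hk hc₀ hK hD hf hB j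
    simp only [e2] at h4
    exact h4

end

end Pool.Agent.V5helper78.KU
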