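import Pool.Agent.V5helper78.KU.Nrm
import Pool.Agent.V5helper78.KO.Gen
import Pool.Agent.Y506.PV.Cc
import Pool.Agent.Y506.PV.Stb

/-!
# Concentration for linear images
-/

set_option autoImplicit false
set_option linter.unusedSectionVars false

namespace Pool.Agent.V5helper78.KU

open MeasureTheory Set Filter Topology Metric
open scoped ENNReal InnerProductSpace
open Pool.Agent.V5helper78.KO
open Pool.Agent.TH610.RB (cH)
open Pool.Agent.Y506.PV (CcW ind)
open Pool.Agent.Y506.RG (EW VW Adm)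

section

variable {M : ℕ} {k : Fin M → ℕ} {K : ∀ β, Set (Ek (k β))} {Ω : Type} [MeasurableSpace Ω]
  {P : Measure Ω} {θ : ∀ β, Ω → Ek (k β)} [IsProbabilityMeasure P]

/-- the constant -/
noncomputable def cc (c₀ T A : ℝ) : ℝ :=
  40000 * ((c₀ + 4 * cH) * (4 * 540 ^ 2 * (1 + T) ^ 2 * (1 + A) ^ 2))

theorem cc_pos {c₀ T A : ℝ} (hc₀ : 0 ≤ c₀) (hT : 0 ≤ T) (hA : 0 ≤ A) : 0 < cc c₀ T A := by
  have hcH := Pool.Agent.TH610.RB.cH_pos
  unfold cc
  positivity

theorem EW_img {m : ℕ} (J : Xk k ≃ₗᵢ[ℝ] Ek m) {S : Set (Xk k)} (hS : MeasurableSet S)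
    (v : Ek m → ℝ) : EW (ind (J '' S)) v = ∫ x, v (J x) ∂(um S) := by
  have hJm : MeasurableEmbedding J := J.toHomeomorph.measurableEmbedding
  have hmp : MeasurePreserving J volume volume := J.measurePreserving
  have hSm : MeasurableSet (J '' S) := hJm.measurableSet_image.2 hS
  have h1 : ∀ u : Ek m → ℝ, ∫ x in J '' S, u x = ∫ x in S, u (J x) := fun u =>
    hmp.setIntegral_image_emb hJm u S
  have h2 : volume (J '' S) = volume S := by
    rw [← hmp.measure_preimage hSm.nullMeasurableSet, preimage_image_eq _ J.injective]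
  unfold EW um
  rw [Pool.Agent.Y506.PV.int_ind _ hSm, Pool.Agent.Y506.PV.int_ind1 _ hSm, h1, h2,
    integral_smul_measure, ENNReal.toReal_inv, smul_eq_mul, div_eq_inv_mul]

theorem cc_norm {m : ℕ} (J : Xk k ≃ₗᵢ[ℝ] Ek m) (h : ∀ β, Plr (k β) (K β) P (θ β))
    (hk : ∀ β, 1 ≤ k β) {c₀ : ℝ} (hc₀ : 0 ≤ c₀)
    (hK : ∀ β, Iso c₀ (K β)) {T : ℝ} (hT0 : 0 ≤ T) {G : Finset (Fin M)}
    (hT : ∑ β ∈ G, Real.exp (-(T * k β)) ≤ 1)
    {D : Set (Fin M → ℝ)} (hD : Un D) {R : ℝ} (hR : ∀ ρ ∈ D, ∀ β, ρ β ≤ R)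
    (hv : volume (Sb K D) ≠ 0) (hne : ∫⁻ ρ, D.indicator 1 ρ ∂(rm k) ≠ 0)
    (hnorm : ∀ β, ∫⁻ ρ, D.indicator 1 ρ * ENNReal.ofReal (ρ β ^ 2) ∂(rm k) =
      ENNReal.ofReal (k β / (k β + 2)) * ∫⁻ ρ, D.indicator 1 ρ ∂(rm k)) {A : ℝ} (hA0 : 0 ≤ A)
    (hA : ∀ t : ℝ, 1 ≤ t → volume (Sb K (D ∩ {ρ | ∃ β, β ∉ G ∧
      A * t * (Real.sqrt (k β) / Real.sqrt (k β + 2)) < ρ β})) ≤
        ENNReal.ofReal (Real.exp (-t)) * volume (Sb K D)) {δ : ℝ} (hδ : 0 < δ) :
    CcW (Real.sqrt (δ / cc c₀ T A)) δ (ind (J '' Sb K D)) ∧ Adm (ind (J '' Sb K D)) := by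
  have hcc := cc_pos hc₀ hT0 hA0
  have hKc : ∀ β, IsCompact (K β) := fun β => (hK β).comp
  have hKv : ∀ β, Convex ℝ (K β) := fun β => (hK β).conv
  have h0 : ∀ β, (0 : Ek (k β)) ∈ interior (K β) := fun β => (hK β).zero
  have hcl := Sb_closed (k := k) hKv h0 hD
  have hb := Sb_bdd (k := k) hKc hKv h0 hD hR
  have hfin : volume (Sb K D) ≠ ⊤ := hb.measure_lt_top.ne
  have hSm := hcl.measurableSet
  have hVp : 0 < volume.real (Sb K D) := by
    rw [measureReal_def]
    exact ENNReal.toReal_pos hv hfin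
  have hum : ∀ u : Xk k → ℝ, ∫ x, u x ∂(um (Sb K D)) =
      (volume.real (Sb K D))⁻¹ * ∫ x in Sb K D, u x := by
    intro u
    unfold um
    rw [integral_smul_measure, ENNReal.toReal_inv, smul_eq_mul]
    rfl
  constructor
  · have h1 := Pool.Agent.Y506.PV.cc_of (w := ind (J '' Sb K D)) 1 (Real.sqrt (δ / cc c₀ T A)) δ one_pos
      (fun η hη => ?_) fun v hv1 hvb hvl => ?_
    · rwa [Real.sqrt_one, mul_one] at h1
    · unfold VW
      rw [EW_img J hSm, EW_img J hSm]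
      have e1 : ∀ x : Xk k, ⟪η, J x⟫_ℝ = ⟪x, J.symm η⟫_ℝ := by
        intro x
        rw [real_inner_comm, ← J.inner_map_map x (J.symm η), J.apply_symm_apply]
      simp only [e1]
      rw [hum, hum, body_mean h hk hK hD hR, body_cov h hk hK hD hR hnorm, mul_zero,
        J.symm.norm_map, hη]
      rw [← mul_assoc, inv_mul_cancel₀ hVp.ne']
      norm_num
    · unfold VW
      rw [EW_img J hSm, EW_img J hSm]
      set l : ℝ := Real.sqrt (δ / cc c₀ T A) with hl
      have hl0 : 0 < l := Real.sqrt_pos.2 (by positivity)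
      have hJd : ContDiff ℝ 1 fun x : Xk k => J x := J.toContinuousLinearEquiv.contDiff
      have hf : ContDiff ℝ 1 fun x : Xk k => l⁻¹ * v (J x) := contDiff_const.mul (hv1.comp hJd)
      have hfd : ∀ x, ‖fderiv ℝ (fun x : Xk k => l⁻¹ * v (J x)) x‖ ≤ 1 := by
        intro x
        have h2 : HasFDerivAt (fun x : Xk k => J x)
            (J.toContinuousLinearEquiv : Xk k →L[ℝ] Ek m) x :=
          J.toContinuousLinearEquiv.hasFDerivAt
        have h3 : HasFDerivAt v (fderiv ℝ v (J x)) (J x) :=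
          (hv1.differentiable one_ne_zero _).hasFDerivAt
        have h4 := (h3.comp x h2).const_mul l⁻¹
        have h5 : fderiv ℝ (fun x : Xk k => l⁻¹ * v (J x)) x = l⁻¹ •
            ((fderiv ℝ v (J x)).comp (J.toContinuousLinearEquiv : Xk k →L[ℝ] Ek m)) := h4.fderiv
        rw [h5, norm_smul, Real.norm_eq_abs, abs_of_pos (inv_pos.2 hl0)]
        have h6 : ‖(fderiv ℝ v (J x)).comp (J.toContinuousLinearEquiv : Xk k →L[ℝ] Ek m)‖ ≤ l := by
          refine (ContinuousLinearMap.opNorm_comp_le _ _).trans ?_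
          have h7 : ‖(J.toContinuousLinearEquiv : Xk k →L[ℝ] Ek m)‖ ≤ 1 :=
            ContinuousLinearMap.opNorm_le_bound _ zero_le_one fun y => by
              rw [one_mul]
              exact (J.norm_map y).le
          calc _ ≤ l * 1 := mul_le_mul (hvl _) h7 (norm_nonneg _) hl0.le
            _ = l := mul_one l
        calc l⁻¹ * _ ≤ l⁻¹ * l := mul_le_mul_of_nonneg_left h6 (inv_pos.2 hl0).le
          _ = 1 := inv_mul_cancel₀ hl0.ne'
      have h8 := thmB h hk hc₀ hK hT0 hT hD hR hne hnorm hA0 hA _ hf hfd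
      simp only [mul_pow] at h8
      rw [integral_const_mul, integral_const_mul, mul_pow, ← mul_sub] at h8
      have h9 : l⁻¹ ^ 2 = cc c₀ T A / δ := by
        rw [inv_pow, hl, Real.sq_sqrt (by positivity), inv_div]
      rw [h9] at h8
      change cc c₀ T A / δ * _ ≤ cc c₀ T A at h8
      rw [div_mul_eq_mul_div, div_le_iff₀ hδ] at h8
      exact le_of_mul_le_mul_left h8 hcc
  · have hJm : MeasurableEmbedding J := J.toHomeomorph.measurableEmbedding
    have hmp : MeasurePreserving J volume volume := J.measurePreserving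
    have hJS : MeasurableSet (J '' Sb K D) := hJm.measurableSet_image.2 hSm
    refine Pool.Agent.Y506.PV.adm_ind _ hJS (J.lipschitz.isBounded_image hb) ?_
    rw [← hmp.measure_preimage hJS.nullMeasurableSet, preimage_image_eq _ J.injective]
    exact pos_iff_ne_zero.2 hv

end

end Pool.Agent.V5helper78.KU
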