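import Pool.Agent.V5helper78.KU.Glb

/-!
# Means and covariances
-/

set_option autoImplicit false
set_option linter.unusedSectionVars false

namespace Pool.Agent.V5helper78.KU

open MeasureTheory Set Filter Topology Metric
open scoped ENNReal InnerProductSpace
open Pool.Agent.V5helper78.KO

section

variable {M : ℕ} {k : Fin M → ℕ} {K : ∀ β, Set (Ek (k β))} {Ω : Type} [MeasurableSpace Ω]
  {P : Measure Ω} {θ : ∀ β, Ω → Ek (k β)} [IsProbabilityMeasure P]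

theorem inner_xr (ρ : Fin M → ℝ) (ω : Fin M → Ω) (η : Xk k) :
    ⟪xr θ ρ ω, η⟫_ℝ = ∑ β, ρ β * ⟪θ β (ω β), bl β η⟫_ℝ := by
  rw [inner_bl]
  refine Finset.sum_congr rfl fun β _ => ?_
  unfold xr
  rw [bl_asm, real_inner_smul_left]

theorem inn_bd (h : ∀ β, Plr (k β) (K β) P (θ β)) (hk : ∀ β, 1 ≤ k β) {c₀ : ℝ}
    (hK : ∀ β, Iso c₀ (K β)) (β : Fin M) (e : Ek (k β)) (ω : Ω) :
    |⟪θ β ω, e⟫_ℝ| ≤ 2 * (k β + 1) * ‖e‖ :=
  (abs_real_inner_le_norm _ _).trans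
    (mul_le_mul_of_nonneg_right (theta_norm' (h β) (hk β) (hK β) ω) (norm_nonneg _))

theorem inn_meas (h : ∀ β, Plr (k β) (K β) P (θ β)) (β : Fin M) (e : Ek (k β)) :
    Measurable fun ω => ⟪θ β ω, e⟫_ℝ := by
  have := (h β).meas
  fun_prop

theorem inn_int (h : ∀ β, Plr (k β) (K β) P (θ β)) (hk : ∀ β, 1 ≤ k β) {c₀ : ℝ}
    (hK : ∀ β, Iso c₀ (K β)) (β : Fin M) (e : Ek (k β)) :
    Integrable (fun ω => ⟪θ β ω, e⟫_ℝ) P :=
  Integrable.of_bound (inn_meas h β e).aestronglyMeasurable (2 * (k β + 1) * ‖e‖)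
    (Eventually.of_forall fun ω => by rw [Real.norm_eq_abs]; exact inn_bd h hk hK β e ω)

theorem inn_mean (h : ∀ β, Plr (k β) (K β) P (θ β)) (hk : ∀ β, 1 ≤ k β) {c₀ : ℝ}
    (hK : ∀ β, Iso c₀ (K β)) (β : Fin M) (e : Ek (k β)) : ∫ ω, ⟪θ β ω, e⟫_ℝ ∂P = 0 := by
  rw [integral_eq_lintegral_pos_part_sub_lintegral_neg_part (inn_int h hk hK β e),
    mom1 (h β) (hk β) (hK β) e, sub_self]

theorem inn_sq (h : ∀ β, Plr (k β) (K β) P (θ β)) (hk : ∀ β, 1 ≤ k β) {c₀ : ℝ}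
    (hK : ∀ β, Iso c₀ (K β)) (β : Fin M) (e : Ek (k β)) :
    ∫ ω, ⟪θ β ω, e⟫_ℝ ^ 2 ∂P = (k β + 2) / k β * ‖e‖ ^ 2 := by
  have hm := inn_meas h β e
  rw [integral_eq_lintegral_of_nonneg_ae (Eventually.of_forall fun ω => sq_nonneg _)
    (hm.pow_const 2).aestronglyMeasurable, mom2 (h β) (hk β) (hK β) e,
    ENNReal.toReal_ofReal (by positivity)]

/-- mean and variance of linear functionals over the directions -/
theorem lin_mean (h : ∀ β, Plr (k β) (K β) P (θ β)) (hk : ∀ β, 1 ≤ k β) {c₀ : ℝ}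
    (hK : ∀ β, Iso c₀ (K β)) (ρ : Fin M → ℝ) (η : Xk k) :
    Integrable (fun ω => ⟪xr θ ρ ω, η⟫_ℝ) (PP (Fin M) P) ∧
      ∫ ω, ⟪xr θ ρ ω, η⟫_ℝ ∂(PP (Fin M) P) = 0 := by
  simp only [inner_xr]
  have h1 : ∀ β : Fin M, MeasurePreserving (fun ω : Fin M → Ω => ω β) (PP (Fin M) P) P :=
    fun β => measurePreserving_eval _ β
  have hi : ∀ β ∈ (Finset.univ : Finset (Fin M)),
      Integrable (fun ω : Fin M → Ω => ρ β * ⟪θ β (ω β), bl β η⟫_ℝ) (PP (Fin M) P) := by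
    intro β _
    exact ((h1 β).integrable_comp_of_integrable (inn_int h hk hK β (bl β η))).const_mul _
  refine ⟨integrable_finsetSum _ hi, ?_⟩
  rw [integral_finsetSum _ hi]
  refine Finset.sum_eq_zero fun β _ => ?_
  rw [integral_const_mul, int_mp (h1 β) (inn_meas h β (bl β η)), inn_mean h hk hK, mul_zero]

theorem lin_sq (h : ∀ β, Plr (k β) (K β) P (θ β)) (hk : ∀ β, 1 ≤ k β) {c₀ : ℝ}
    (hK : ∀ β, Iso c₀ (K β)) (ρ : Fin M → ℝ) (η : Xk k) :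
    ∫⁻ ω, ENNReal.ofReal (⟪xr θ ρ ω, η⟫_ℝ ^ 2) ∂(PP (Fin M) P) =
      ∑ β, ENNReal.ofReal (ρ β ^ 2) * ENNReal.ofReal ((k β + 2) / k β * ‖bl β η‖ ^ 2) := by
  have hθ : ∀ β, Measurable (θ β) := fun β => (h β).meas
  obtain ⟨-, hm0⟩ := lin_mean h hk hK ρ η
  have hbd : ∀ ω : Fin M → Ω, |⟪xr θ ρ ω, η⟫_ℝ| ≤ ∑ β, |ρ β| * (2 * (k β + 1) * ‖bl β η‖) := by
    intro ω
    rw [inner_xr]
    refine (Finset.abs_sum_le_sum_abs _ _).trans (Finset.sum_le_sum fun β _ => ?_)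
    rw [abs_mul]
    exact mul_le_mul_of_nonneg_left (inn_bd h hk hK β _ _) (abs_nonneg _)
  have hx : Measurable fun ω : Fin M → Ω => xr θ ρ ω := (xr_meas hθ).comp measurable_prodMk_left
  have hsm : Measurable fun ω : Fin M → Ω => ⟪xr θ ρ ω, η⟫_ℝ := by fun_prop
  have hi2 : Integrable (fun ω : Fin M → Ω => ⟪xr θ ρ ω, η⟫_ℝ ^ 2) (PP (Fin M) P) :=
    Integrable.of_bound (hsm.pow_const 2).aestronglyMeasurable _
      (Eventually.of_forall fun ω => by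
        rw [Real.norm_eq_abs, abs_pow]
        exact pow_le_pow_left₀ (abs_nonneg _) (hbd ω) 2)
  rw [← ofReal_integral_eq_lintegral_ofReal hi2 (Eventually.of_forall fun ω => sq_nonneg _)]
  have hL : ∀ β, MemLp (fun ω => ρ β * ⟪θ β ω, bl β η⟫_ℝ) 2 P := fun β =>
    MemLp.of_bound ((inn_meas h β _).const_mul _).aestronglyMeasurable
      (|ρ β| * (2 * (k β + 1) * ‖bl β η‖)) (Eventually.of_forall fun ω => by
        rw [Real.norm_eq_abs, abs_mul]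
        exact mul_le_mul_of_nonneg_left (inn_bd h hk hK β _ _) (abs_nonneg _))
  have h3 := ProbabilityTheory.variance_sum_pi (μ := fun _ : Fin M => P)
    (X := fun β ω => ρ β * ⟪θ β ω, bl β η⟫_ℝ) hL
  have e1 : (∑ β, fun ω : Fin M → Ω => ρ β * ⟪θ β (ω β), bl β η⟫_ℝ) =
      fun ω => ⟪xr θ ρ ω, η⟫_ℝ := by
    funext ω
    rw [Finset.sum_apply, inner_xr]
  rw [e1] at h3
  have h4 : ProbabilityTheory.variance (fun ω : Fin M → Ω => ⟪xr θ ρ ω, η⟫_ℝ)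
      (Measure.pi fun _ : Fin M => P) = ∫ ω, ⟪xr θ ρ ω, η⟫_ℝ ^ 2 ∂(PP (Fin M) P) :=
    ProbabilityTheory.variance_of_integral_eq_zero hsm.aemeasurable hm0
  have h5 : ∀ β, ProbabilityTheory.variance (fun ω => ρ β * ⟪θ β ω, bl β η⟫_ℝ) P =
      ρ β ^ 2 * ((k β + 2) / k β * ‖bl β η‖ ^ 2) := by
    intro β
    rw [ProbabilityTheory.variance_of_integral_eq_zero
      ((inn_meas h β _).const_mul _).aemeasurable
      (by rw [integral_const_mul, inn_mean h hk hK, mul_zero])]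
    simp only [mul_pow]
    rw [integral_const_mul, inn_sq h hk hK]
  rw [← h4, h3, ENNReal.ofReal_sum_of_nonneg fun β _ =>
    ProbabilityTheory.variance_nonneg _ _]
  refine Finset.sum_congr rfl fun β _ => ?_
  rw [h5, ENNReal.ofReal_mul (sq_nonneg _)]

theorem body_mean (h : ∀ β, Plr (k β) (K β) P (θ β)) (hk : ∀ β, 1 ≤ k β) {c₀ : ℝ}
    (hK : ∀ β, Iso c₀ (K β)) {D : Set (Fin M → ℝ)} (hD : Un D) {R : ℝ}
    (hR : ∀ ρ ∈ D, ∀ β, ρ β ≤ R) (η : Xk k) : ∫ x in Sb K D, ⟪x, η⟫_ℝ = 0 := by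
  have hθ : ∀ β, Measurable (θ β) := fun β => (h β).meas
  have hKc : ∀ β, IsCompact (K β) := fun β => (hK β).comp
  have hKv : ∀ β, Convex ℝ (K β) := fun β => (hK β).conv
  have h0 : ∀ β, (0 : Ek (k β)) ∈ interior (K β) := fun β => (hK β).zero
  obtain ⟨cK, hc0, hct, H⟩ := body_polar h hKc hKv h0
  have hcl := Sb_closed (k := k) hKv h0 hD
  have hb := Sb_bdd (k := k) hKc hKv h0 hD hR
  have hcomp : IsCompact (Sb K D) := Metric.isCompact_of_isClosed_isBounded hcl hb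
  have hi : IntegrableOn (fun x : Xk k => ⟪x, η⟫_ℝ) (Sb K D) :=
    (by fun_prop : Continuous fun x : Xk k => ⟪x, η⟫_ℝ).continuousOn.integrableOn_compact hcomp
  have hDm := hD.closed.measurableSet
  rw [integral_eq_lintegral_pos_part_sub_lintegral_neg_part hi,
    H D hDm (fun x => ENNReal.ofReal ⟪x, η⟫_ℝ) (by fun_prop),
    H D hDm (fun x => ENNReal.ofReal (-⟪x, η⟫_ℝ)) (by fun_prop), sub_eq_zero]
  congr 3
  funext ρ
  congr 1
  obtain ⟨h1, h2⟩ := lin_mean h hk hK ρ η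
  rw [integral_eq_lintegral_pos_part_sub_lintegral_neg_part h1, sub_eq_zero] at h2
  have hf1 : ∫⁻ ω, ENNReal.ofReal ⟪xr θ ρ ω, η⟫_ℝ ∂(PP (Fin M) P) ≠ ⊤ := by
    refine ne_top_of_le_ne_top h1.2.ne (lintegral_mono fun x => ?_)
    rw [← ofReal_norm, Real.norm_eq_abs]
    exact ENNReal.ofReal_le_ofReal (le_abs_self _)
  have hf2 : ∫⁻ ω, ENNReal.ofReal (-⟪xr θ ρ ω, η⟫_ℝ) ∂(PP (Fin M) P) ≠ ⊤ := by
    refine ne_top_of_le_ne_top h1.2.ne (lintegral_mono fun x => ?_)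
    rw [← ofReal_norm, Real.norm_eq_abs]
    exact ENNReal.ofReal_le_ofReal (neg_le_abs _)
  exact (ENNReal.toReal_eq_toReal_iff' hf1 hf2).1 h2

theorem body_cov (h : ∀ β, Plr (k β) (K β) P (θ β)) (hk : ∀ β, 1 ≤ k β) {c₀ : ℝ}
    (hK : ∀ β, Iso c₀ (K β)) {D : Set (Fin M → ℝ)} (hD : Un D) {R : ℝ}
    (hR : ∀ ρ ∈ D, ∀ β, ρ β ≤ R)
    (hnorm : ∀ β, ∫⁻ ρ, D.indicator 1 ρ * ENNReal.ofReal (ρ β ^ 2) ∂(rm k) =
      ENNReal.ofReal (k β / (k β + 2)) * ∫⁻ ρ, D.indicator 1 ρ ∂(rm k)) (η : Xk k) :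
    ∫ x in Sb K D, ⟪x, η⟫_ℝ ^ 2 = volume.real (Sb K D) * ‖η‖ ^ 2 := by
  have hθ : ∀ β, Measurable (θ β) := fun β => (h β).meas
  have hKc : ∀ β, IsCompact (K β) := fun β => (hK β).comp
  have hKv : ∀ β, Convex ℝ (K β) := fun β => (hK β).conv
  have h0 : ∀ β, (0 : Ek (k β)) ∈ interior (K β) := fun β => (hK β).zero
  obtain ⟨cK, hc0, hct, H⟩ := body_polar h hKc hKv h0
  have hcl := Sb_closed (k := k) hKv h0 hD
  have hb := Sb_bdd (k := k) hKc hKv h0 hD hR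
  have hcomp : IsCompact (Sb K D) := Metric.isCompact_of_isClosed_isBounded hcl hb
  have hDm := hD.closed.measurableSet
  have hDi : Measurable (D.indicator (1 : (Fin M → ℝ) → ℝ≥0∞)) := measurable_one.indicator hDm
  have hk0 : ∀ β, (0 : ℝ) < k β := fun β => by exact_mod_cast hk β
  have hvol : volume (Sb K D) = cK * ∫⁻ ρ, D.indicator 1 ρ ∂(rm k) := by
    have h1 := H D hDm (fun _ => 1) measurable_const
    rw [setLIntegral_const, one_mul] at h1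
    rw [h1]
    simp only [lintegral_const, measure_univ, mul_one]
  have h2 : ∫⁻ x in Sb K D, ENNReal.ofReal (⟪x, η⟫_ℝ ^ 2) =
      volume (Sb K D) * ENNReal.ofReal (‖η‖ ^ 2) := by
    rw [H D hDm (fun x => ENNReal.ofReal (⟪x, η⟫_ℝ ^ 2)) (by fun_prop)]
    simp only [lin_sq h hk hK, Finset.mul_sum]
    have hm : ∀ β ∈ (Finset.univ : Finset (Fin M)), Measurable fun ρ : Fin M → ℝ =>
        D.indicator (1 : (Fin M → ℝ) → ℝ≥0∞) ρ * (ENNReal.ofReal (ρ β ^ 2) *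
          ENNReal.ofReal ((k β + 2) / k β * ‖bl β η‖ ^ 2)) := fun β _ => hDi.mul (by fun_prop)
    rw [lintegral_finsetSum _ hm]
    have h3 : ∀ β, ∫⁻ ρ, D.indicator (1 : (Fin M → ℝ) → ℝ≥0∞) ρ * (ENNReal.ofReal (ρ β ^ 2) *
          ENNReal.ofReal ((k β + 2) / k β * ‖bl β η‖ ^ 2)) ∂(rm k) =
        ENNReal.ofReal (‖bl β η‖ ^ 2) * ∫⁻ ρ, D.indicator 1 ρ ∂(rm k) := by
      intro β
      have hm' : Measurable fun ρ : Fin M → ℝ =>
          D.indicator (1 : (Fin M → ℝ) → ℝ≥0∞) ρ * ENNReal.ofReal (ρ β ^ 2) :=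
        hDi.mul (by fun_prop)
      simp only [← mul_assoc]
      rw [lintegral_mul_const _ hm', hnorm, mul_right_comm, ← ENNReal.ofReal_mul (by
        have := hk0 β; positivity)]
      congr 2
      have := hk0 β
      field_simp
    simp only [h3]
    rw [← Finset.sum_mul, ← ENNReal.ofReal_sum_of_nonneg fun β _ => sq_nonneg _, ← norm_bl, hvol]
    ring
  rw [integral_eq_lintegral_of_nonneg_ae (Eventually.of_forall fun x => sq_nonneg _)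
    (by fun_prop), h2, ENNReal.toReal_mul, ENNReal.toReal_ofReal (sq_nonneg _)]
  rfl

end

end Pool.Agent.V5helper78.KU
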