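import Mathlib

/-!
# The Efron-Stein inequality and comparison of integrals over product spaces

The first part is adapted from the module `H4R2.AE.Conc` of the starting files.
-/

set_option autoImplicit false
set_option linter.unusedSectionVars false

namespace Pool.Agent.V5helper78.KU

open MeasureTheory Set
open scoped ENNReal BigOperators

section

variable {ι : Type} [Fintype ι] [DecidableEq ι] {Ω : Type} [MeasurableSpace Ω]
  (μ : Measure Ω) [IsProbabilityMeasure μ]

/-- the product measure -/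
noncomputable abbrev PP (ι : Type) [Fintype ι] {Ω : Type} [MeasurableSpace Ω] (μ : Measure Ω) :
    Measure (ι → Ω) :=
  Measure.pi fun _ : ι => μ

/-- the product measure of pairs -/
noncomputable abbrev QQ (ι : Type) [Fintype ι] {Ω : Type} [MeasurableSpace Ω] (μ : Measure Ω) :
    Measure (ι → Ω × Ω) :=
  Measure.pi fun _ : ι => μ.prod μ

/-- select the second sample on `S`, the first one elsewhere -/
def sel (S : Finset ι) (θ : ι → Ω × Ω) : ι → Ω := fun i => if i ∈ S then (θ i).2 else (θ i).1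

/-- swap the two samples on `S` -/
def sw (S : Finset ι) (θ : ι → Ω × Ω) : ι → Ω × Ω := fun i => if i ∈ S then (θ i).swap else θ i

theorem mp_sel (S : Finset ι) : MeasurePreserving (sel S) (QQ ι μ) (PP ι μ) := by
  have := measurePreserving_pi (fun _ : ι => μ.prod μ) (fun _ : ι => μ)
    (f := fun i => if i ∈ S then Prod.snd else Prod.fst) (fun i => by
      split_ifs
      · exact measurePreserving_snd
      · exact measurePreserving_fst)
  convert this using 1
  funext θ i
  unfold sel
  split_ifs <;> rfl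

theorem mp_sw (S : Finset ι) : MeasurePreserving (sw S) (QQ ι μ) (QQ ι μ) := by
  have := measurePreserving_pi (fun _ : ι => μ.prod μ) (fun _ : ι => μ.prod μ)
    (f := fun i => if i ∈ S then Prod.swap else id) (fun i => by
      split_ifs
      · exact Measure.measurePreserving_swap
      · exact MeasurePreserving.id _)
  convert this using 1
  funext θ i
  unfold sw
  split_ifs <;> rfl

theorem int_mp {α β : Type*} [MeasurableSpace α] [MeasurableSpace β] {a : Measure α}
    {b : Measure β} {f : α → β} (hf : MeasurePreserving f a b) {g : β → ℝ} (hg : Measurable g) :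
    ∫ x, g (f x) ∂a = ∫ y, g y ∂b := by
  rw [← hf.map_eq]
  exact (integral_map hf.measurable.aemeasurable hg.aestronglyMeasurable).symm

theorem int_bd {α : Type*} [MeasurableSpace α] {a : Measure α} [IsFiniteMeasure a] {g : α → ℝ}
    (hg : Measurable g) {C : ℝ} (hC : ∀ x, |g x| ≤ C) : Integrable g a :=
  Integrable.of_bound hg.aestronglyMeasurable C (Filter.Eventually.of_forall hC)

theorem indep (f g : (ι → Ω) → ℝ) (hf : Measurable f) (hg : Measurable g) :
    ∫ θ, f (sel ∅ θ) * g (sel Finset.univ θ) ∂(QQ ι μ) =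
      (∫ ω, f ω ∂(PP ι μ)) * ∫ ω, g ω ∂(PP ι μ) := by
  rw [← integral_prod_mul]
  rw [← int_mp (measurePreserving_arrowProdEquivProdArrow Ω Ω ι (fun _ => μ) (fun _ => μ))
    (g := fun z : (ι → Ω) × (ι → Ω) => f z.1 * g z.2) (by fun_prop)]
  have e1 : ∀ θ : ι → Ω × Ω, sel ∅ θ = fun i => (θ i).1 := fun θ => by funext i; simp [sel]
  have e2 : ∀ θ : ι → Ω × Ω, sel Finset.univ θ = fun i => (θ i).2 := fun θ => by
    funext i; simp [sel]
  simp only [e1, e2]
  rfl

theorem sel_empty_sw (S : Finset ι) (θ : ι → Ω × Ω) : sel ∅ (sw S θ) = sel S θ := by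
  funext i
  by_cases h : i ∈ S <;> simp [sel, sw, h]

theorem sel_single_sw {S : Finset ι} {j : ι} (hj : j ∉ S) (θ : ι → Ω × Ω) :
    sel {j} (sw S θ) = sel (insert j S) θ := by
  funext i
  by_cases hi : i = j
  · subst hi; simp [sel, sw, hj]
  · by_cases h : i ∈ S <;> simp [sel, sw, h, hi]

theorem sel_sw_single {S : Finset ι} {j : ι} (hj : j ∉ S) (θ : ι → Ω × Ω) :
    sel S (sw {j} θ) = sel (insert j S) θ := by
  funext i
  by_cases hi : i = j
  · subst hi; simp [sel, sw, hj]
  · by_cases h : i ∈ S <;> simp [sel, sw, h, hi]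

theorem sel_insert_sw_single {S : Finset ι} {j : ι} (hj : j ∉ S) (θ : ι → Ω × Ω) :
    sel (insert j S) (sw {j} θ) = sel S θ := by
  funext i
  by_cases hi : i = j
  · subst hi; simp [sel, sw, hj]
  · by_cases h : i ∈ S <;> simp [sel, sw, h, hi]

theorem meas_sel (S : Finset ι) : Measurable (sel (ι := ι) (Ω := Ω) S) := by
  apply measurable_pi_lambda
  intro i
  unfold sel
  split_ifs
  · exact (measurable_pi_apply i).snd
  · exact (measurable_pi_apply i).fst

theorem meas_sw (S : Finset ι) : Measurable (sw (ι := ι) (Ω := Ω) S) := by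
  apply measurable_pi_lambda
  intro i
  unfold sw
  split_ifs
  · exact measurable_swap.comp (measurable_pi_apply i)
  · exact measurable_pi_apply i

variable {μ}

/-- the two-sample influence -/
noncomputable def Inf2 (μ : Measure Ω) (G : (ι → Ω) → ℝ) (j : ι) : ℝ :=
  ∫ θ, (G (sel ∅ θ) - G (sel {j} θ)) ^ 2 ∂(QQ ι μ)

/-- Efron-Stein inequality -/
theorem efron (G : (ι → Ω) → ℝ) (hG : Measurable G) (B : ℝ) (hB : ∀ ω, |G ω| ≤ B) :
    ∫ ω, G ω ^ 2 ∂(PP ι μ) - (∫ ω, G ω ∂(PP ι μ)) ^ 2 ≤ (1 / 2) * ∑ j, Inf2 μ G j := by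
  have hB0 : ∀ ω : ι → Ω, 0 ≤ B := fun ω => (abs_nonneg _).trans (hB ω)
  have gm : ∀ S : Finset ι, Measurable fun θ => G (sel S θ) := fun S => hG.comp (meas_sel S)
  have bd2 : ∀ S T : Finset ι, ∀ θ : ι → Ω × Ω, |G (sel S θ) * G (sel T θ)| ≤ B * B := by
    intro S T θ
    rw [abs_mul]
    exact mul_le_mul (hB _) (hB _) (abs_nonneg _) (hB0 (sel S θ))
  have ig : ∀ S T : Finset ι, Integrable (fun θ => G (sel S θ) * G (sel T θ)) (QQ ι μ) :=
    fun S T => int_bd ((gm S).mul (gm T)) (bd2 S T)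
  have main : ∀ S : Finset ι, ∫ θ, (G (sel ∅ θ) * G (sel ∅ θ) - G (sel ∅ θ) * G (sel S θ))
      ∂(QQ ι μ) ≤ (1 / 2) * ∑ j ∈ S, Inf2 μ G j := by
    intro S
    induction S using Finset.induction_on with
    | empty => simp
    | insert j S hj ih =>
      rw [Finset.sum_insert hj, mul_add]
      have iS : Integrable (fun θ => G (sel ∅ θ) * G (sel ∅ θ) - G (sel ∅ θ) * G (sel S θ))
          (QQ ι μ) := (ig _ _).sub (ig _ _)
      have i1 : Integrable (fun θ => G (sel ∅ θ) * (G (sel S θ) - G (sel (insert j S) θ)))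
          (QQ ι μ) := by
        refine ((ig ∅ S).sub (ig ∅ (insert j S))).congr ?_
        exact Filter.Eventually.of_forall fun θ => by simp only [Pi.sub_apply]; ring
      have e1 : ∫ θ, (G (sel ∅ θ) * G (sel ∅ θ) - G (sel ∅ θ) * G (sel (insert j S) θ)) ∂(QQ ι μ)
          = ∫ θ, (G (sel ∅ θ) * G (sel ∅ θ) - G (sel ∅ θ) * G (sel S θ)) ∂(QQ ι μ) +
            ∫ θ, G (sel ∅ θ) * (G (sel S θ) - G (sel (insert j S) θ)) ∂(QQ ι μ) := by
        rw [← integral_add iS i1]
        apply integral_congr_ae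
        exact Filter.Eventually.of_forall fun θ => by ring
      -- the swapped integral
      have e2 : ∫ θ, G (sel ∅ θ) * (G (sel S θ) - G (sel (insert j S) θ)) ∂(QQ ι μ) =
          ∫ θ, G (sel {j} θ) * (G (sel (insert j S) θ) - G (sel S θ)) ∂(QQ ι μ) := by
        rw [← int_mp (mp_sw μ {j})
          (g := fun θ => G (sel ∅ θ) * (G (sel S θ) - G (sel (insert j S) θ)))
          ((gm ∅).mul ((gm S).sub (gm (insert j S))))]
        apply integral_congr_ae
        refine Filter.Eventually.of_forall fun θ => ?_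
        simp only [sel_empty_sw, sel_sw_single hj, sel_insert_sw_single hj]
      have i2 : Integrable (fun θ => G (sel {j} θ) * (G (sel (insert j S) θ) - G (sel S θ)))
          (QQ ι μ) := by
        refine ((ig {j} (insert j S)).sub (ig {j} S)).congr ?_
        exact Filter.Eventually.of_forall fun θ => by simp only [Pi.sub_apply]; ring
      have sqi : ∀ A C : Finset ι, Integrable (fun θ => (G (sel A θ) - G (sel C θ)) ^ 2)
          (QQ ι μ) := by
        intro A C
        refine (((ig A A).sub ((ig A C).const_mul 2)).add (ig C C)).congr ?_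
        exact Filter.Eventually.of_forall fun θ => by
          simp only [Pi.sub_apply, Pi.add_apply]; ring
      have e3 : ∫ θ, (G (sel S θ) - G (sel (insert j S) θ)) ^ 2 ∂(QQ ι μ) = Inf2 μ G j := by
        unfold Inf2
        rw [← int_mp (mp_sw μ S) (g := fun θ => (G (sel ∅ θ) - G (sel {j} θ)) ^ 2)
          (((gm ∅).sub (gm {j})).pow_const 2)]
        apply integral_congr_ae
        refine Filter.Eventually.of_forall fun θ => ?_
        simp only [sel_empty_sw, sel_single_sw hj]
      have e4 : 2 * ∫ θ, G (sel ∅ θ) * (G (sel S θ) - G (sel (insert j S) θ)) ∂(QQ ι μ) ≤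
          (1 / 2) * Inf2 μ G j + (1 / 2) * Inf2 μ G j := by
        calc 2 * ∫ θ, G (sel ∅ θ) * (G (sel S θ) - G (sel (insert j S) θ)) ∂(QQ ι μ)
            = ∫ θ, G (sel ∅ θ) * (G (sel S θ) - G (sel (insert j S) θ)) ∂(QQ ι μ) +
              ∫ θ, G (sel {j} θ) * (G (sel (insert j S) θ) - G (sel S θ)) ∂(QQ ι μ) := by
                rw [← e2]; ring
          _ = ∫ θ, (G (sel ∅ θ) * (G (sel S θ) - G (sel (insert j S) θ)) +
              G (sel {j} θ) * (G (sel (insert j S) θ) - G (sel S θ))) ∂(QQ ι μ) :=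
                (integral_add i1 i2).symm
          _ ≤ ∫ θ, ((1 / 2) * (G (sel ∅ θ) - G (sel {j} θ)) ^ 2 +
              (1 / 2) * (G (sel S θ) - G (sel (insert j S) θ)) ^ 2) ∂(QQ ι μ) := by
                apply integral_mono (i1.add i2) (((sqi _ _).const_mul _).add
                  ((sqi _ _).const_mul _))
                intro θ
                simp only [Pi.add_apply]
                nlinarith [sq_nonneg ((G (sel ∅ θ) - G (sel {j} θ)) -
                  (G (sel S θ) - G (sel (insert j S) θ)))]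
          _ = (1 / 2) * Inf2 μ G j + (1 / 2) * Inf2 μ G j := by
                rw [integral_add ((sqi _ _).const_mul _) ((sqi _ _).const_mul _),
                  integral_const_mul, integral_const_mul, e3]
                rfl
      rw [e1]
      linarith
  have h1 := main Finset.univ
  have h2 : ∫ θ, (G (sel ∅ θ) * G (sel ∅ θ) - G (sel ∅ θ) * G (sel Finset.univ θ)) ∂(QQ ι μ) =
      ∫ ω, G ω ^ 2 ∂(PP ι μ) - (∫ ω, G ω ∂(PP ι μ)) ^ 2 := by
    rw [integral_sub (ig _ _) (ig _ _), indep μ G G hG hG, sq (∫ ω, G ω ∂(PP ι μ))]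
    congr 1
    rw [← int_mp (mp_sel μ ∅) (g := fun ω => G ω ^ 2) (hG.pow_const 2)]
    apply integral_congr_ae
    exact Filter.Eventually.of_forall fun θ => by ring
  rw [h2] at h1
  exact h1

/-- Efron-Stein inequality, second form -/
theorem efron_stein (G : (ι → Ω) → ℝ) (hG : Measurable G) (B : ℝ) (hB : ∀ ω, |G ω| ≤ B) :
    ∫⁻ ω, ENNReal.ofReal ((G ω - ∫ ω, G ω ∂(PP ι μ)) ^ 2) ∂(PP ι μ) ≤
      ENNReal.ofReal (1 / 2) * ∑ j, ∫⁻ ω, ∫⁻ a,
        ENNReal.ofReal ((G ω - G (Function.update ω j a)) ^ 2) ∂μ ∂(PP ι μ) := by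
  have h := efron (μ := μ) G hG B hB
  have hi : Integrable G (PP ι μ) := int_bd hG hB
  have hi2 : Integrable (fun ω => G ω ^ 2) (PP ι μ) := int_bd (hG.pow_const 2) (C := B ^ 2)
    fun ω => by rw [abs_pow]; exact pow_le_pow_left₀ (abs_nonneg _) (hB ω) 2
  set m := ∫ ω, G ω ∂(PP ι μ) with hm
  have e1 : (fun ω => (G ω - m) ^ 2) = fun ω => (G ω ^ 2 - 2 * m * G ω) + m ^ 2 := by
    funext ω; ring
  have j1 : Integrable (fun ω => G ω ^ 2 - 2 * m * G ω) (PP ι μ) := hi2.sub (hi.const_mul _)
  have j2 : Integrable (fun ω => (G ω - m) ^ 2) (PP ι μ) := by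
    rw [e1]
    exact j1.add (integrable_const _)
  have h1 : ∫ ω, (G ω - m) ^ 2 ∂(PP ι μ) = ∫ ω, G ω ^ 2 ∂(PP ι μ) - m ^ 2 := by
    rw [e1, integral_add j1 (integrable_const _), integral_sub hi2 (hi.const_mul _),
      integral_const_mul, ← hm]
    simp
    ring
  rw [← ofReal_integral_eq_lintegral_ofReal j2 (Filter.Eventually.of_forall fun ω => sq_nonneg _),
    h1]
  refine (ENNReal.ofReal_le_ofReal h).trans ?_
  rw [ENNReal.ofReal_mul (by norm_num), ENNReal.ofReal_sum_of_nonneg fun j _ => by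
    unfold Inf2
    exact integral_nonneg fun θ => sq_nonneg _]
  refine mul_le_mul_right (Finset.sum_le_sum fun j _ => le_of_eq ?_) _
  have gm : ∀ S : Finset ι, Measurable fun θ => G (sel S θ) := fun S => hG.comp (meas_sel S)
  have hsq : Integrable (fun θ => (G (sel ∅ θ) - G (sel {j} θ)) ^ 2) (QQ ι μ) := by
    refine int_bd (((gm ∅).sub (gm {j})).pow_const 2) (C := (2 * B) ^ 2) fun θ => ?_
    rw [abs_pow]
    refine pow_le_pow_left₀ (abs_nonneg _) ?_ 2
    refine (abs_sub _ _).trans ?_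
    have h1 := hB (sel ∅ θ)
    have h2 := hB (sel {j} θ)
    linarith
  unfold Inf2
  rw [ofReal_integral_eq_lintegral_ofReal hsq (Filter.Eventually.of_forall fun θ => sq_nonneg _)]
  have hup : Measurable fun z : (ι → Ω) × Ω => Function.update z.1 j z.2 := by
    refine measurable_pi_lambda _ fun i => ?_
    by_cases hi : i = j
    · subst hi
      simp only [Function.update_self]
      exact measurable_snd
    · simp only [Function.update_of_ne hi]
      exact (measurable_pi_apply i).comp measurable_fst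
  have hgm : Measurable fun z : (ι → Ω) × Ω =>
      ENNReal.ofReal ((G z.1 - G (Function.update z.1 j z.2)) ^ 2) :=
    ((hG.comp measurable_fst).sub (hG.comp hup)).pow_const 2 |>.ennreal_ofReal
  have e2 : ∀ θ : ι → Ω × Ω, ENNReal.ofReal ((G (sel ∅ θ) - G (sel {j} θ)) ^ 2) =
      (fun z : (ι → Ω) × (ι → Ω) =>
        ENNReal.ofReal ((G z.1 - G (Function.update z.1 j (z.2 j))) ^ 2))
        (MeasurableEquiv.arrowProdEquivProdArrow Ω Ω ι θ) := by
    intro θ
    have e3 : sel ∅ θ = (MeasurableEquiv.arrowProdEquivProdArrow Ω Ω ι θ).1 := by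
      funext i
      simp [sel]
      rfl
    have e4 : sel {j} θ = Function.update (MeasurableEquiv.arrowProdEquivProdArrow Ω Ω ι θ).1 j
        ((MeasurableEquiv.arrowProdEquivProdArrow Ω Ω ι θ).2 j) := by
      funext i
      by_cases hi : i = j
      · subst hi; simp [sel]; rfl
      · simp [sel, hi]; rfl
    simp only
    rw [e3, e4]
  rw [lintegral_congr e2]
  have hmp := measurePreserving_arrowProdEquivProdArrow Ω Ω ι (fun _ => μ) (fun _ => μ)
  have hgm2 : Measurable (fun z : (ι → Ω) × (ι → Ω) =>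
      ENNReal.ofReal ((G z.1 - G (Function.update z.1 j (z.2 j))) ^ 2)) := by
    have : Measurable fun z : (ι → Ω) × (ι → Ω) => ((z.1, z.2 j) : (ι → Ω) × Ω) := by fun_prop
    exact hgm.comp this
  have e5 : ∫⁻ θ : ι → Ω × Ω, (fun z : (ι → Ω) × (ι → Ω) =>
      ENNReal.ofReal ((G z.1 - G (Function.update z.1 j (z.2 j))) ^ 2))
        (MeasurableEquiv.arrowProdEquivProdArrow Ω Ω ι θ) ∂(QQ ι μ) =
      ∫⁻ z, ENNReal.ofReal ((G z.1 - G (Function.update z.1 j (z.2 j))) ^ 2)
        ∂((PP ι μ).prod (PP ι μ)) := hmp.lintegral_comp hgm2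
  rw [e5, lintegral_prod _ hgm2.aemeasurable]
  refine lintegral_congr fun ω => ?_
  have hev := measurePreserving_eval (fun _ : ι => μ) j
  have := hev.lintegral_comp (f := fun a => ENNReal.ofReal ((G ω - G (Function.update ω j a)) ^ 2))
    (hgm.comp measurable_prodMk_left)
  exact this

/-- comparison of integrals over products, one coordinate at a time -/
theorem pi_cmp {X : ι → Type} [∀ i, MeasurableSpace (X i)] (ν : ∀ i, Measure (X i))
    [∀ i, SigmaFinite (ν i)] {f g : (∀ i, X i) → ℝ≥0∞} (hf : Measurable f) (hg : Measurable g)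
    (j : ι) (h : ∀ x, ∫⁻ a, f (Function.update x j a) ∂(ν j) ≤
      ∫⁻ a, g (Function.update x j a) ∂(ν j)) :
    ∫⁻ x, f x ∂(Measure.pi ν) ≤ ∫⁻ x, g x ∂(Measure.pi ν) := by
  rcases isEmpty_or_nonempty (∀ i, X i) with he | ⟨⟨x0⟩⟩
  · have h0 : ∀ F : (∀ i, X i) → ℝ≥0∞, ∫⁻ x, F x ∂(Measure.pi ν) = 0 := fun F => by
      rw [Measure.eq_zero_of_isEmpty (Measure.pi ν), lintegral_zero_measure]
    rw [h0, h0]
  · rw [lintegral_eq_lmarginal_univ x0, lintegral_eq_lmarginal_univ x0,
      lmarginal_erase' f hf (Finset.mem_univ j), lmarginal_erase' g hg (Finset.mem_univ j)]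
    refine lmarginal_mono (fun x => ?_) x0
    exact h x

end

end Pool.Agent.V5helper78.KU
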