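import Pool.Agent.V5helper78.KU.Ccu
import Pool.Agent.V5helper78.KO.Pbi

/-!
# Unconditional sums of convex bodies
-/

set_option autoImplicit false
set_option linter.unusedSectionVars false

namespace Pool.Agent.V5helper78.KU

open MeasureTheory Set Filter Topology Metric
open scoped ENNReal InnerProductSpace
open Pool.Agent.V5helper78.KO
open Pool.Agent.R754.KG (E un)
open Pool.Agent.R755.KF (PI)
open Pool.Agent.Y506.PV (CcW ind)
open Pool.Agent.Y506.RG (Star Adm)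
open Pool.Agent.R755.KS (km_profile)
open Pool.Agent.N483.KM

theorem gauge_img {k : ℕ} (e : Ek k ≃ₗ[ℝ] Ek k) (K : Set (Ek k)) (z : Ek k) :
    gauge (e '' K) (e z) = gauge K z := by
  unfold gauge
  congr 1
  ext r
  simp only [mem_ofPred_eq]
  refine and_congr_right fun hr => ?_
  constructor
  · rintro ⟨y, ⟨x, hx, rfl⟩, hy⟩
    refine ⟨x, hx, ?_⟩
    apply e.injective
    simp only at hy ⊢
    rw [← hy, map_smul]
  · rintro ⟨x, hx, hy⟩
    refine ⟨e x, ⟨x, hx, rfl⟩, ?_⟩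
    simp only at hy ⊢
    rw [← hy, map_smul]

/-- linear changes of variables -/
theorem lin_two {M m : ℕ} {k : Fin M → ℕ} (B : E m ≃L[ℝ] Xk k) (J : Xk k ≃ₗᵢ[ℝ] Ek m) :
    ∃ c : ℝ≥0∞, c ≠ 0 ∧ c ≠ ⊤ ∧ ∀ W : Set (Xk k), MeasurableSet W → ∀ F : Xk k → ℝ≥0∞,
      Measurable F → ∫⁻ x in B ⁻¹' W, F (B x) = c * ∫⁻ x in W, F x := by
  obtain ⟨c, h0, h1, H⟩ := lin_chg (B.trans J.toContinuousLinearEquiv)
  have hJm : MeasurableEmbedding J := J.toHomeomorph.measurableEmbedding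
  have hmp : MeasurePreserving J volume volume := J.measurePreserving
  refine ⟨c, h0, h1, fun W hW F hF => ?_⟩
  have hJs : Measurable J.symm := J.symm.continuous.measurable
  have h2 := H (J '' W) (hJm.measurableSet_image.2 hW) (fun z => F (J.symm z)) (hF.comp hJs)
  have h3 : (B.trans J.toContinuousLinearEquiv) ⁻¹' (J '' W) = B ⁻¹' W := by
    ext x
    change J (B x) ∈ J '' W ↔ B x ∈ W
    exact J.injective.mem_set_image
  have h4 : ∀ x, J.symm ((B.trans J.toContinuousLinearEquiv) x) = B x := fun x =>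
    J.symm_apply_apply (B x)
  have h5 : ∫⁻ z in J '' W, F (J.symm z) = ∫⁻ x in W, F x := by
    rw [← hmp.setLIntegral_comp_emb hJm]
    simp only [LinearIsometryEquiv.symm_apply_apply]
  rw [h3, h5] at h2
  simp only [h4] at h2
  exact h2

/-- root mean square -/
noncomputable def rq {m : ℕ} (S : Set (E m)) (u : E m → ℝ) : ℝ :=
  Real.sqrt ((volume.real S)⁻¹ * ∫ x in S, u x ^ 2)

/-- the bodies -/
structure Ru (c₀ T A : ℝ) {m : ℕ} (S : Set (E m)) : Prop where
  int : (interior S).Nonempty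
  rep : ∃ (M : ℕ) (k : Fin M → ℕ) (L : E m ≃ₗ[ℝ] (∀ β, E (k β))) (K : ∀ β, Set (E (k β)))
    (D : Set (Fin M → ℝ)) (G : Finset (Fin M)), (∀ β, 1 ≤ k β) ∧
    ∑ β ∈ G, Real.exp (-(T * k β)) ≤ 1 ∧
    (∀ β, PI c₀ (K β)) ∧ (∀ β (η : E (k β)), ∫ x in K β, ⟪x, η⟫_ℝ = 0) ∧ Un D ∧
    Bornology.IsBounded D ∧ S = {x | (fun β => gauge (K β) (L x β)) ∈ D} ∧
    ∀ t : ℝ, 1 ≤ t → volume {x | x ∈ S ∧ ∃ β, β ∉ G ∧
      A * t * rq S (fun x => gauge (K β) (L x β)) < gauge (K β) (L x β)} ≤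
        ENNReal.ofReal (Real.exp (-t)) * volume S

theorem ru_cc (c₀ T A δ : ℝ) (hδ : 0 < δ) : ∃ κ : ℝ, 0 < κ ∧ ∀ (m : ℕ) (S : Set (E m)),
    Ru c₀ T A S → IsCompact S ∧ Convex ℝ S ∧ (interior S).Nonempty ∧ CcW κ δ (ind S) := by
  set c₁ : ℝ := max c₀ 0 with hc₁
  set T₁ : ℝ := max T 0 with hT₁
  set A₁ : ℝ := max A 0 with hA₁
  have hc10 : 0 ≤ c₁ := le_max_right _ _
  have hT10 : 0 ≤ T₁ := le_max_right _ _
  have hA10 : 0 ≤ A₁ := le_max_right _ _
  have hcc := cc_pos hc10 hT10 hA10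
  refine ⟨Real.sqrt (δ / cc c₁ T₁ A₁), Real.sqrt_pos.2 (by positivity), fun m S hS => ?_⟩
  obtain ⟨M, k, L, K, D, G, hk, hT, hPI, hmean, hD, hDb, hSe, hmax⟩ := hS.rep
  -- isotropic position
  choose e he using fun β => exists_iso (hPI β) (hmean β)
  obtain ⟨K', hK'⟩ : ∃ K' : ∀ β, Set (Ek (k β)), K' = fun β => e β '' K β := ⟨_, rfl⟩
  have hK : ∀ β, Iso c₁ (K' β) := fun β => by
    rw [hK']
    refine ⟨(he β).comp, (he β).conv, (he β).zero, (he β).mean, (he β).cov, fun f hf => ?_⟩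
    obtain ⟨c, hc⟩ := (he β).poi f hf
    refine ⟨c, hc.trans (mul_le_mul_of_nonneg_right (le_max_left _ _) ?_)⟩
    exact integral_nonneg fun x => sq_nonneg _
  have hTs : ∑ β ∈ G, Real.exp (-(T₁ * k β)) ≤ 1 := by
    refine (Finset.sum_le_sum fun β _ => ?_).trans hT
    refine Real.exp_le_exp.2 (neg_le_neg (mul_le_mul_of_nonneg_right (le_max_left _ _)
      (Nat.cast_nonneg _)))
  have hKc : ∀ β, IsCompact (K' β) := fun β => (hK β).comp
  have hKv : ∀ β, Convex ℝ (K' β) := fun β => (hK β).conv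
  have h0 : ∀ β, (0 : Ek (k β)) ∈ interior (K' β) := fun β => (hK β).zero
  obtain ⟨Ω, _, P, θ, hP, h⟩ := exists_common (k := k) hk hKc hKv h0
  obtain ⟨R, hR⟩ : ∃ R : ℝ, ∀ ρ ∈ D, ∀ β, ρ β ≤ R := by
    obtain ⟨R, hR⟩ := hDb.exists_norm_le
    refine ⟨R, fun ρ hρ β => ?_⟩
    exact (le_abs_self _).trans ((norm_le_pi_norm ρ β).trans (hR ρ hρ))
  -- the linear map onto the sum
  let B : E m ≃L[ℝ] Xk k :=
    ((L.trans (LinearEquiv.piCongrRight e)).toContinuousLinearEquiv).trans (asm k)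
  have hBβ : ∀ x β, nn K' (B x) β = gauge (K β) (L x β) := by
    intro x β
    change gauge (K' β) (e β (L x β)) = _
    rw [hK']
    exact gauge_img (e β) (K β) (L x β)
  have hB : ∀ x, nn K' (B x) = fun β => gauge (K β) (L x β) := fun x => funext (hBβ x)
  have hSB : S = B ⁻¹' (Sb K' D) := by
    rw [hSe]
    ext x
    change (fun β => gauge (K β) (L x β)) ∈ D ↔ nn K' (B x) ∈ D
    rw [hB]
  have hcl := Sb_closed (k := k) hKv h0 hD
  have hcv := Sb_conv (k := k) hKv h0 hD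
  have hb := Sb_bdd (k := k) hKc hKv h0 hD hR
  have hScomp : IsCompact S := by
    have h1 : IsCompact (Sb K' D) := Metric.isCompact_of_isClosed_isBounded hcl hb
    rw [hSB]
    exact B.toHomeomorph.isCompact_preimage.2 h1
  have hSconv : Convex ℝ S := by
    rw [hSB]
    exact hcv.linear_preimage B.toLinearEquiv.toLinearMap
  refine ⟨hScomp, hSconv, hS.int, ?_⟩
  have hv : volume (Sb K' D) ≠ 0 := by
    have h1 : (interior (Sb K' D)).Nonempty := by
      obtain ⟨x, hx⟩ := hS.int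
      rw [hSB] at hx
      have h2 := B.toHomeomorph.preimage_interior (Sb K' D)
      have h3 : x ∈ B.toHomeomorph ⁻¹' interior (Sb K' D) := by
        rw [h2]
        exact hx
      exact ⟨B x, h3⟩
    exact ((isOpen_interior.measure_pos volume h1).trans_le (measure_mono interior_subset)).ne'
  -- the isometry with `ℝ^m`
  have hcard : Fintype.card (Σ β : Fin M, Fin (k β)) = m := by
    have h1 : Module.finrank ℝ (E m) = Module.finrank ℝ (Xk k) := B.toLinearEquiv.finrank_eq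
    rw [finrank_euclideanSpace, finrank_euclideanSpace, Fintype.card_fin] at h1
    exact h1.symm
  let J : Xk k ≃ₗᵢ[ℝ] Ek m :=
    LinearIsometryEquiv.piLpCongrLeft 2 ℝ ℝ (Fintype.equivFinOfCardEq hcard)
  -- the tail of the maximum
  obtain ⟨c, hcz, hct, HB⟩ := lin_two B J
  have hnc := nn_cont (k := k) hKv h0
  have hnm : ∀ β, Measurable fun x : Xk k => nn K' x β := fun β =>
    (measurable_pi_apply β).comp hnc.measurable
  have hcr : 0 < c.toReal := ENNReal.toReal_pos hcz hct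
  have hvolB : ∀ W : Set (Xk k), MeasurableSet W → volume (B ⁻¹' W) = c * volume W := by
    intro W hW
    have h1 := HB W hW (fun _ => 1) measurable_const
    rw [setLIntegral_const, setLIntegral_const, one_mul, one_mul] at h1
    exact h1
  have hrq : ∀ β, rq S (fun x => gauge (K β) (L x β)) =
      Real.sqrt ((volume.real (Sb K' D))⁻¹ * ∫ x in Sb K' D, nn K' x β ^ 2) := by
    intro β
    unfold rq
    congr 1
    have h1 : volume.real S = c.toReal * volume.real (Sb K' D) := by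
      rw [hSB, measureReal_def, hvolB _ hcl.measurableSet, ENNReal.toReal_mul]
      rfl
    have h2 := HB (Sb K' D) hcl.measurableSet (fun x => ENNReal.ofReal (nn K' x β ^ 2))
      ((hnm β).pow_const 2).ennreal_ofReal
    have h3 : ∫ x in S, gauge (K β) (L x β) ^ 2 =
        (∫⁻ x in B ⁻¹' (Sb K' D), ENNReal.ofReal (nn K' (B x) β ^ 2)).toReal := by
      simp only [← hBβ]
      rw [hSB]
      exact integral_eq_lintegral_of_nonneg_ae (Eventually.of_forall fun x => sq_nonneg _)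
        (((hnm β).comp B.continuous.measurable).pow_const 2).aestronglyMeasurable
    have h4 : ∫ x in Sb K' D, nn K' x β ^ 2 =
        (∫⁻ x in Sb K' D, ENNReal.ofReal (nn K' x β ^ 2)).toReal :=
      integral_eq_lintegral_of_nonneg_ae (Eventually.of_forall fun x => sq_nonneg _)
        ((hnm β).pow_const 2).aestronglyMeasurable
    rw [h3, h2, ENNReal.toReal_mul, ← h4, h1, mul_inv, mul_mul_mul_comm,
      inv_mul_cancel₀ hcr.ne', one_mul]
  have hA : ∀ t : ℝ, 1 ≤ t → volume (Sb K' (D ∩ {ρ | ∃ β, β ∉ G ∧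
      A₁ * t * Real.sqrt ((volume.real (Sb K' D))⁻¹ * ∫ x in Sb K' D, nn K' x β ^ 2) < ρ β})) ≤
        ENNReal.ofReal (Real.exp (-t)) * volume (Sb K' D) := by
    intro t ht
    have h1 := hmax t ht
    have hYm : MeasurableSet {ρ : Fin M → ℝ | ∃ β, β ∉ G ∧ A₁ * t *
        Real.sqrt ((volume.real (Sb K' D))⁻¹ * ∫ x in Sb K' D, nn K' x β ^ 2) < ρ β} := by
      have e1 : {ρ : Fin M → ℝ | ∃ β, β ∉ G ∧ A₁ * t *
          Real.sqrt ((volume.real (Sb K' D))⁻¹ * ∫ x in Sb K' D, nn K' x β ^ 2) < ρ β} =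
          ⋃ β, ⋃ (_ : β ∉ G), {ρ : Fin M → ℝ | A₁ * t *
          Real.sqrt ((volume.real (Sb K' D))⁻¹ * ∫ x in Sb K' D, nn K' x β ^ 2) < ρ β} := by
        ext ρ
        simp
      rw [e1]
      exact MeasurableSet.iUnion fun β => MeasurableSet.iUnion fun _ =>
        measurableSet_lt measurable_const (measurable_pi_apply β)
    have hm := hnc.measurable (hD.closed.measurableSet.inter hYm)
    have h2 := hvolB _ hm
    have h3 : B ⁻¹' (nn K' ⁻¹' (D ∩ {ρ : Fin M → ℝ | ∃ β, β ∉ G ∧ A₁ * t *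
        Real.sqrt ((volume.real (Sb K' D))⁻¹ * ∫ x in Sb K' D, nn K' x β ^ 2) < ρ β})) ⊆
        {x | x ∈ S ∧ ∃ β, β ∉ G ∧
          A * t * rq S (fun x => gauge (K β) (L x β)) < gauge (K β) (L x β)} := by
      rintro x ⟨hx, β, hβ, hlt⟩
      refine ⟨by rw [hSB]; exact hx, β, hβ, ?_⟩
      rw [hrq, ← hBβ]
      refine lt_of_le_of_lt ?_ hlt
      exact mul_le_mul_of_nonneg_right (mul_le_mul_of_nonneg_right (le_max_left _ _)
        (by linarith)) (Real.sqrt_nonneg _)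
    have h4 := (measure_mono (μ := volume) h3).trans h1
    have h5 : volume S = c * volume (Sb K' D) := by
      rw [hSB]
      exact hvolB _ hcl.measurableSet
    rw [h2, h5, mul_left_comm] at h4
    exact (ENNReal.mul_le_mul_iff_right hcz hct).1 h4
  obtain ⟨s, hs, R', hR', hv', hne, hnorm, hA'⟩ := normalize h hk hK hD hR hv hA
  obtain ⟨hC, hAd⟩ := cc_norm J h hk hc10 hK hT10 hTs (rs_un s hD) hR' hv' hne hnorm hA10 hA' hδ
  let A : E m ≃L[ℝ] E m :=
    (B.trans (dg s fun β => (hs β).ne').symm).trans J.toContinuousLinearEquiv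
  refine Pool.Agent.Y506.PV.cc_aff A 0 1 one_pos (ind S) (ind (J '' Sb K' (rs s D)))
    (fun x => ?_) hAd hC
  have hmem : A (x - 0) ∈ J '' Sb K' (rs s D) ↔ x ∈ S := by
    rw [sub_zero]
    have h1 : A x = J ((dg s fun β => (hs β).ne').symm (B x)) := rfl
    rw [h1, J.injective.mem_set_image, rs_pre s hs, hSB]
    change dg s (fun β => (hs β).ne') ((dg s fun β => (hs β).ne').symm (B x)) ∈ Sb K' D ↔
      B x ∈ Sb K' D
    rw [ContinuousLinearEquiv.apply_symm_apply]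
  rw [one_mul]
  unfold ind
  by_cases hx : x ∈ S
  · rw [indicator_of_mem hx, indicator_of_mem (hmem.2 hx)]
  · rw [indicator_of_notMem hx, indicator_of_notMem fun h => hx (hmem.1 h)]

theorem ru_star (c₀ T A : ℝ) (p : ℕ) : ∃ c : ℝ, 0 < c ∧ ∀ (m n : ℕ) (S : Set (E m))
    (f : E m →ₗ[ℝ] E n) (w : E n), Ru c₀ T A S → m ≤ n + p → Function.Surjective f →
    IsCompact ((fun x => w + f x) '' S) ∧ Convex ℝ ((fun x => w + f x) '' S) ∧
    (interior ((fun x => w + f x) '' S)).Nonempty ∧ Star c (ind ((fun x => w + f x) '' S)) := by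
  obtain ⟨A', -, H⟩ := km_profile (P := fun m S => Ru c₀ T A S) fun δ hδ => by
    obtain ⟨κ', hκ', H⟩ := ru_cc c₀ T A δ hδ
    exact ⟨κ', hκ', fun m S hS => H m S hS⟩
  obtain ⟨c, hc, Hc⟩ := cyR cclR A' 1 1 one_pos one_pos 0 p 1
  refine ⟨c, hc, fun m n S f w hS hm hf => ?_⟩
  obtain ⟨a1, a2, a3, a4⟩ := H m S hS
  exact Hc _ _ (.image _ _ _ _ f w hm hf (.base _ _ a1 a2 a3 a4))

end Pool.Agent.V5helper78.KU
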