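import Pool.Agent.V5helper78.KU.Tls
import Pool.Agent.TH594.KP.Multi

/-!
# From the local inequality to the whole body
-/

set_option autoImplicit false
set_option linter.unusedSectionVars false

namespace Pool.Agent.V5helper78.KU

open MeasureTheory Set Filter Topology Metric
open scoped ENNReal InnerProductSpace
open Pool.Agent.V5helper78.KO
open Pool.Agent.TH610.RB (cH)

/-- cutting off -/
theorem cut {E : Type} [NormedAddCommGroup E] [InnerProductSpace ℝ E] [FiniteDimensional ℝ E]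
    {h : E → ℝ} (hh : ContDiff ℝ 1 h) (R : ℝ) : ∃ g : E → ℝ, ContDiff ℝ 1 g ∧
    (∃ B : ℝ, ∀ x, |g x| ≤ B) ∧ (∃ L : ℝ, ∀ x, ‖fderiv ℝ g x‖ ≤ L) ∧
    ∀ x, ‖x‖ ≤ R → g x = h x ∧ fderiv ℝ g x = fderiv ℝ h x := by
  let χ : ContDiffBump (0 : E) := ⟨|R| + 1, |R| + 2, by positivity, by linarith⟩
  have hχ : ContDiff ℝ 1 fun x => χ x := χ.contDiff
  have hg : ContDiff ℝ 1 fun x => χ x * h x := hχ.mul hh
  have hs : HasCompactSupport fun x => χ x * h x := χ.hasCompactSupport.mul_right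
  refine ⟨fun x => χ x * h x, hg, ?_, ?_, fun x hx => ?_⟩
  · obtain ⟨B, hB⟩ := hg.continuous.bounded_above_of_compact_support hs
    exact ⟨B, fun x => by have := hB x; rwa [Real.norm_eq_abs] at this⟩
  · obtain ⟨L, hL⟩ := (hg.continuous_fderiv one_ne_zero).bounded_above_of_compact_support
      (hs.fderiv ℝ)
    exact ⟨L, hL⟩
  · have hmem : x ∈ ball (0 : E) χ.rIn := by
      rw [mem_ball_zero_iff]
      exact lt_of_le_of_lt (hx.trans (le_abs_self R)) (lt_add_one _)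
    have h1 := χ.eventuallyEq_one_of_mem_ball hmem
    have h2 : (fun x => χ x * h x) =ᶠ[𝓝 x] h := by
      filter_upwards [h1] with y hy
      rw [hy, Pi.one_apply, one_mul]
    exact ⟨h2.eq_of_nhds, h2.fderiv_eq⟩

section

variable {M : ℕ} {k : Fin M → ℕ} {K : ∀ β, Set (Ek (k β))} {Ω : Type} [MeasurableSpace Ω]
  {P : Measure Ω} {θ : ∀ β, Ω → Ek (k β)} [IsProbabilityMeasure P]

/-- the uniform probability measure -/
noncomputable def um {E : Type} [MeasureSpace E] (S : Set E) : Measure E :=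
  (volume S)⁻¹ • (volume : Measure E).restrict S

theorem um_prob {E : Type} [MeasureSpace E] {S : Set E} (h0 : volume S ≠ 0) (h1 : volume S ≠ ⊤) :
    IsProbabilityMeasure (um S) := by
  refine ⟨?_⟩
  unfold um
  rw [Measure.smul_apply, Measure.restrict_apply_univ, smul_eq_mul, ENNReal.inv_mul_cancel h0 h1]

/-- the inequality on the intersection with a box -/
theorem thmA' (h : ∀ β, Plr (k β) (K β) P (θ β)) (hk : ∀ β, 1 ≤ k β) {c₀ : ℝ} (hc₀ : 0 ≤ c₀)
    (hK : ∀ β, Iso c₀ (K β)) {a : ℝ} (ha : 0 < a) {D : Set (Fin M → ℝ)} (hD : Un D)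
    (hbox : ∀ ρ ∈ D, ∀ β, ρ β ≤ a * (Real.sqrt (k β) / Real.sqrt (k β + 2)))
    {f : Xk k → ℝ} (hf : ContDiff ℝ 1 f) :
    ∃ c : ℝ, ∫ x in Sb K D, (f x - c) ^ 2 ≤
      ((c₀ + 4 * cH) * a ^ 2) * ∫ x in Sb K D, ‖fderiv ℝ f x‖ ^ 2 := by
  have hcH := Pool.Agent.TH610.RB.cH_pos
  have hKc : ∀ β, IsCompact (K β) := fun β => (hK β).comp
  have hKv : ∀ β, Convex ℝ (K β) := fun β => (hK β).conv
  have h0 : ∀ β, (0 : Ek (k β)) ∈ interior (K β) := fun β => (hK β).zero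
  have hle : ∀ β : Fin M, Real.sqrt (k β) / Real.sqrt (k β + 2) ≤ 1 := fun β => by
    rw [div_le_one (sqk β)]
    exact Real.sqrt_le_sqrt (by linarith)
  have hb := Sb_bdd (k := k) hKc hKv h0 hD (a := a) fun ρ hρ β =>
    (hbox ρ hρ β).trans (mul_le_of_le_one_right ha.le (hle β))
  have hcl := Sb_closed (k := k) hKv h0 hD
  have hcomp : IsCompact (Sb K D) := Metric.isCompact_of_isClosed_isBounded hcl hb
  obtain ⟨R, hR⟩ := hb.exists_norm_le
  obtain ⟨g, hg, ⟨B, hB⟩, ⟨L, hL⟩, hgh⟩ := cut hf R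
  obtain ⟨c, hc⟩ := thmA h hk hc₀ hK ha hD hbox hg hB hL
  refine ⟨c, ?_⟩
  have hfd : Continuous (fderiv ℝ f) := hf.continuous_fderiv one_ne_zero
  have hfc := hf.continuous
  have i1 : IntegrableOn (fun x => (f x - c) ^ 2) (Sb K D) :=
    (by fun_prop : Continuous fun x => (f x - c) ^ 2).continuousOn.integrableOn_compact hcomp
  have i2 : IntegrableOn (fun x => ‖fderiv ℝ f x‖ ^ 2) (Sb K D) :=
    (by fun_prop : Continuous fun x => ‖fderiv ℝ f x‖ ^ 2).continuousOn.integrableOn_compact hcomp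
  have e1 : ∫⁻ x in Sb K D, ENNReal.ofReal ((g x - c) ^ 2) =
      ENNReal.ofReal (∫ x in Sb K D, (f x - c) ^ 2) := by
    rw [ofReal_integral_eq_lintegral_ofReal i1 (Eventually.of_forall fun x => sq_nonneg _)]
    refine setLIntegral_congr_fun hcl.measurableSet fun x hx => ?_
    rw [(hgh x (hR x hx)).1]
  have e2 : ∫⁻ x in Sb K D, ENNReal.ofReal (‖fderiv ℝ g x‖ ^ 2) =
      ENNReal.ofReal (∫ x in Sb K D, ‖fderiv ℝ f x‖ ^ 2) := by
    rw [ofReal_integral_eq_lintegral_ofReal i2 (Eventually.of_forall fun x => sq_nonneg _)]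
    refine setLIntegral_congr_fun hcl.measurableSet fun x hx => ?_
    rw [(hgh x (hR x hx)).2]
  rw [e1, e2, ← ENNReal.ofReal_mul (by positivity)] at hc
  exact (ENNReal.ofReal_le_ofReal_iff (mul_nonneg (by positivity)
    (integral_nonneg fun x => sq_nonneg _))).1 hc

/-- **variance of Lipschitz functions** -/
theorem thmB (h : ∀ β, Plr (k β) (K β) P (θ β)) (hk : ∀ β, 1 ≤ k β) {c₀ : ℝ} (hc₀ : 0 ≤ c₀)
    (hK : ∀ β, Iso c₀ (K β)) {T : ℝ} (hT0 : 0 ≤ T) {G : Finset (Fin M)}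
    (hT : ∑ β ∈ G, Real.exp (-(T * k β)) ≤ 1)
    {D : Set (Fin M → ℝ)} (hD : Un D) {R : ℝ} (hR : ∀ ρ ∈ D, ∀ β, ρ β ≤ R)
    (hne : ∫⁻ ρ, D.indicator 1 ρ ∂(rm k) ≠ 0)
    (hnorm : ∀ β, ∫⁻ ρ, D.indicator 1 ρ * ENNReal.ofReal (ρ β ^ 2) ∂(rm k) =
      ENNReal.ofReal (k β / (k β + 2)) * ∫⁻ ρ, D.indicator 1 ρ ∂(rm k)) {A : ℝ} (hA0 : 0 ≤ A)
    (hA : ∀ t : ℝ, 1 ≤ t → volume (Sb K (D ∩ {ρ | ∃ β, β ∉ G ∧
      A * t * (Real.sqrt (k β) / Real.sqrt (k β + 2)) < ρ β})) ≤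
        ENNReal.ofReal (Real.exp (-t)) * volume (Sb K D))
    (f : Xk k → ℝ) (hf : ContDiff ℝ 1 f) (hf1 : ∀ x, ‖fderiv ℝ f x‖ ≤ 1) :
    ∫ x, f x ^ 2 ∂(um (Sb K D)) - (∫ x, f x ∂(um (Sb K D))) ^ 2 ≤
      40000 * ((c₀ + 4 * cH) * (4 * 540 ^ 2 * (1 + T) ^ 2 * (1 + A) ^ 2)) := by
  have hcH := Pool.Agent.TH610.RB.cH_pos
  have hKc : ∀ β, IsCompact (K β) := fun β => (hK β).comp
  have hKv : ∀ β, Convex ℝ (K β) := fun β => (hK β).conv
  have h0 : ∀ β, (0 : Ek (k β)) ∈ interior (K β) := fun β => (hK β).zero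
  obtain ⟨cK, hc0, hct, H⟩ := body_norms h hKc hKv h0
  have hDm := hD.closed.measurableSet
  have hcl := Sb_closed (k := k) hKv h0 hD
  have hb := Sb_bdd (k := k) hKc hKv h0 hD hR
  have hfin : volume (Sb K D) ≠ ⊤ := hb.measure_lt_top.ne
  have hvolD : ∀ D' : Set (Fin M → ℝ), MeasurableSet D' →
      volume (Sb K D') = cK * ∫⁻ ρ, D'.indicator 1 ρ ∂(rm k) := by
    intro D' hD'
    have h5 := H D' hD' (fun _ => 1) measurable_const
    rw [setLIntegral_const, one_mul] at h5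
    rw [h5]
    simp only [mul_one]
  have hvol : volume (Sb K D) ≠ 0 := by
    rw [hvolD D hDm]
    exact mul_ne_zero hc0 hne
  have hprob := um_prob hvol hfin
  have hnc := nn_cont (k := k) hKv h0
  obtain ⟨R', hR'⟩ := hb.exists_norm_le
  have hres : ∀ s : Set (Xk k), MeasurableSet s →
      (um (Sb K D)).restrict s = (volume (Sb K D))⁻¹ • volume.restrict (s ∩ Sb K D) := by
    intro s hs
    unfold um
    rw [Measure.restrict_smul, Measure.restrict_restrict hs]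
  have hA' : ∀ t : ℝ, 1 ≤ t → ∫⁻ ρ, (D ∩ {ρ | ∃ β, β ∉ G ∧
      A * t * (Real.sqrt (k β) / Real.sqrt (k β + 2)) < ρ β}).indicator 1 ρ ∂(rm k) ≤
        ENNReal.ofReal (Real.exp (-t)) * ∫⁻ ρ, D.indicator 1 ρ ∂(rm k) := by
    intro t ht
    have hYm : MeasurableSet {ρ : Fin M → ℝ | ∃ β, β ∉ G ∧
        A * t * (Real.sqrt (k β) / Real.sqrt (k β + 2)) < ρ β} := by
      have e1 : {ρ : Fin M → ℝ | ∃ β, β ∉ G ∧
          A * t * (Real.sqrt (k β) / Real.sqrt (k β + 2)) < ρ β} = ⋃ β, ⋃ (_ : β ∉ G),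
          {ρ : Fin M → ℝ | A * t * (Real.sqrt (k β) / Real.sqrt (k β + 2)) < ρ β} := by
        ext ρ
        simp
      rw [e1]
      exact MeasurableSet.iUnion fun β => MeasurableSet.iUnion fun _ =>
        measurableSet_lt measurable_const (measurable_pi_apply β)
    have h1 := hA t ht
    rw [hvolD _ (hDm.inter hYm), hvolD D hDm, mul_left_comm] at h1
    exact (ENNReal.mul_le_mul_iff_right hc0 hct).1 h1
  have hAm : ∀ t : ℝ, MeasurableSet (Sb K (bg k G ((2 + T + t) * 540) (A * (1 + t)))) := fun t =>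
    (Sb_closed (k := k) hKv h0 (bg_un _ _ _)).measurableSet
  refine Pool.Agent.TH594.KP.Mul.multi0 (um (Sb K D)) ⟨R', ?_⟩
    (fun t => Sb K (bg k G ((2 + T + t) * 540) (A * (1 + t)))) hAm
    (fun t t' htt x hx => ⟨fun β hβ => ?_, fun β hβ => ?_⟩) (fun t ht => ?_)
    ((c₀ + 4 * cH) * (4 * 540 ^ 2 * (1 + T) ^ 2 * (1 + A) ^ 2)) (by positivity)
    (fun t ht g hg => ?_) f hf hf1
  · unfold um
    rw [Measure.smul_apply, Measure.restrict_apply isClosed_closedBall.measurableSet.compl]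
    have e1 : (closedBall (0 : Xk k) R')ᶜ ∩ Sb K D = ∅ := by
      rw [← disjoint_iff_inter_eq_empty, disjoint_compl_left_iff_subset]
      exact fun x hx => mem_closedBall_zero_iff.2 (hR' x hx)
    rw [e1, measure_empty, smul_zero]
  · refine (hx.1 β hβ).trans (mul_le_mul_of_nonneg_right ?_ (by positivity))
    linarith
  · refine (hx.2 β hβ).trans (mul_le_mul_of_nonneg_right
      (mul_le_mul_of_nonneg_left ?_ hA0) (by positivity))
    linarith
  · have h1 : um (Sb K D) (Sb K (bg k G ((2 + T + t) * 540) (A * (1 + t))))ᶜ =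
        (volume (Sb K D))⁻¹ *
          volume (Sb K (D \ bg k G ((2 + T + t) * 540) (A * (1 + t)))) := by
      unfold um
      rw [Measure.smul_apply, Measure.restrict_apply (hAm t).compl, smul_eq_mul]
      congr 2
      ext x
      change (nn K x ∉ bg k G ((2 + T + t) * 540) (A * (1 + t)) ∧ nn K x ∈ D) ↔
        (nn K x ∈ D ∧ nn K x ∉ bg k G ((2 + T + t) * 540) (A * (1 + t)))
      exact and_comm
    rw [h1, hvolD _ (hDm.diff (bg_un _ _ _).closed.measurableSet)]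
    have h2 := tails_rm hk hT0 hT hD hR hne hnorm hA' t (by linarith)
    have h3 := mul_le_mul_right (mul_le_mul_right h2 cK) (volume (Sb K D))⁻¹
    refine h3.trans (le_of_eq ?_)
    rw [mul_left_comm cK, ← hvolD D hDm, mul_left_comm, ENNReal.inv_mul_cancel hvol hfin, mul_one]
  · -- the local inequality
    have ha : 0 < (2 + T + t) * 540 + A * (1 + t) := by positivity
    have hDb := un_inter (bg_un (k := k) G ((2 + T + t) * 540) (A * (1 + t))) hD
    have hset : Sb K (bg k G ((2 + T + t) * 540) (A * (1 + t))) ∩ Sb K D =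
        Sb K (bg k G ((2 + T + t) * 540) (A * (1 + t)) ∩ D) := rfl
    obtain ⟨c, hc⟩ := thmA' h hk hc₀ hK ha hDb (fun ρ hρ β => by
      refine (le_abs_self _).trans ?_
      by_cases hβ : β ∈ G
      · refine (hρ.1.1 β hβ).trans (mul_le_mul_of_nonneg_right ?_ (by positivity))
        have : 0 ≤ A * (1 + t) := by positivity
        linarith
      · refine (hρ.1.2 β hβ).trans (mul_le_mul_of_nonneg_right ?_ (by positivity))
        have : 0 ≤ (2 + T + t) * 540 := by positivity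
        linarith) hg
    refine ⟨c, ?_⟩
    rw [hres _ (hAm t), integral_smul_measure, integral_smul_measure, hset, smul_eq_mul,
      smul_eq_mul, mul_left_comm]
    refine mul_le_mul_of_nonneg_left (hc.trans ?_) ENNReal.toReal_nonneg
    refine mul_le_mul_of_nonneg_right ?_ (integral_nonneg fun x => sq_nonneg _)
    have h4 : (2 + T + t) * 540 + A * (1 + t) ≤ 540 * (2 * ((1 + T) * t)) * (1 + A) := by
      have h5 : 0 ≤ T * t := by positivity
      have h6 : 2 + T + t ≤ 2 * ((1 + T) * t) := by nlinarith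
      have h7 : 1 + t ≤ 540 * (2 * ((1 + T) * t)) := by nlinarith
      have h8 : A * (1 + t) ≤ A * (540 * (2 * ((1 + T) * t))) := mul_le_mul_of_nonneg_left h7 hA0
      nlinarith
    have h9 : ((2 + T + t) * 540 + A * (1 + t)) ^ 2 ≤
        (540 * (2 * ((1 + T) * t)) * (1 + A)) ^ 2 := pow_le_pow_left₀ ha.le h4 2
    calc (c₀ + 4 * cH) * ((2 + T + t) * 540 + A * (1 + t)) ^ 2
        ≤ (c₀ + 4 * cH) * (540 * (2 * ((1 + T) * t)) * (1 + A)) ^ 2 :=
          mul_le_mul_of_nonneg_left h9 (by positivity)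
      _ = (c₀ + 4 * cH) * (4 * 540 ^ 2 * (1 + T) ^ 2 * (1 + A) ^ 2) * t ^ 2 := by ring

end

end Pool.Agent.V5helper78.KU
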