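import Pool.Agent.V5helper78.KU.Rad

/-!
# The means over the directions as functions on the Euclidean space
-/

set_option autoImplicit false
set_option linter.unusedSectionVars false

namespace Pool.Agent.V5helper78.KU

open MeasureTheory Set Filter Topology Metric
open scoped ENNReal InnerProductSpace
open Pool.Agent.V5helper78.KO

section

variable {M : ℕ} {k : Fin M → ℕ}

/-- the smoothed norms of the components, in the scale of isotropic balls -/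
noncomputable def rp (ε : ℝ) (y : Xk k) : Fin M → ℝ := fun β =>
  Real.sqrt (‖bl β y‖ ^ 2 + ε ^ 2) / Real.sqrt (k β + 2)

theorem rp_zero (y : Xk k) : rp 0 y = fun β => ‖bl β y‖ / Real.sqrt (k β + 2) := by
  funext β
  unfold rp
  rw [zero_pow two_ne_zero, add_zero, Real.sqrt_sq (norm_nonneg _)]

theorem rp_contDiff {ε : ℝ} (hε : 0 < ε) : ContDiff ℝ 1 (rp ε : Xk k → Fin M → ℝ) := by
  rw [contDiff_pi]
  intro β
  have h1 : ContDiff ℝ 1 fun y : Xk k => ‖bl β y‖ ^ 2 + ε ^ 2 :=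
    ((bl β).contDiff.norm_sq ℝ).add contDiff_const
  exact (h1.sqrt fun y => by positivity).div_const _

theorem rp_cont (ε : ℝ) : Continuous (rp ε : Xk k → Fin M → ℝ) := by
  refine continuous_pi fun β => ?_
  unfold rp
  fun_prop

/-- the derivative of a smoothed norm -/
theorem rp_deriv {ε : ℝ} (hε : 0 < ε) (β : Fin M) (y : Xk k) :
    ∃ D : Xk k →L[ℝ] ℝ, HasFDerivAt (fun y : Xk k => rp ε y β) D y ∧
      ∀ v, |D v| ≤ ‖bl β v‖ / Real.sqrt (k β + 2) := by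
  have h1 : HasFDerivAt (fun y : Xk k => ‖bl β y‖ ^ 2 + ε ^ 2)
      (2 • (innerSL ℝ (bl β y)).comp (bl β : Xk k →L[ℝ] Ek (k β))) y :=
    ((bl β).hasFDerivAt.norm_sq).add_const _
  have hpos : 0 < ‖bl β y‖ ^ 2 + ε ^ 2 := by positivity
  have h2 := (h1.sqrt hpos.ne').mul_const (Real.sqrt (k β + 2))⁻¹
  refine ⟨_, h2, fun v => ?_⟩
  set q := Real.sqrt (‖bl β y‖ ^ 2 + ε ^ 2) with hq
  have hq0 : 0 < q := Real.sqrt_pos.2 hpos
  have hyq : ‖bl β y‖ ≤ q := by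
    rw [hq]
    refine Real.le_sqrt_of_sq_le ?_
    have : 0 ≤ ε ^ 2 := sq_nonneg _
    linarith
  have hk : 0 < Real.sqrt ((k β : ℝ) + 2) := Real.sqrt_pos.2 (by positivity)
  have e1 : (((Real.sqrt (k β + 2))⁻¹ • (1 / (2 * q)) •
      (2 • (innerSL ℝ (bl β y)).comp (bl β : Xk k →L[ℝ] Ek (k β)))) : Xk k →L[ℝ] ℝ) v =
      (⟪bl β y, bl β v⟫_ℝ / q) / Real.sqrt (k β + 2) := by
    simp only [_root_.smul_apply, ContinuousLinearMap.comp_apply, innerSL_apply_apply,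
      smul_eq_mul, nsmul_eq_mul]
    push_cast
    field_simp
  rw [e1, abs_div, abs_of_pos hk]
  refine div_le_div_of_nonneg_right ?_ hk.le
  rw [abs_div, abs_of_pos hq0, div_le_iff₀ hq0]
  refine (abs_real_inner_le_norm _ _).trans ?_
  rw [mul_comm]
  exact mul_le_mul_of_nonneg_left hyq (norm_nonneg _)

end

section

variable {M : ℕ} {k : Fin M → ℕ} {K : ∀ β, Set (Ek (k β))} {Ω : Type} [MeasurableSpace Ω]
  {P : Measure Ω} {θ : ∀ β, Ω → Ek (k β)} [IsProbabilityMeasure P]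

theorem Gf_cont (hθ : ∀ β, Measurable (θ β)) {f : Xk k → ℝ} (hf : ContDiff ℝ 1 f) {L : ℝ}
    (hL : ∀ x, ‖fderiv ℝ f x‖ ≤ L) : Continuous (Gf P θ f) := by
  have hfd : Continuous (fderiv ℝ f) := hf.continuous_fderiv one_ne_zero
  refine continuous_of_dominated (bound := fun _ => L ^ 2) (fun ρ => ?_)
    (fun ρ => Eventually.of_forall fun ω => ?_) (integrable_const _)
    (Eventually.of_forall fun ω => ?_)
  · have h2 : Measurable fun ω : Fin M → Ω => xr θ ρ ω := (xr_meas hθ).comp measurable_prodMk_left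
    exact ((hfd.norm.measurable.comp h2).pow_const 2).aestronglyMeasurable
  · rw [Real.norm_of_nonneg (sq_nonneg _)]
    exact pow_le_pow_left₀ (norm_nonneg _) (hL _) 2
  · exact ((hfd.comp (xr_cont ω)).norm).pow 2

theorem Gf_nonneg (f : Xk k → ℝ) (ρ : Fin M → ℝ) : 0 ≤ Gf P θ f ρ :=
  integral_nonneg fun ω => sq_nonneg _

theorem Gf_le {f : Xk k → ℝ} {L : ℝ} (hL : ∀ x, ‖fderiv ℝ f x‖ ≤ L) (ρ : Fin M → ℝ) :
    Gf P θ f ρ ≤ L ^ 2 := by
  have h1 : ∀ ω, ‖fderiv ℝ f (xr θ ρ ω)‖ ^ 2 ≤ L ^ 2 := fun ω =>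
    pow_le_pow_left₀ (norm_nonneg _) (hL _) 2
  unfold Gf
  refine (integral_mono_of_nonneg (Eventually.of_forall fun ω => sq_nonneg _)
    (integrable_const (L ^ 2)) (Eventually.of_forall h1)).trans (le_of_eq ?_)
  simp

theorem Hf_le {f : Xk k → ℝ} {B : ℝ} (hB : ∀ x, |f x| ≤ B) (ρ : Fin M → ℝ) :
    |Hf P θ f ρ| ≤ B := by
  unfold Hf
  rw [← Real.norm_eq_abs]
  refine (norm_integral_le_of_norm_le_const (C := B) (Eventually.of_forall fun ω => ?_)).trans ?_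
  · rw [Real.norm_eq_abs]; exact hB _
  · simp

/-- the bound for the gradient -/
theorem grad_le (h : ∀ β, Plr (k β) (K β) P (θ β)) (hk : ∀ β, 1 ≤ k β) {c₀ : ℝ}
    (hK : ∀ β, Iso c₀ (K β)) {f : Xk k → ℝ} (hf : ContDiff ℝ 1 f) {B L : ℝ}
    (hB : ∀ x, |f x| ≤ B) (hL : ∀ x, ‖fderiv ℝ f x‖ ≤ L) {ε : ℝ} (hε : 0 < ε) (y : Xk k) :
    ‖fderiv ℝ (fun y => Hf P θ f (rp ε y)) y‖ ^ 2 ≤ Gf P θ f (rp ε y) := by
  have hθ : ∀ β, Measurable (θ β) := fun β => (h β).meas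
  choose D hD hDb using fun β => rp_deriv (k := k) hε β y
  have hrp : HasFDerivAt (rp ε : Xk k → Fin M → ℝ) (ContinuousLinearMap.pi D) y :=
    hasFDerivAt_pi.2 hD
  have hH := ((Hf_C1 h hk hK hf hB hL).differentiable one_ne_zero (rp ε y)).hasFDerivAt
  have hc := (hH.comp y hrp).fderiv
  have hval : ∀ v, fderiv ℝ (fun y => Hf P θ f (rp ε y)) y v =
      ∑ β, dG P θ f (rp ε y) β * D β v := by
    intro v
    have h1 : fderiv ℝ (fun y => Hf P θ f (rp ε y)) y =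
        (fderiv ℝ (Hf P θ f) (rp ε y)).comp (ContinuousLinearMap.pi D) := hc
    rw [h1, ContinuousLinearMap.comp_apply, Hf_fderiv h hk hK hf hB hL]
    rfl
  have hG0 := Gf_nonneg (P := P) (θ := θ) f (rp ε y)
  have hgb0 : ∀ β, 0 ≤ gb P θ f (rp ε y) β := fun β => integral_nonneg fun ω => sq_nonneg _
  have hbound : ‖fderiv ℝ (fun y => Hf P θ f (rp ε y)) y‖ ≤ Real.sqrt (Gf P θ f (rp ε y)) := by
    refine ContinuousLinearMap.opNorm_le_bound _ (Real.sqrt_nonneg _) fun v => ?_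
    rw [hval, Real.norm_eq_abs]
    have h1 : ∀ β, |dG P θ f (rp ε y) β * D β v| ≤
        Real.sqrt (gb P θ f (rp ε y) β) * ‖bl β v‖ := by
      intro β
      have hk2 : (0 : ℝ) < k β + 2 := by positivity
      have hs : 0 < Real.sqrt ((k β : ℝ) + 2) := Real.sqrt_pos.2 hk2
      have h2 : |dG P θ f (rp ε y) β| ≤
          Real.sqrt (k β + 2) * Real.sqrt (gb P θ f (rp ε y) β) := by
        rw [← Real.sqrt_mul hk2.le]
        exact Real.abs_le_sqrt (dG_sq h hk hK hf hL (rp ε y) β)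
      rw [abs_mul]
      calc |dG P θ f (rp ε y) β| * |D β v|
          ≤ (Real.sqrt (k β + 2) * Real.sqrt (gb P θ f (rp ε y) β)) *
            (‖bl β v‖ / Real.sqrt (k β + 2)) :=
            mul_le_mul h2 (hDb β v) (abs_nonneg _) (by positivity)
        _ = Real.sqrt (gb P θ f (rp ε y) β) * ‖bl β v‖ := by field_simp
    refine (Finset.abs_sum_le_sum_abs _ _).trans ((Finset.sum_le_sum fun β _ => h1 β).trans ?_)
    have h3 := Real.sum_mul_le_sqrt_mul_sqrt Finset.univ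
      (fun β => Real.sqrt (gb P θ f (rp ε y) β)) fun β => ‖bl β v‖
    refine h3.trans (le_of_eq ?_)
    congr 1
    · congr 1
      rw [Gf_sum hθ hf hL]
      exact Finset.sum_congr rfl fun β _ => Real.sq_sqrt (hgb0 β)
    · rw [← norm_bl, Real.sqrt_sq (norm_nonneg _)]
  calc ‖fderiv ℝ (fun y => Hf P θ f (rp ε y)) y‖ ^ 2 ≤ Real.sqrt (Gf P θ f (rp ε y)) ^ 2 :=
        pow_le_pow_left₀ (norm_nonneg _) hbound 2
    _ = _ := Real.sq_sqrt hG0

theorem Hep_C1 (h : ∀ β, Plr (k β) (K β) P (θ β)) (hk : ∀ β, 1 ≤ k β) {c₀ : ℝ}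
    (hK : ∀ β, Iso c₀ (K β)) {f : Xk k → ℝ} (hf : ContDiff ℝ 1 f) {B L : ℝ}
    (hB : ∀ x, |f x| ≤ B) (hL : ∀ x, ‖fderiv ℝ f x‖ ≤ L) {ε : ℝ} (hε : 0 < ε) :
    ContDiff ℝ 1 fun y : Xk k => Hf P θ f (rp ε y) :=
  (Hf_C1 h hk hK hf hB hL).comp (rp_contDiff hε)

/-- the limit `ε → 0` -/
theorem lim_eps (h : ∀ β, Plr (k β) (K β) P (θ β)) (hk : ∀ β, 1 ≤ k β) {c₀ : ℝ}
    (hK : ∀ β, Iso c₀ (K β)) {f : Xk k → ℝ} (hf : ContDiff ℝ 1 f) {B L : ℝ}
    (hB : ∀ x, |f x| ≤ B) (hL : ∀ x, ‖fderiv ℝ f x‖ ≤ L) (ν : Measure (Xk k))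
    [IsFiniteMeasure ν] {C : ℝ} (hC : 0 ≤ C)
    (hP : ∀ g : Xk k → ℝ, ContDiff ℝ 1 g → ∃ c : ℝ,
      ∫ y, (g y - c) ^ 2 ∂ν ≤ C * ∫ y, ‖fderiv ℝ g y‖ ^ 2 ∂ν) :
    ∃ c : ℝ, ∫ y, (Hf P θ f (rp 0 y) - c) ^ 2 ∂ν ≤ C * ∫ y, Gf P θ f (rp 0 y) ∂ν := by
  have hθ : ∀ β, Measurable (θ β) := fun β => (h β).meas
  have hHc : Continuous (Hf P θ f) := (Hf_C1 h hk hK hf hB hL).continuous
  have hGc := Gf_cont (P := P) hθ hf hL
  have hHb := Hf_le (P := P) (θ := θ) hB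
  have hGb := Gf_le (P := P) (θ := θ) hL
  have hG0 := Gf_nonneg (P := P) (θ := θ) f
  have hint : ∀ g : Xk k → ℝ, Continuous g → ∀ b : ℝ, (∀ y, |g y| ≤ b) → Integrable g ν :=
    fun g hg b hb => Integrable.of_bound hg.aestronglyMeasurable b
      (Eventually.of_forall fun y => by rw [Real.norm_eq_abs]; exact hb y)
  have hi1 : ∀ ε, Integrable (fun y => Hf P θ f (rp ε y)) ν := fun ε =>
    hint _ (hHc.comp (rp_cont ε)) B fun y => hHb _
  have hi2 : ∀ ε, Integrable (fun y => Hf P θ f (rp ε y) ^ 2) ν := fun ε =>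
    hint _ ((hHc.comp (rp_cont ε)).pow 2) (B ^ 2) fun y => by
      rw [abs_pow]; exact pow_le_pow_left₀ (abs_nonneg _) (hHb _) 2
  have hi3 : ∀ ε, Integrable (fun y => Gf P θ f (rp ε y)) ν := fun ε =>
    hint _ (hGc.comp (rp_cont ε)) (L ^ 2) fun y => by rw [abs_of_nonneg (hG0 _)]; exact hGb _
  have hexp : ∀ ε c, ∫ y, (Hf P θ f (rp ε y) - c) ^ 2 ∂ν =
      ∫ y, Hf P θ f (rp ε y) ^ 2 ∂ν - 2 * c * ∫ y, Hf P θ f (rp ε y) ∂ν + c ^ 2 * ν.real univ := by
    intro ε c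
    have j1 : Integrable (fun y => Hf P θ f (rp ε y) ^ 2 - 2 * c * Hf P θ f (rp ε y)) ν :=
      (hi2 ε).sub ((hi1 ε).const_mul _)
    have e1 : (fun y : Xk k => (Hf P θ f (rp ε y) - c) ^ 2) =
        fun y : Xk k => (Hf P θ f (rp ε y) ^ 2 - 2 * c * Hf P θ f (rp ε y)) + c ^ 2 := by
      funext y; ring
    rw [e1, integral_add j1 (integrable_const _), integral_sub (hi2 ε) ((hi1 ε).const_mul _),
      integral_const_mul, integral_const, smul_eq_mul]
    ring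
  rcases eq_or_ne (ν.real univ) 0 with hν | hν
  · have hν0 : ν = 0 := by
      rw [measureReal_eq_zero_iff, Measure.measure_univ_eq_zero] at hν
      exact hν
    refine ⟨0, ?_⟩
    rw [hν0]
    simp
  have hνp : 0 < ν.real univ := lt_of_le_of_ne measureReal_nonneg (Ne.symm hν)
  let η : ℕ → ℝ := fun n => 1 / ((n : ℝ) + 1)
  have hη : ∀ n, 0 < η n := fun n => by positivity
  have hη0 : Tendsto η atTop (𝓝 0) := tendsto_one_div_add_atTop_nhds_zero_nat
  have hrp : ∀ y : Xk k, Tendsto (fun n => rp (η n) y) atTop (𝓝 (rp 0 y)) := by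
    intro y
    have h1 : Continuous fun ε : ℝ => rp ε y := by
      refine continuous_pi fun β => ?_
      unfold rp
      fun_prop
    exact (h1.tendsto 0).comp hη0
  have hn : ∀ n, (∫ y, Hf P θ f (rp (η n) y) ^ 2 ∂ν) * ν.real univ -
      (∫ y, Hf P θ f (rp (η n) y) ∂ν) ^ 2 ≤
      C * (∫ y, Gf P θ f (rp (η n) y) ∂ν) * ν.real univ := by
    intro n
    obtain ⟨c, hc⟩ := hP _ (Hep_C1 h hk hK hf hB hL (hη n))
    rw [hexp] at hc
    have h1 : ∫ y, ‖fderiv ℝ (fun y => Hf P θ f (rp (η n) y)) y‖ ^ 2 ∂ν ≤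
        ∫ y, Gf P θ f (rp (η n) y) ∂ν :=
      integral_mono_of_nonneg (Eventually.of_forall fun y => sq_nonneg _) (hi3 _)
        (Eventually.of_forall fun y => grad_le h hk hK hf hB hL (hη n) y)
    have h2 := mul_le_mul_of_nonneg_left h1 hC
    have h3 := mul_le_mul_of_nonneg_right (hc.trans h2) hνp.le
    nlinarith [sq_nonneg ((∫ y, Hf P θ f (rp (η n) y) ∂ν) - c * ν.real univ)]
  have hl1 : Tendsto (fun n => ∫ y, Hf P θ f (rp (η n) y) ∂ν) atTop
      (𝓝 (∫ y, Hf P θ f (rp 0 y) ∂ν)) :=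
    tendsto_integral_of_dominated_convergence (fun _ => B) (fun n => (hi1 _).aestronglyMeasurable)
      (integrable_const _) (fun n => Eventually.of_forall fun y => by
        rw [Real.norm_eq_abs]; exact hHb _)
      (Eventually.of_forall fun y => (hHc.tendsto _).comp (hrp y))
  have hl2 : Tendsto (fun n => ∫ y, Hf P θ f (rp (η n) y) ^ 2 ∂ν) atTop
      (𝓝 (∫ y, Hf P θ f (rp 0 y) ^ 2 ∂ν)) :=
    tendsto_integral_of_dominated_convergence (fun _ => B ^ 2)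
      (fun n => (hi2 _).aestronglyMeasurable)
      (integrable_const _) (fun n => Eventually.of_forall fun y => by
        rw [Real.norm_eq_abs, abs_pow]; exact pow_le_pow_left₀ (abs_nonneg _) (hHb _) 2)
      (Eventually.of_forall fun y => ((hHc.tendsto _).comp (hrp y)).pow 2)
  have hl3 : Tendsto (fun n => ∫ y, Gf P θ f (rp (η n) y) ∂ν) atTop
      (𝓝 (∫ y, Gf P θ f (rp 0 y) ∂ν)) :=
    tendsto_integral_of_dominated_convergence (fun _ => L ^ 2)
      (fun n => (hi3 _).aestronglyMeasurable)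
      (integrable_const _) (fun n => Eventually.of_forall fun y => by
        rw [Real.norm_eq_abs, abs_of_nonneg (hG0 _)]; exact hGb _)
      (Eventually.of_forall fun y => (hGc.tendsto _).comp (hrp y))
  have hlim := le_of_tendsto_of_tendsto ((hl2.mul_const (ν.real univ)).sub (hl1.pow 2))
    ((hl3.const_mul C).mul_const (ν.real univ)) (Eventually.of_forall hn)
  refine ⟨(∫ y, Hf P θ f (rp 0 y) ∂ν) / ν.real univ, ?_⟩
  rw [hexp]
  refine le_of_mul_le_mul_right ?_ hνp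
  refine le_trans (le_of_eq ?_) hlim
  field_simp
  ring

end

end Pool.Agent.V5helper78.KU
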