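import Pool.Agent.V5helper78.KU.Hep
import Pool.Agent.TH610.RB.Core

/-!
# The local inequality
-/

set_option autoImplicit false
set_option linter.unusedSectionVars false

namespace Pool.Agent.V5helper78.KU

open MeasureTheory Set Filter Topology Metric
open scoped ENNReal InnerProductSpace
open Pool.Agent.V5helper78.KO
open Pool.Agent.H212R2.KLS (mu Bdd)
open Pool.Agent.TH610.RB (RD NN nS blk nb lev cH G Sw)

section

variable {M : ℕ} {k : Fin M → ℕ}

/-- closed convex solid sets -/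
structure Un {M : ℕ} (D : Set (Fin M → ℝ)) : Prop where
  closed : IsClosed D
  conv : Convex ℝ D
  solid : ∀ ρ ∈ D, ∀ ρ' : Fin M → ℝ, (∀ β, |ρ' β| ≤ |ρ β|) → ρ' ∈ D

/-- the body over `D` -/
def Sb (K : ∀ β, Set (Ek (k β))) (D : Set (Fin M → ℝ)) : Set (Xk k) := {x | nn K x ∈ D}

/-- isotropic balls -/
noncomputable def Bl (k : Fin M → ℕ) (β : Fin M) : Set (Ek (k β)) :=
  closedBall 0 (Real.sqrt (k β + 2))

theorem Bl_comp (β : Fin M) : IsCompact (Bl k β) := isCompact_closedBall _ _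

theorem Bl_conv (β : Fin M) : Convex ℝ (Bl k β) := convex_closedBall _ _

theorem sqk (β : Fin M) : 0 < Real.sqrt ((k β : ℝ) + 2) := Real.sqrt_pos.2 (by positivity)

theorem Bl_zero (β : Fin M) : (0 : Ek (k β)) ∈ interior (Bl k β) := by
  unfold Bl
  have h1 : ball (0 : Ek (k β)) (Real.sqrt (k β + 2)) ⊆
      interior (closedBall (0 : Ek (k β)) (Real.sqrt (k β + 2))) := ball_subset_interior_closedBall
  exact h1 (mem_ball_self (sqk β))

theorem nn_Bl (x : Xk k) : nn (Bl k) x = rp 0 x := by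
  rw [rp_zero]
  funext β
  exact gauge_closedBall (sqk β).le _

section

variable {K : ∀ β, Set (Ek (k β))} (hKc : ∀ β, IsCompact (K β)) (hKv : ∀ β, Convex ℝ (K β))
  (h0 : ∀ β, (0 : Ek (k β)) ∈ interior (K β)) {D : Set (Fin M → ℝ)} (hD : Un D)

include hKv h0 hD

theorem Sb_closed : IsClosed (Sb K D) := hD.closed.preimage (nn_cont hKv h0)

theorem Sb_conv : Convex ℝ (Sb K D) := by
  intro x hx y hy a b ha hb hab
  have h1 := hD.conv hx hy ha hb hab
  refine hD.solid _ h1 _ fun β => ?_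
  have habs : Absorbent ℝ (K β) := absorbent_nhds_zero (mem_interior_iff_mem_nhds.1 (h0 β))
  have h2 : gauge (K β) (a • bl β x + b • bl β y) ≤
      a * gauge (K β) (bl β x) + b * gauge (K β) (bl β y) := by
    refine (gauge_add_le (hKv β) habs _ _).trans ?_
    rw [gauge_smul_of_nonneg ha, gauge_smul_of_nonneg hb, smul_eq_mul, smul_eq_mul]
  have h3 : nn K (a • x + b • y) β = gauge (K β) (a • bl β x + b • bl β y) := by
    unfold nn
    rw [map_add, map_smul, map_smul]
  have h4 : (a • nn K x + b • nn K y) β =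
      a * gauge (K β) (bl β x) + b * gauge (K β) (bl β y) := rfl
  rw [h3, h4, abs_of_nonneg (gauge_nonneg _)]
  exact h2.trans (le_abs_self _)

include hKc in
theorem Sb_bdd {a : ℝ} (hb : ∀ ρ ∈ D, ∀ β, ρ β ≤ a) : Bornology.IsBounded (Sb K D) := by
  choose R hR hKR using fun β => (hKc β).isBounded.subset_closedBall_lt 0 0
  refine (Metric.isBounded_closedBall (x := (0 : Xk k)) (r := ∑ β, |a| * R β)).subset
    fun x hx => ?_
  rw [mem_closedBall_zero_iff]
  have h1 : ∀ β, ‖bl β x‖ ≤ |a| * R β := by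
    intro β
    have habs : Absorbent ℝ (K β) := absorbent_nhds_zero (mem_interior_iff_mem_nhds.1 (h0 β))
    have h2 : ‖bl β x‖ / R β ≤ gauge (K β) (bl β x) :=
      le_gauge_of_subset_closedBall habs (hR β).le (hKR β)
    have h3 := (h2.trans (hb _ hx β)).trans (le_abs_self a)
    rwa [div_le_iff₀ (hR β)] at h3
  rw [← asm_bl x, asm_sum]
  refine (norm_sum_le _ _).trans (Finset.sum_le_sum fun β _ => ?_)
  rw [norm_ij]
  exact h1 β

end

theorem mu_wd {κ : Type} [Fintype κ] {S : Set (EuclideanSpace ℝ κ)} (hS : MeasurableSet S) (c : ℝ) :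
    mu (S.indicator fun _ => c) = ENNReal.ofReal c • volume.restrict S := by
  unfold mu
  have h1 : (fun x => ENNReal.ofReal (S.indicator (fun _ => c) x)) =
      S.indicator fun _ => ENNReal.ofReal c := by
    funext x
    by_cases hx : x ∈ S
    · rw [indicator_of_mem hx, indicator_of_mem hx]
    · rw [indicator_of_notMem hx, indicator_of_notMem hx, ENNReal.ofReal_zero]
  rw [h1, withDensity_indicator hS, withDensity_const]

theorem norm_P (β : Fin M) (x : Xk k) :
    ‖Pool.Agent.TH610.RB.P (Sigma.fst : (Σ β : Fin M, Fin (k β)) → Fin M) β x‖ = ‖bl β x‖ := by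
  have h : ‖Pool.Agent.TH610.RB.P (Sigma.fst : (Σ β : Fin M, Fin (k β)) → Fin M) β x‖ ^ 2 =
      ‖bl β x‖ ^ 2 := by
    rw [Pool.Agent.TH610.RB.norm_sq_P, Fintype.sum_sigma, Finset.sum_eq_single β,
      EuclideanSpace.real_norm_sq_eq]
    · exact Finset.sum_congr rfl fun i _ => if_pos rfl
    · intro γ _ hγ
      exact Finset.sum_eq_zero fun i _ => if_neg hγ
    · exact fun h => absurd (Finset.mem_univ β) h
  exact (sq_eq_sq₀ (norm_nonneg _) (norm_nonneg _)).1 h

theorem card_fib (a : Fin M) :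
    (Finset.univ.filter fun i : Σ β : Fin M, Fin (k β) => i.1 = a).card = k (id a) := by
  have h1 : (Finset.univ.filter fun i : Σ β : Fin M, Fin (k β) => i.1 = a) =
      Finset.univ.map ⟨fun i : Fin (k a) => (⟨a, i⟩ : Σ β : Fin M, Fin (k β)),
        fun i j h => by simpa using h⟩ := by
    ext ⟨γ, i⟩
    rw [Finset.mem_filter, Finset.mem_map]
    constructor
    · rintro ⟨_, h⟩
      have h2 : γ = a := h
      subst h2
      exact ⟨i, Finset.mem_univ _, rfl⟩
    · rintro ⟨j, _, hj⟩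
      have h2 : (⟨a, j⟩ : Σ β : Fin M, Fin (k β)) = ⟨γ, i⟩ := hj
      exact ⟨Finset.mem_univ _, (Sigma.mk.inj_iff.1 h2).1.symm⟩
  rw [h1, Finset.card_map, Finset.card_univ, Fintype.card_fin]
  rfl

theorem blk_id (β : Fin M) : blk (id : Fin M → Fin M) β = {β} := by
  ext a
  rw [Pool.Agent.TH610.RB.mem_blk, Finset.mem_singleton]
  rfl

theorem nb_id (β : Fin M) : nb (id : Fin M → Fin M) k β = k β := by
  unfold nb
  rw [blk_id, Finset.card_singleton, one_mul]

theorem NN_id (β : Fin M) (x : Xk k) :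
    NN (Sigma.fst : (Σ β : Fin M, Fin (k β)) → Fin M) (blk (id : Fin M → Fin M) β) (k β) x =
      Real.sqrt (k β) * ‖bl β x‖ := by
  unfold NN nS
  rw [blk_id, Finset.sum_singleton, norm_P]

theorem sw_id : Sw (Sigma.fst : (Σ β : Fin M, Fin (k β)) → Fin M) (id : Fin M → Fin M) := by
  intro a a' h
  have h1 : a = a' := h
  subst h1
  exact ⟨Equiv.refl _, fun i => by rw [Equiv.swap_self]; rfl⟩

theorem mem_lev (a : ℝ) (x : Xk k) :
    x ∈ lev (Sigma.fst : (Σ β : Fin M, Fin (k β)) → Fin M) (id : Fin M → Fin M) k a ↔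
      ∀ β, Real.sqrt (k β) * ‖bl β x‖ ≤ a * k β := by
  unfold lev
  change (∀ β, _ ≤ _) ↔ _
  simp only [NN_id, nb_id]

/-- densities of bodies over solid sets are in the class -/
theorem rd_body {D : Set (Fin M → ℝ)} (hD : Un D) {c : ℝ} (hc : 0 < c) :
    RD (Sigma.fst : (Σ β : Fin M, Fin (k β)) → Fin M) (id : Fin M → Fin M)
      ((Sb (Bl k) D).indicator fun _ => c) := by
  have hcl := Sb_closed (k := k) Bl_conv Bl_zero hD
  have hcv := Sb_conv (k := k) Bl_conv Bl_zero hD
  refine ⟨fun x => indicator_nonneg (fun _ _ => hc.le) x, measurable_const.indicator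
    hcl.measurableSet, fun x y t ht ht1 => ?_, fun a a' haa x y hxy => ?_⟩
  · by_cases hx : x ∈ Sb (Bl k) D
    · by_cases hy : y ∈ Sb (Bl k) D
      · have hm := hcv hx hy (by linarith : (0 : ℝ) ≤ 1 - t) ht.le (by ring)
        rw [indicator_of_mem hx, indicator_of_mem hy, indicator_of_mem hm, ← Real.rpow_add hc]
        norm_num
      · rw [indicator_of_notMem hy, Real.zero_rpow ht.ne', mul_zero]
        exact indicator_nonneg (fun _ _ => hc.le) _
    · rw [indicator_of_notMem hx, Real.zero_rpow (by linarith : (1 : ℝ) - t ≠ 0), zero_mul]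
      exact indicator_nonneg (fun _ _ => hc.le) _
  · have h1 : a = a' := haa
    subst h1
    have h2 : nn (Bl k) y = nn (Bl k) x := by
      rw [nn_Bl, nn_Bl, rp_zero, rp_zero]
      funext β
      have h3 := hxy β
      rw [Equiv.swap_self] at h3
      simp only [Equiv.refl_apply] at h3
      rw [norm_P, norm_P] at h3
      rw [h3]
    have h3 : y ∈ Sb (Bl k) D ↔ x ∈ Sb (Bl k) D := by
      unfold Sb
      rw [mem_ofPred_eq, mem_ofPred_eq, h2]
    by_cases hx : x ∈ Sb (Bl k) D
    · rw [indicator_of_mem hx, indicator_of_mem (h3.2 hx)]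
    · rw [indicator_of_notMem hx, indicator_of_notMem fun h => hx (h3.1 h)]

/-- the local inequality for the Euclidean body -/
theorem loc_rad {a : ℝ} (ha : 0 < a) {D : Set (Fin M → ℝ)} (hD : Un D)
    (hbox : ∀ ρ ∈ D, ∀ β, ρ β ≤ a * (Real.sqrt (k β) / Real.sqrt (k β + 2)))
    (hvol : volume (Sb (Bl k) D) ≠ 0) (f : Xk k → ℝ) (hf : ContDiff ℝ 1 f) :
    ∃ c : ℝ, ∫ y in Sb (Bl k) D, (f y - c) ^ 2 ≤
      4 * (cH * a ^ 2) * ∫ y in Sb (Bl k) D, ‖fderiv ℝ f y‖ ^ 2 := by
  have hcl := Sb_closed (k := k) Bl_conv Bl_zero hD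
  have hle : ∀ β : Fin M, Real.sqrt (k β) / Real.sqrt (k β + 2) ≤ 1 := fun β => by
    rw [div_le_one (sqk β)]
    exact Real.sqrt_le_sqrt (by linarith)
  have hb := Sb_bdd (k := k) Bl_comp Bl_conv Bl_zero hD (a := a) fun ρ hρ β =>
    (hbox ρ hρ β).trans (mul_le_of_le_one_right ha.le (hle β))
  have hfin : volume (Sb (Bl k) D) ≠ ⊤ := hb.measure_lt_top.ne
  set V := volume (Sb (Bl k) D) with hV
  set c : ℝ := V.toReal⁻¹ with hc
  have hVp : 0 < V.toReal := ENNReal.toReal_pos hvol hfin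
  have hcp : 0 < c := inv_pos.2 hVp
  have hRD := rd_body (k := k) hD hcp
  have hmu := mu_wd (S := Sb (Bl k) D) hcl.measurableSet c
  have h1 : mu ((Sb (Bl k) D).indicator fun _ => c) univ = 1 := by
    rw [hmu, Measure.smul_apply, Measure.restrict_apply_univ, ← hV, smul_eq_mul, hc,
      ENNReal.ofReal_inv_of_pos hVp, ENNReal.ofReal_toReal hfin, ENNReal.inv_mul_cancel hvol hfin]
  have hbd : Bdd ((Sb (Bl k) D).indicator fun _ => c) := by
    obtain ⟨R, hR⟩ := hb.exists_norm_le
    exact ⟨R, fun x hx => indicator_of_notMem (fun h => absurd (hR x h) (not_le.2 hx)) _⟩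
  have hsub : Sb (Bl k) D ⊆
      lev (Sigma.fst : (Σ β : Fin M, Fin (k β)) → Fin M) (id : Fin M → Fin M) k a := by
    intro x hx
    rw [mem_lev]
    intro β
    have h2 := hbox _ hx β
    rw [nn_Bl, rp_zero] at h2
    simp only at h2
    rw [mul_div_assoc', div_le_div_iff_of_pos_right (sqk β)] at h2
    have h3 := mul_le_mul_of_nonneg_left h2 (Real.sqrt_nonneg (k β))
    refine h3.trans (le_of_eq ?_)
    rw [mul_left_comm, Real.mul_self_sqrt (Nat.cast_nonneg _)]
  have hlm : MeasurableSet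
      (lev (Sigma.fst : (Σ β : Fin M, Fin (k β)) → Fin M) (id : Fin M → Fin M) k a) :=
    (Pool.Agent.TH610.RB.lev_closed _ _).measurableSet
  have hres : (mu ((Sb (Bl k) D).indicator fun _ => c)).restrict
      (lev (Sigma.fst : (Σ β : Fin M, Fin (k β)) → Fin M) (id : Fin M → Fin M) k a) =
      ENNReal.ofReal c • volume.restrict (Sb (Bl k) D) := by
    rw [hmu, Measure.restrict_smul, Measure.restrict_restrict hlm, inter_eq_self_of_subset_right hsub]
  have hne : mu ((Sb (Bl k) D).indicator fun _ => c)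
      (lev (Sigma.fst : (Σ β : Fin M, Fin (k β)) → Fin M) (id : Fin M → Fin M) k a) ≠ 0 := by
    have h2 : mu ((Sb (Bl k) D).indicator fun _ => c) (Sb (Bl k) D) = 1 := by
      rw [hmu, Measure.smul_apply, Measure.restrict_apply_self]
      rw [hmu, Measure.smul_apply, Measure.restrict_apply_univ] at h1
      exact h1
    intro h3
    have h4 := measure_mono_null hsub h3
    rw [h2] at h4
    exact one_ne_zero h4
  obtain ⟨c', hc'⟩ := Pool.Agent.TH610.RB.loc hRD.gd hbd h1 sw_id k card_fib a ha hne f hf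
  refine ⟨c', ?_⟩
  rw [hres, integral_smul_measure, integral_smul_measure, ENNReal.toReal_ofReal hcp.le, smul_eq_mul,
    smul_eq_mul, mul_left_comm] at hc'
  exact le_of_mul_le_mul_left hc' hcp

end

end Pool.Agent.V5helper78.KU
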