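import Pool.Agent.V5helper78.KU.Cov

/-!
# Normalization of the solid set
-/

set_option autoImplicit false
set_option linter.unusedSectionVars false

namespace Pool.Agent.V5helper78.KU

open MeasureTheory Set Filter Topology Metric
open scoped ENNReal InnerProductSpace
open Pool.Agent.V5helper78.KO

/-- linear changes of variables -/
theorem lin_chg {E : Type} [NormedAddCommGroup E] [InnerProductSpace ℝ E] [FiniteDimensional ℝ E]
    [MeasurableSpace E] [BorelSpace E] (A : E ≃L[ℝ] E) : ∃ c : ℝ≥0∞, c ≠ 0 ∧ c ≠ ⊤ ∧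
    ∀ S : Set E, MeasurableSet S → ∀ F : E → ℝ≥0∞, Measurable F →
      ∫⁻ x in A ⁻¹' S, F (A x) = c * ∫⁻ x in S, F x := by
  have hdet : LinearMap.det (A.toLinearEquiv : E →ₗ[ℝ] E) ≠ 0 :=
    (LinearEquiv.isUnit_det' A.toLinearEquiv).ne_zero
  refine ⟨ENNReal.ofReal |(LinearMap.det (A.toLinearEquiv : E →ₗ[ℝ] E))⁻¹|, ?_,
    ENNReal.ofReal_ne_top, fun S hS F hF => ?_⟩
  · rw [Ne, ENNReal.ofReal_eq_zero, not_le, abs_pos]
    exact inv_ne_zero hdet
  · have h1 := Measure.map_linearMap_addHaar_eq_smul_addHaar (volume : Measure E) hdet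
    have hAm : Measurable A := A.continuous.measurable
    have h2 : Measure.map A (volume : Measure E) =
        ENNReal.ofReal |(LinearMap.det (A.toLinearEquiv : E →ₗ[ℝ] E))⁻¹| • volume := h1
    rw [← smul_eq_mul, ← lintegral_smul_measure, ← Measure.restrict_smul, ← h2,
      Measure.restrict_map hAm hS, lintegral_map hF hAm]

section

variable {M : ℕ} {k : Fin M → ℕ}

/-- multiplication of the blocks by numbers -/
noncomputable def dg (s : Fin M → ℝ) (hs : ∀ β, s β ≠ 0) : Xk k ≃L[ℝ] Xk k :=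
  LinearEquiv.toContinuousLinearEquiv
    { toFun := fun x => asm k fun β => s β • bl β x
      map_add' := fun x y => by
        rw [← map_add]
        congr 1
        funext β
        rw [map_add, smul_add]
        rfl
      map_smul' := fun c x => by
        rw [RingHom.id_apply, ← map_smul]
        congr 1
        funext β
        rw [map_smul, smul_comm]
        rfl
      invFun := fun x => asm k fun β => (s β)⁻¹ • bl β x
      left_inv := fun x => by
        simp only [bl_asm, smul_smul, inv_mul_cancel₀ (hs _), one_smul]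
        exact asm_bl x
      right_inv := fun x => by
        simp only [bl_asm, smul_smul, mul_inv_cancel₀ (hs _), one_smul]
        exact asm_bl x }

theorem bl_dg (s : Fin M → ℝ) (hs : ∀ β, s β ≠ 0) (x : Xk k) (β : Fin M) :
    bl β (dg s hs x) = s β • bl β x := rfl

variable {K : ∀ β, Set (Ek (k β))} {Ω : Type} [MeasurableSpace Ω]
  {P : Measure Ω} {θ : ∀ β, Ω → Ek (k β)} [IsProbabilityMeasure P]

theorem nn_dg (s : Fin M → ℝ) (hs : ∀ β, 0 < s β) (x : Xk k) :
    nn K (dg s (fun β => (hs β).ne') x) = fun β => s β * nn K x β := by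
  funext β
  change gauge (K β) (bl β (dg s _ x)) = _
  rw [bl_dg, gauge_smul_of_nonneg (hs β).le]
  rfl

/-- the rescaled set -/
def rs (s : Fin M → ℝ) (D : Set (Fin M → ℝ)) : Set (Fin M → ℝ) := {ρ | (fun β => s β * ρ β) ∈ D}

theorem rs_un (s : Fin M → ℝ) {D : Set (Fin M → ℝ)} (hD : Un D) : Un (rs s D) := by
  refine ⟨hD.closed.preimage (by fun_prop : Continuous fun (ρ : Fin M → ℝ) β => s β * ρ β), ?_,
    fun ρ hρ ρ' h => hD.solid _ hρ _ fun β => ?_⟩
  · intro x hx y hy a b ha hb hab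
    have h1 := hD.conv hx hy ha hb hab
    have e1 : (fun β => s β * (a • x + b • y) β) =
        a • (fun β => s β * x β) + b • fun β => s β * y β := by
      funext β
      simp only [Pi.add_apply, Pi.smul_apply, smul_eq_mul]
      ring
    change (fun β => s β * (a • x + b • y) β) ∈ D
    rw [e1]
    exact h1
  · rw [abs_mul, abs_mul]
    exact mul_le_mul_of_nonneg_left (h β) (abs_nonneg _)

theorem rs_pre (s : Fin M → ℝ) (hs : ∀ β, 0 < s β) (D : Set (Fin M → ℝ)) :
    Sb K (rs s D) = dg s (fun β => (hs β).ne') ⁻¹' (Sb K D) := by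
  ext x
  change (fun β => s β * nn K x β) ∈ D ↔ nn K (dg s (fun β => (hs β).ne') x) ∈ D
  rw [nn_dg s hs]

/-- every solid set with positive measure can be normalized -/
theorem normalize (h : ∀ β, Plr (k β) (K β) P (θ β)) (hk : ∀ β, 1 ≤ k β) {c₀ : ℝ}
    (hK : ∀ β, Iso c₀ (K β)) {D : Set (Fin M → ℝ)} (hD : Un D) {R : ℝ}
    (hR : ∀ ρ ∈ D, ∀ β, ρ β ≤ R) (hv : volume (Sb K D) ≠ 0) {G : Finset (Fin M)} {A : ℝ}
    (hA : ∀ t : ℝ, 1 ≤ t → volume (Sb K (D ∩ {ρ | ∃ β, β ∉ G ∧
      A * t * Real.sqrt ((volume.real (Sb K D))⁻¹ * ∫ x in Sb K D, nn K x β ^ 2) < ρ β})) ≤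
        ENNReal.ofReal (Real.exp (-t)) * volume (Sb K D)) :
    ∃ (s : Fin M → ℝ) (_ : ∀ β, 0 < s β) (R' : ℝ), (∀ ρ ∈ rs s D, ∀ β, ρ β ≤ R') ∧
    volume (Sb K (rs s D)) ≠ 0 ∧ ∫⁻ ρ, (rs s D).indicator 1 ρ ∂(rm k) ≠ 0 ∧
    (∀ β, ∫⁻ ρ, (rs s D).indicator 1 ρ * ENNReal.ofReal (ρ β ^ 2) ∂(rm k) =
      ENNReal.ofReal (k β / (k β + 2)) * ∫⁻ ρ, (rs s D).indicator 1 ρ ∂(rm k)) ∧
    ∀ t : ℝ, 1 ≤ t → volume (Sb K (rs s D ∩ {ρ | ∃ β, β ∉ G ∧
      A * t * (Real.sqrt (k β) / Real.sqrt (k β + 2)) < ρ β})) ≤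
        ENNReal.ofReal (Real.exp (-t)) * volume (Sb K (rs s D)) := by
  have hKc : ∀ β, IsCompact (K β) := fun β => (hK β).comp
  have hKv : ∀ β, Convex ℝ (K β) := fun β => (hK β).conv
  have h0 : ∀ β, (0 : Ek (k β)) ∈ interior (K β) := fun β => (hK β).zero
  obtain ⟨cK, hc0, hct, H⟩ := body_norms h hKc hKv h0
  have hDm := hD.closed.measurableSet
  have hcl := Sb_closed (k := k) hKv h0 hD
  have hb := Sb_bdd (k := k) hKc hKv h0 hD hR
  have hfin : volume (Sb K D) ≠ ⊤ := hb.measure_lt_top.ne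
  have hnc := nn_cont (k := k) hKv h0
  have hk0 : ∀ β, (0 : ℝ) < k β := fun β => by exact_mod_cast hk β
  have hvolD : ∀ D' : Set (Fin M → ℝ), MeasurableSet D' →
      volume (Sb K D') = cK * ∫⁻ ρ, D'.indicator 1 ρ ∂(rm k) := by
    intro D' hD'
    have h5 := H D' hD' (fun _ => 1) measurable_const
    rw [setLIntegral_const, one_mul] at h5
    rw [h5]
    simp only [mul_one]
  have hnm : ∀ β, Measurable fun x : Xk k => nn K x β := fun β =>
    (measurable_pi_apply β).comp hnc.measurable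
  -- the second moments
  let I : Fin M → ℝ≥0∞ := fun β => ∫⁻ x in Sb K D, ENNReal.ofReal (nn K x β ^ 2)
  have hI0 : ∀ β, I β ≠ 0 := by
    intro β hI
    have h1 := H D hDm (fun ρ => ENNReal.ofReal (ρ β ^ 2)) (by fun_prop)
    have h2 : I β = cK * ∫⁻ ρ, D.indicator 1 ρ * ENNReal.ofReal (ρ β ^ 2) ∂(rm k) := h1
    have hm : Measurable fun ρ : Fin M → ℝ =>
        D.indicator (1 : (Fin M → ℝ) → ℝ≥0∞) ρ * ENNReal.ofReal (ρ β ^ 2) :=
      (measurable_one.indicator hDm).mul (by fun_prop)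
    rw [hI, eq_comm, mul_eq_zero, or_iff_right hc0, lintegral_eq_zero_iff hm] at h2
    have h3 : ∫⁻ ρ, D.indicator (1 : (Fin M → ℝ) → ℝ≥0∞) ρ ∂(rm k) = 0 := by
      rw [lintegral_eq_zero_iff (measurable_one.indicator hDm)]
      filter_upwards [h2, rm_pos k] with ρ hρ hp
      simp only [Pi.zero_apply, mul_eq_zero, ENNReal.ofReal_eq_zero] at hρ ⊢
      refine hρ.resolve_right (not_le.2 ?_)
      have := hp β
      positivity
    rw [hvolD D hDm, h3, mul_zero] at hv
    exact hv rfl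
  have hIt : ∀ β, I β ≠ ⊤ := by
    intro β
    have h1 : I β ≤ ∫⁻ x in Sb K D, ENNReal.ofReal (R ^ 2) := by
      refine setLIntegral_mono' hcl.measurableSet fun x hx => ?_
      refine ENNReal.ofReal_le_ofReal (pow_le_pow_left₀ (gauge_nonneg _) ?_ 2)
      exact hR _ hx β
    rw [setLIntegral_const] at h1
    exact ne_top_of_le_ne_top (ENNReal.mul_ne_top ENNReal.ofReal_ne_top hfin) h1
  have hVp : 0 < (volume (Sb K D)).toReal := ENNReal.toReal_pos hv hfin
  have hIp : ∀ β, 0 < (I β).toReal := fun β => ENNReal.toReal_pos (hI0 β) (hIt β)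
  let s : Fin M → ℝ := fun β =>
    Real.sqrt ((k β + 2) / k β * ((I β).toReal / (volume (Sb K D)).toReal))
  have hsq : ∀ β, s β ^ 2 = (k β + 2) / k β * ((I β).toReal / (volume (Sb K D)).toReal) :=
    fun β => Real.sq_sqrt (by have := hIp β; have := hk0 β; positivity)
  have hs : ∀ β, 0 < s β := fun β =>
    Real.sqrt_pos.2 (by have := hIp β; have := hk0 β; positivity)
  have hIe : ∀ β, I β = ENNReal.ofReal (s β ^ 2 * (k β / (k β + 2))) * volume (Sb K D) := by
    intro β
    have h1 : ENNReal.ofReal (s β ^ 2 * (k β / (k β + 2)) * (volume (Sb K D)).toReal) =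
        ENNReal.ofReal (s β ^ 2 * (k β / (k β + 2))) * volume (Sb K D) := by
      rw [ENNReal.ofReal_mul (by positivity), ENNReal.ofReal_toReal hfin]
    rw [← h1]
    refine (ENNReal.ofReal_toReal (hIt β)).symm.trans ?_
    congr 1
    rw [hsq]
    have := hk0 β
    field_simp
  refine ⟨s, hs, ∑ β, |R| / s β, ?_, ?_, ?_, ?_, ?_⟩
  · intro ρ hρ β
    have h1 : s β * ρ β ≤ R := hR _ hρ β
    have h2 : ρ β ≤ |R| / s β := by
      rw [le_div_iff₀ (hs β), mul_comm]
      exact h1.trans (le_abs_self R)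
    exact h2.trans (Finset.single_le_sum (f := fun β => |R| / s β)
      (fun β _ => by have := hs β; positivity) (Finset.mem_univ β))
  all_goals
    obtain ⟨c, hcz, hctt, HA⟩ := lin_chg (dg (k := k) s (fun β => (hs β).ne'))
    have hrm := (rs_un s hD).closed.measurableSet
    have hvr : volume (Sb K (rs s D)) = c * volume (Sb K D) := by
      have h1 := HA (Sb K D) hcl.measurableSet (fun _ => 1) measurable_const
      rw [setLIntegral_const, setLIntegral_const, one_mul, one_mul, ← rs_pre s hs] at h1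
      exact h1
  · rw [hvr]
    exact mul_ne_zero hcz hv
  · intro h1
    have h2 := hvolD (rs s D) hrm
    rw [h1, mul_zero, hvr] at h2
    exact mul_ne_zero hcz hv h2
  · intro β
    refine (ENNReal.mul_right_inj hc0 hct).1 ?_
    have h1 := H (rs s D) hrm (fun ρ => ENNReal.ofReal (ρ β ^ 2)) (by fun_prop)
    rw [← h1, mul_left_comm, ← hvolD _ hrm, hvr]
    have hFm : Measurable fun x : Xk k => ENNReal.ofReal ((s β)⁻¹ ^ 2) *
        ENNReal.ofReal (nn K x β ^ 2) := by
      have := hnm β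
      fun_prop
    have h2 := HA (Sb K D) hcl.measurableSet (fun x => ENNReal.ofReal ((s β)⁻¹ ^ 2) *
      ENNReal.ofReal (nn K x β ^ 2)) hFm
    have hFm2 : Measurable fun x : Xk k => ENNReal.ofReal (nn K x β ^ 2) := by
      have := hnm β
      fun_prop
    rw [← rs_pre s hs, lintegral_const_mul _ hFm2] at h2
    have h3 : ∀ x : Xk k, ENNReal.ofReal ((s β)⁻¹ ^ 2) *
        ENNReal.ofReal (nn K (dg s (fun β => (hs β).ne') x) β ^ 2) =
        ENNReal.ofReal (nn K x β ^ 2) := by
      intro x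
      rw [nn_dg s hs, ← ENNReal.ofReal_mul (by positivity)]
      congr 1
      have := hs β
      field_simp
    simp only [h3] at h2
    rw [h2]
    change c * (ENNReal.ofReal ((s β)⁻¹ ^ 2) * I β) = _
    rw [hIe β, ← mul_assoc (ENNReal.ofReal ((s β)⁻¹ ^ 2)), ← ENNReal.ofReal_mul (by positivity),
      mul_left_comm]
    congr 2
    have := hs β
    have := hk0 β
    field_simp
  · intro t ht
    have hσ : ∀ β, s β = Real.sqrt (k β + 2) / Real.sqrt (k β) *
        Real.sqrt ((volume.real (Sb K D))⁻¹ * ∫ x in Sb K D, nn K x β ^ 2) := by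
      intro β
      have h1 : ∫ x in Sb K D, nn K x β ^ 2 = (I β).toReal :=
        integral_eq_lintegral_of_nonneg_ae (Eventually.of_forall fun x => sq_nonneg _)
          ((hnm β).pow_const 2).aestronglyMeasurable
      rw [h1, ← Real.sqrt_div (by positivity), ← Real.sqrt_mul (by positivity)]
      simp only [s]
      congr 2
      rw [measureReal_def, inv_mul_eq_div]
    have hset : rs s D ∩ {ρ | ∃ β, β ∉ G ∧
        A * t * (Real.sqrt (k β) / Real.sqrt (k β + 2)) < ρ β} =
        rs s (D ∩ {ρ | ∃ β, β ∉ G ∧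
          A * t * Real.sqrt ((volume.real (Sb K D))⁻¹ * ∫ x in Sb K D, nn K x β ^ 2) < ρ β}) := by
      ext ρ
      refine and_congr_right fun _ => exists_congr fun β => and_congr_right fun _ => ?_
      have hkp : 0 < Real.sqrt (k β) := Real.sqrt_pos.2 (hk0 β)
      have hkq : 0 < Real.sqrt ((k β : ℝ) + 2) := Real.sqrt_pos.2 (by positivity)
      have hsp := hs β
      rw [hσ β] at hsp
      have hτ : 0 < Real.sqrt ((volume.real (Sb K D))⁻¹ * ∫ x in Sb K D, nn K x β ^ 2) :=
        (pos_iff_pos_of_mul_pos hsp).1 (by positivity)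
      change A * t * (Real.sqrt (k β) / Real.sqrt (k β + 2)) < ρ β ↔
        A * t * Real.sqrt ((volume.real (Sb K D))⁻¹ * ∫ x in Sb K D, nn K x β ^ 2) < s β * ρ β
      rw [hσ β]
      set τ := Real.sqrt ((volume.real (Sb K D))⁻¹ * ∫ x in Sb K D, nn K x β ^ 2)
      have e1 : A * t * τ = Real.sqrt (k β + 2) / Real.sqrt (k β) * τ *
          (A * t * (Real.sqrt (k β) / Real.sqrt (k β + 2))) := by
        field_simp
      rw [e1]
      exact (mul_lt_mul_iff_right₀ (by positivity)).symm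
    have hYm : MeasurableSet {ρ : Fin M → ℝ | ∃ β, β ∉ G ∧
        A * t * Real.sqrt ((volume.real (Sb K D))⁻¹ * ∫ x in Sb K D, nn K x β ^ 2) < ρ β} := by
      have e1 : {ρ : Fin M → ℝ | ∃ β, β ∉ G ∧
          A * t * Real.sqrt ((volume.real (Sb K D))⁻¹ * ∫ x in Sb K D, nn K x β ^ 2) < ρ β} =
          ⋃ β, ⋃ (_ : β ∉ G), {ρ : Fin M → ℝ |
          A * t * Real.sqrt ((volume.real (Sb K D))⁻¹ * ∫ x in Sb K D, nn K x β ^ 2) < ρ β} := by
        ext ρ
        simp
      rw [e1]
      exact MeasurableSet.iUnion fun β => MeasurableSet.iUnion fun _ =>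
        measurableSet_lt measurable_const (measurable_pi_apply β)
    have hm := hnc.measurable (hDm.inter hYm)
    have h1 := HA _ hm (fun _ => 1) measurable_const
    rw [setLIntegral_const, setLIntegral_const, one_mul, one_mul] at h1
    have h2 : volume (Sb K (rs s (D ∩ {ρ | ∃ β, β ∉ G ∧
          A * t * Real.sqrt ((volume.real (Sb K D))⁻¹ *
            ∫ x in Sb K D, nn K x β ^ 2) < ρ β}))) = c * volume (Sb K (D ∩ {ρ | ∃ β, β ∉ G ∧
          A * t * Real.sqrt ((volume.real (Sb K D))⁻¹ *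
            ∫ x in Sb K D, nn K x β ^ 2) < ρ β})) := by
      rw [rs_pre s hs]
      exact h1
    rw [hset, h2, hvr, mul_left_comm]
    exact mul_le_mul_right (hA t ht) c

end

end Pool.Agent.V5helper78.KU
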