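import Pool.Agent.V5helper78.KU.Ang
import Pool.Agent.V5helper78.KO.Hgf

/-!
# The means over the directions as functions of the norms
-/

set_option autoImplicit false
set_option linter.unusedSectionVars false

namespace Pool.Agent.V5helper78.KU

open MeasureTheory Set Filter Topology Metric
open scoped ENNReal InnerProductSpace
open Pool.Agent.V5helper78.KO

section

variable {M : ℕ} {k : Fin M → ℕ} {K : ∀ β, Set (Ek (k β))} {Ω : Type} [MeasurableSpace Ω]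
  {P : Measure Ω} {θ : ∀ β, Ω → Ek (k β)}

theorem xr_sum (ρ : Fin M → ℝ) (ω : Fin M → Ω) :
    xr θ ρ ω = ∑ β, ρ β • ij β (θ β (ω β)) := by
  unfold xr
  rw [asm_sum]
  exact Finset.sum_congr rfl fun β _ => map_smul _ _ _

theorem xr_cont (ω : Fin M → Ω) : Continuous fun ρ : Fin M → ℝ => xr θ ρ ω := by
  simp only [xr_sum]
  fun_prop

/-- the derivative of `ρ ↦ f (xr θ ρ ω)` -/
noncomputable def dq (θ : ∀ β, Ω → Ek (k β)) (f : Xk k → ℝ) (ρ : Fin M → ℝ) (ω : Fin M → Ω)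
    (β : Fin M) : ℝ := fderiv ℝ f (xr θ ρ ω) (ij β (θ β (ω β)))

/-- the derivative of `ρ ↦ f (xr θ ρ ω)` -/
noncomputable def dF (θ : ∀ β, Ω → Ek (k β)) (f : Xk k → ℝ) (ρ : Fin M → ℝ) (ω : Fin M → Ω) :
    (Fin M → ℝ) →L[ℝ] ℝ :=
  ∑ β, dq θ f ρ ω β • ContinuousLinearMap.proj (R := ℝ) (φ := fun _ : Fin M => ℝ) β

theorem dF_apply (f : Xk k → ℝ) (ρ : Fin M → ℝ) (ω : Fin M → Ω) (w : Fin M → ℝ) :
    dF θ f ρ ω w = ∑ β, dq θ f ρ ω β * w β := by
  unfold dF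
  simp

theorem hasF {f : Xk k → ℝ} (hf : ContDiff ℝ 1 f) (ρ : Fin M → ℝ) (ω : Fin M → Ω) :
    HasFDerivAt (fun ρ : Fin M → ℝ => f (xr θ ρ ω)) (dF θ f ρ ω) ρ := by
  have h1 : HasFDerivAt (fun ρ : Fin M → ℝ => xr θ ρ ω)
      (∑ β, (ContinuousLinearMap.proj (R := ℝ) (φ := fun _ : Fin M => ℝ) β).smulRight
        (ij β (θ β (ω β)))) ρ := by
    have e1 : (fun ρ : Fin M → ℝ => xr θ ρ ω) = fun ρ => ∑ β, ρ β • ij β (θ β (ω β)) :=
      funext fun ρ => xr_sum ρ ω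
    rw [e1]
    refine HasFDerivAt.fun_sum fun β _ => ?_
    exact ((ContinuousLinearMap.proj (R := ℝ) (φ := fun _ : Fin M => ℝ) β).hasFDerivAt).smul_const _
  have h2 := ((hf.differentiable one_ne_zero) (xr θ ρ ω)).hasFDerivAt.comp ρ h1
  refine h2.congr_fderiv ?_
  ext w
  rw [dF_apply]
  simp [dq, mul_comm]

theorem dq_meas (hθ : ∀ β, Measurable (θ β)) {f : Xk k → ℝ} (hf : ContDiff ℝ 1 f)
    (ρ : Fin M → ℝ) (β : Fin M) : Measurable fun ω => dq θ f ρ ω β := by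
  have hfd : Continuous (fderiv ℝ f) := hf.continuous_fderiv one_ne_zero
  have h1 : Continuous fun p : Xk k × Xk k => fderiv ℝ f p.1 p.2 := by fun_prop
  have h2 : Measurable fun ω : Fin M → Ω => xr θ ρ ω := (xr_meas hθ).comp measurable_prodMk_left
  have h3 : Measurable fun ω : Fin M → Ω => ij β (θ β (ω β)) :=
    (ij β).continuous.measurable.comp ((hθ β).comp (measurable_pi_apply β))
  exact h1.measurable.comp (h2.prodMk h3)

theorem dq_le (h : ∀ β, Plr (k β) (K β) P (θ β)) (hk : ∀ β, 1 ≤ k β) {c₀ : ℝ}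
    (hK : ∀ β, Iso c₀ (K β)) {f : Xk k → ℝ} {L : ℝ} (hL : ∀ x, ‖fderiv ℝ f x‖ ≤ L)
    (ρ : Fin M → ℝ) (ω : Fin M → Ω) (β : Fin M) : |dq θ f ρ ω β| ≤ L * (2 * (k β + 1)) := by
  rw [← Real.norm_eq_abs]
  refine (ContinuousLinearMap.le_opNorm _ _).trans ?_
  rw [norm_ij]
  exact mul_le_mul (hL _) (theta_norm' (h β) (hk β) (hK β) _) (norm_nonneg _)
    ((norm_nonneg _).trans (hL 0))

theorem dF_cont {f : Xk k → ℝ} (hf : ContDiff ℝ 1 f) (ω : Fin M → Ω) :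
    Continuous fun ρ => dF θ f ρ ω := by
  have hfd : Continuous (fderiv ℝ f) := hf.continuous_fderiv one_ne_zero
  have hx := xr_cont (θ := θ) ω
  unfold dF dq
  fun_prop

theorem dF_le (h : ∀ β, Plr (k β) (K β) P (θ β)) (hk : ∀ β, 1 ≤ k β) {c₀ : ℝ}
    (hK : ∀ β, Iso c₀ (K β)) {f : Xk k → ℝ} {L : ℝ} (hL : ∀ x, ‖fderiv ℝ f x‖ ≤ L)
    (ρ : Fin M → ℝ) (ω : Fin M → Ω) : ‖dF θ f ρ ω‖ ≤ ∑ β, L * (2 * (k β + 1)) := by
  unfold dF
  refine (norm_sum_le _ _).trans (Finset.sum_le_sum fun β _ => ?_)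
  rw [norm_smul, Real.norm_eq_abs]
  have h1 := dq_le h hk hK hL ρ ω β
  have h2 : ‖(ContinuousLinearMap.proj β : (Fin M → ℝ) →L[ℝ] ℝ)‖ ≤ 1 :=
    ContinuousLinearMap.opNorm_le_bound _ zero_le_one fun w => by
      rw [one_mul]; exact norm_le_pi_norm w β
  have h3 := abs_nonneg (dq θ f ρ ω β)
  have h4 := norm_nonneg (ContinuousLinearMap.proj β : (Fin M → ℝ) →L[ℝ] ℝ)
  nlinarith

/-- the mean of the derivative -/
noncomputable def dG (P : Measure Ω) (θ : ∀ β, Ω → Ek (k β)) (f : Xk k → ℝ) (ρ : Fin M → ℝ)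
    (β : Fin M) : ℝ := ∫ ω, dq θ f ρ ω β ∂(PP (Fin M) P)

variable [IsProbabilityMeasure P]

theorem Hf_deriv (h : ∀ β, Plr (k β) (K β) P (θ β)) (hk : ∀ β, 1 ≤ k β) {c₀ : ℝ}
    (hK : ∀ β, Iso c₀ (K β)) {f : Xk k → ℝ} (hf : ContDiff ℝ 1 f) {B L : ℝ}
    (hB : ∀ x, |f x| ≤ B) (hL : ∀ x, ‖fderiv ℝ f x‖ ≤ L) (ρ : Fin M → ℝ) :
    HasFDerivAt (Hf P θ f) (∫ ω, dF θ f ρ ω ∂(PP (Fin M) P)) ρ := by
  have hθ : ∀ β, Measurable (θ β) := fun β => (h β).meas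
  have hfm := hf.continuous.measurable
  have hx : ∀ ρ, Measurable fun ω : Fin M → Ω => xr θ ρ ω := fun ρ =>
    (xr_meas hθ).comp measurable_prodMk_left
  have hdm : ∀ ρ, AEStronglyMeasurable (fun ω => dF θ f ρ ω) (PP (Fin M) P) := by
    intro ρ
    unfold dF
    refine Finset.aestronglyMeasurable_fun_sum _ fun β _ => ?_
    exact (dq_meas hθ hf ρ β).aestronglyMeasurable.smul_const _
  exact hasFDerivAt_integral_of_dominated_of_fderiv_le (𝕜 := ℝ) (s := univ)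
    (F := fun ρ ω => f (xr θ ρ ω)) (F' := fun ρ ω => dF θ f ρ ω)
    (bound := fun _ => ∑ β, L * (2 * (k β + 1))) univ_mem
    (Eventually.of_forall fun ρ => (hfm.comp (hx ρ)).aestronglyMeasurable)
    (Integrable.of_bound (hfm.comp (hx ρ)).aestronglyMeasurable B
      (Eventually.of_forall fun ω => by rw [Real.norm_eq_abs]; exact hB _)) (hdm ρ)
    (Eventually.of_forall fun ω ρ _ => dF_le h hk hK hL ρ ω) (integrable_const _)
    (Eventually.of_forall fun ω ρ _ => hasF hf ρ ω)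

theorem Hf_C1 (h : ∀ β, Plr (k β) (K β) P (θ β)) (hk : ∀ β, 1 ≤ k β) {c₀ : ℝ}
    (hK : ∀ β, Iso c₀ (K β)) {f : Xk k → ℝ} (hf : ContDiff ℝ 1 f) {B L : ℝ}
    (hB : ∀ x, |f x| ≤ B) (hL : ∀ x, ‖fderiv ℝ f x‖ ≤ L) : ContDiff ℝ 1 (Hf P θ f) := by
  have hθ : ∀ β, Measurable (θ β) := fun β => (h β).meas
  have hd := Hf_deriv h hk hK hf hB hL
  have hdm : ∀ ρ, AEStronglyMeasurable (fun ω => dF θ f ρ ω) (PP (Fin M) P) := by
    intro ρ
    unfold dF
    refine Finset.aestronglyMeasurable_fun_sum _ fun β _ => ?_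
    exact (dq_meas hθ hf ρ β).aestronglyMeasurable.smul_const _
  rw [contDiff_one_iff_fderiv]
  refine ⟨fun ρ => (hd ρ).differentiableAt, ?_⟩
  have he : fderiv ℝ (Hf P θ f) = fun ρ => ∫ ω, dF θ f ρ ω ∂(PP (Fin M) P) :=
    funext fun ρ => (hd ρ).fderiv
  rw [he]
  exact continuous_of_dominated (bound := fun _ => ∑ β, L * (2 * (k β + 1))) hdm
    (fun ρ => Eventually.of_forall fun ω => dF_le h hk hK hL ρ ω) (integrable_const _)
    (Eventually.of_forall fun ω => dF_cont hf ω)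

theorem Hf_fderiv (h : ∀ β, Plr (k β) (K β) P (θ β)) (hk : ∀ β, 1 ≤ k β) {c₀ : ℝ}
    (hK : ∀ β, Iso c₀ (K β)) {f : Xk k → ℝ} (hf : ContDiff ℝ 1 f) {B L : ℝ}
    (hB : ∀ x, |f x| ≤ B) (hL : ∀ x, ‖fderiv ℝ f x‖ ≤ L) (ρ w : Fin M → ℝ) :
    fderiv ℝ (Hf P θ f) ρ w = ∑ β, dG P θ f ρ β * w β := by
  have hθ : ∀ β, Measurable (θ β) := fun β => (h β).meas
  rw [(Hf_deriv h hk hK hf hB hL ρ).fderiv]
  have hi : ∀ β, Integrable (fun ω => dq θ f ρ ω β) (PP (Fin M) P) := fun β =>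
    Integrable.of_bound (dq_meas hθ hf ρ β).aestronglyMeasurable (L * (2 * (k β + 1)))
      (Eventually.of_forall fun ω => by
        rw [Real.norm_eq_abs]; exact dq_le h hk hK hL ρ ω β)
  have hdi : Integrable (fun ω => dF θ f ρ ω) (PP (Fin M) P) := by
    refine Integrable.of_bound ?_ (∑ β, L * (2 * (k β + 1)))
      (Eventually.of_forall fun ω => dF_le h hk hK hL ρ ω)
    unfold dF
    refine Finset.aestronglyMeasurable_fun_sum _ fun β _ => ?_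
    exact (dq_meas hθ hf ρ β).aestronglyMeasurable.smul_const _
  rw [ContinuousLinearMap.integral_apply hdi w]
  simp only [dF_apply]
  rw [integral_finsetSum _ fun β _ => (hi β).mul_const _]
  refine Finset.sum_congr rfl fun β _ => ?_
  rw [integral_mul_const]
  rfl

/-- the mean of the square of the gradient of a component -/
noncomputable def gb (P : Measure Ω) (θ : ∀ β, Ω → Ek (k β)) (f : Xk k → ℝ) (ρ : Fin M → ℝ)
    (β : Fin M) : ℝ :=
  ∫ ω, ‖(fderiv ℝ f (xr θ ρ ω)).comp (ij β : Ek (k β) →L[ℝ] Xk k)‖ ^ 2 ∂(PP (Fin M) P)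

/-- the mean of the square of the gradient -/
noncomputable def Gf (P : Measure Ω) (θ : ∀ β, Ω → Ek (k β)) (f : Xk k → ℝ) (ρ : Fin M → ℝ) : ℝ :=
  ∫ ω, ‖fderiv ℝ f (xr θ ρ ω)‖ ^ 2 ∂(PP (Fin M) P)

theorem comp_meas (hθ : ∀ β, Measurable (θ β)) {f : Xk k → ℝ} (hf : ContDiff ℝ 1 f)
    (ρ : Fin M → ℝ) (β : Fin M) :
    Measurable fun ω => ‖(fderiv ℝ f (xr θ ρ ω)).comp (ij β : Ek (k β) →L[ℝ] Xk k)‖ := by
  have h1 : Continuous fun x => ‖(fderiv ℝ f x).comp (ij β : Ek (k β) →L[ℝ] Xk k)‖ :=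
    ((hf.continuous_fderiv one_ne_zero).clm_comp continuous_const).norm
  have h2 : Measurable fun ω : Fin M → Ω => xr θ ρ ω := (xr_meas hθ).comp measurable_prodMk_left
  exact h1.measurable.comp h2

theorem Gf_sum (hθ : ∀ β, Measurable (θ β)) {f : Xk k → ℝ} (hf : ContDiff ℝ 1 f) {L : ℝ}
    (hL : ∀ x, ‖fderiv ℝ f x‖ ≤ L) (ρ : Fin M → ℝ) : Gf P θ f ρ = ∑ β, gb P θ f ρ β := by
  unfold Gf gb
  rw [← integral_finsetSum _ fun β _ => ?_]
  · simp only [norm_split]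
  · refine Integrable.of_bound ((comp_meas hθ hf ρ β).pow_const 2).aestronglyMeasurable (L ^ 2)
      (Eventually.of_forall fun ω => ?_)
    rw [Real.norm_of_nonneg (sq_nonneg _)]
    exact pow_le_pow_left₀ (norm_nonneg _) ((norm_comp_le _ _).trans (hL _)) 2

theorem dG_sq (h : ∀ β, Plr (k β) (K β) P (θ β)) (hk : ∀ β, 1 ≤ k β) {c₀ : ℝ}
    (hK : ∀ β, Iso c₀ (K β)) {f : Xk k → ℝ} (hf : ContDiff ℝ 1 f) {L : ℝ}
    (hL : ∀ x, ‖fderiv ℝ f x‖ ≤ L) (ρ : Fin M → ℝ) (β : Fin M) :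
    dG P θ f ρ β ^ 2 ≤ (k β + 2) * gb P θ f ρ β := by
  have hθ : ∀ β, Measurable (θ β) := fun β => (h β).meas
  have hL0 : 0 ≤ L := (norm_nonneg _).trans (hL 0)
  have hu := comp_meas hθ hf ρ β
  have hv : Measurable fun ω : Fin M → Ω => ‖θ β (ω β)‖ :=
    ((hθ β).comp (measurable_pi_apply β)).norm
  have hBu : ∀ ω : Fin M → Ω,
      |‖(fderiv ℝ f (xr θ ρ ω)).comp (ij β : Ek (k β) →L[ℝ] Xk k)‖| ≤ L := fun ω => by
    rw [abs_norm]; exact (norm_comp_le _ _).trans (hL _)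
  have hCv : ∀ ω : Fin M → Ω, |‖θ β (ω β)‖| ≤ 2 * (k β + 1) := fun ω => by
    rw [abs_norm]; exact theta_norm' (h β) (hk β) (hK β) _
  have hm3 : ∫ ω : Fin M → Ω, ‖θ β (ω β)‖ ^ 2 ∂(PP (Fin M) P) = k β + 2 := by
    have i3 : Integrable (fun ω => ‖θ β ω‖ ^ 2) P :=
      Integrable.of_bound ((hθ β).norm.pow_const 2).aestronglyMeasurable ((2 * (k β + 1)) ^ 2)
        (Eventually.of_forall fun ω => by
          rw [Real.norm_of_nonneg (sq_nonneg _)]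
          exact pow_le_pow_left₀ (norm_nonneg _) (theta_norm' (h β) (hk β) (hK β) ω) 2)
    have h1 := mom3 (h β) (hk β) (hK β)
    rw [← ofReal_integral_eq_lintegral_ofReal i3 (Eventually.of_forall fun ω => sq_nonneg _)] at h1
    have h2 := (ENNReal.ofReal_eq_ofReal_iff (integral_nonneg fun ω => sq_nonneg _)
      (by positivity)).1 h1
    rw [← h2]
    have hev := measurePreserving_eval (fun _ : Fin M => P) β
    have h3 := int_mp hev (g := fun ω => ‖θ β ω‖ ^ 2) ((hθ β).norm.pow_const 2)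
    exact h3
  have hcs := cs_prob hu hv hBu hCv (by rw [hm3]; positivity)
  rw [hm3] at hcs
  refine le_trans ?_ hcs
  unfold dG
  rw [← sq_abs]
  refine pow_le_pow_left₀ (abs_nonneg _) ?_ 2
  rw [← Real.norm_eq_abs]
  refine (norm_integral_le_integral_norm _).trans ?_
  refine integral_mono_of_nonneg (Eventually.of_forall fun ω => norm_nonneg _) ?_
    (Eventually.of_forall fun ω => ?_)
  · refine Integrable.of_bound (hu.mul hv).aestronglyMeasurable (L * (2 * (k β + 1)))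
      (Eventually.of_forall fun ω => ?_)
    rw [norm_mul, norm_norm, norm_norm]
    have h1 := hBu ω
    have h2 := hCv ω
    rw [abs_norm] at h1 h2
    exact mul_le_mul h1 h2 (norm_nonneg _) hL0
  · exact ContinuousLinearMap.le_opNorm
      ((fderiv ℝ f (xr θ ρ ω)).comp (ij β : Ek (k β) →L[ℝ] Xk k)) (θ β (ω β))

end

end Pool.Agent.V5helper78.KU
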