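import Pool.Agent.V5helper78.KO.Bal
import Pool.Agent.V5helper78.KU.Efr

/-!
# Products of polar coordinates
-/

set_option autoImplicit false

namespace Pool.Agent.V5helper78.KU

open MeasureTheory Set Filter Topology Metric
open scoped ENNReal InnerProductSpace
open Pool.Agent.V5helper78.KO

section

variable {M : ℕ}

/-- the sum of the spaces `ℝ^{k β}` -/
abbrev Xk (k : Fin M → ℕ) : Type := EuclideanSpace ℝ (Σ β : Fin M, Fin (k β))

variable {k : Fin M → ℕ}

/-- the identification of the product with the sum -/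
noncomputable def asl (k : Fin M → ℕ) : (∀ β, Ek (k β)) ≃ₗ[ℝ] Xk k where
  toFun y := WithLp.toLp 2 fun i => y i.1 i.2
  map_add' x y := by ext i; rfl
  map_smul' c x := by ext i; rfl
  invFun x β := WithLp.toLp 2 fun i => x ⟨β, i⟩
  left_inv y := by funext β; ext i; rfl
  right_inv x := by ext i; rfl

/-- the identification of the product with the sum -/
noncomputable def asm (k : Fin M → ℕ) : (∀ β, Ek (k β)) ≃L[ℝ] Xk k :=
  (asl k).toContinuousLinearEquiv

/-- the component -/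
noncomputable def bl (β : Fin M) : Xk k →L[ℝ] Ek (k β) :=
  (ContinuousLinearMap.proj (R := ℝ) (φ := fun β => Ek (k β)) β).comp
    ((asm k).symm : Xk k →L[ℝ] ∀ β, Ek (k β))

theorem asm_apply (y : ∀ β, Ek (k β)) (β : Fin M) (i : Fin (k β)) : asm k y ⟨β, i⟩ = y β i := rfl

theorem bl_apply (x : Xk k) (β : Fin M) (i : Fin (k β)) : bl β x i = x ⟨β, i⟩ := rfl

theorem bl_asm (y : ∀ β, Ek (k β)) (β : Fin M) : bl β (asm k y) = y β := rfl

theorem asm_bl (x : Xk k) : asm k (fun β => bl β x) = x := rfl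

theorem norm_bl (x : Xk k) : ‖x‖ ^ 2 = ∑ β, ‖bl β x‖ ^ 2 := by
  rw [EuclideanSpace.real_norm_sq_eq, Fintype.sum_sigma]
  refine Finset.sum_congr rfl fun β _ => ?_
  rw [EuclideanSpace.real_norm_sq_eq]
  rfl

theorem norm_asm (y : ∀ β, Ek (k β)) : ‖asm k y‖ ^ 2 = ∑ β, ‖y β‖ ^ 2 := norm_bl _

theorem norm_bl_le (x : Xk k) (β : Fin M) : ‖bl β x‖ ≤ ‖x‖ := by
  refine le_of_sq_le_sq ?_ (norm_nonneg _)
  rw [norm_bl x]
  exact Finset.single_le_sum (f := fun β => ‖bl β x‖ ^ 2) (fun β _ => sq_nonneg _)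
    (Finset.mem_univ β)

theorem inner_bl (x y : Xk k) : ⟪x, y⟫_ℝ = ∑ β, ⟪bl β x, bl β y⟫_ℝ := by
  rw [PiLp.inner_apply, Fintype.sum_sigma]
  refine Finset.sum_congr rfl fun β _ => ?_
  rw [PiLp.inner_apply]
  rfl

/-- the inclusion of a component -/
noncomputable def ij (β : Fin M) : Ek (k β) →L[ℝ] Xk k :=
  ((asm k : (∀ β, Ek (k β)) →L[ℝ] Xk k)).comp
    (ContinuousLinearMap.single ℝ (fun β => Ek (k β)) β)

theorem bl_ij (β γ : Fin M) (y : Ek (k β)) : bl γ (ij β y) = Pi.single (M := fun β => Ek (k β)) β y γ :=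
  rfl

theorem norm_ij (β : Fin M) (y : Ek (k β)) : ‖ij β y‖ = ‖y‖ := by
  have h : ‖ij β y‖ ^ 2 = ‖y‖ ^ 2 := by
    rw [norm_bl, Finset.sum_eq_single β]
    · rw [bl_ij, Pi.single_eq_same]
    · intro γ _ hγ
      rw [bl_ij, Pi.single_eq_of_ne hγ, norm_zero]
      norm_num
    · exact fun h => absurd (Finset.mem_univ β) h
  exact (sq_eq_sq₀ (norm_nonneg _) (norm_nonneg _)).1 h

theorem asm_sum (y : ∀ β, Ek (k β)) : asm k y = ∑ β, ij β (y β) := by
  conv_lhs => rw [← LinearMap.sum_single_apply (fun β => Ek (k β)) y]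
  rw [map_sum]
  rfl

theorem ij_le (β : Fin M) : ‖(ij β : Ek (k β) →L[ℝ] Xk k)‖ ≤ 1 :=
  ContinuousLinearMap.opNorm_le_bound _ zero_le_one fun y => by rw [norm_ij, one_mul]

/-- the norm of a functional -/
theorem norm_split (ℓ : Xk k →L[ℝ] ℝ) : ‖ℓ‖ ^ 2 = ∑ β, ‖ℓ.comp (ij β)‖ ^ 2 := by
  set g := (InnerProductSpace.toDual ℝ (Xk k)).symm ℓ with hg
  have h1 : ∀ x, ℓ x = ⟪g, x⟫_ℝ := fun x => by
    rw [hg, InnerProductSpace.toDual_symm_apply]
  have h2 : ‖ℓ‖ = ‖g‖ := by
    rw [hg, LinearIsometryEquiv.norm_map]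
  have h3 : ∀ β, ‖ℓ.comp (ij β)‖ = ‖bl β g‖ := by
    intro β
    have h4 : ℓ.comp (ij β) = InnerProductSpace.toDual ℝ (Ek (k β)) (bl β g) := by
      ext y
      rw [ContinuousLinearMap.comp_apply, h1, inner_bl, InnerProductSpace.toDual_apply_apply,
        Finset.sum_eq_single β]
      · rw [bl_ij, Pi.single_eq_same]
      · intro γ _ hγ
        rw [bl_ij, Pi.single_eq_of_ne hγ, inner_zero_right]
      · exact fun h => absurd (Finset.mem_univ β) h
    rw [h4, LinearIsometryEquiv.norm_map]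
  rw [h2, norm_bl]
  exact Finset.sum_congr rfl fun β _ => by rw [h3]

theorem norm_comp_le (ℓ : Xk k →L[ℝ] ℝ) (β : Fin M) : ‖ℓ.comp (ij β)‖ ≤ ‖ℓ‖ := by
  refine (ContinuousLinearMap.opNorm_comp_le _ _).trans ?_
  have := ij_le (k := k) β
  have h2 := norm_nonneg ℓ
  nlinarith

end

/-! ### polar coordinates with a common space of directions -/

section

variable {M : ℕ} {k : Fin M → ℕ} {K : ∀ β, Set (Ek (k β))} {Ω : Type} [MeasurableSpace Ω]
  {P : Measure Ω} {θ : ∀ β, Ω → Ek (k β)}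

theorem exists_common (hk : ∀ β, 1 ≤ k β) (hKc : ∀ β, IsCompact (K β))
    (hKv : ∀ β, Convex ℝ (K β)) (h0 : ∀ β, (0 : Ek (k β)) ∈ interior (K β)) :
    ∃ (Ω : Type) (_ : MeasurableSpace Ω) (P : Measure Ω) (θ : ∀ β, Ω → Ek (k β)),
      IsProbabilityMeasure P ∧ ∀ β, Plr (k β) (K β) P (θ β) := by
  choose P θ h using fun β => exists_polar (hk β) (hKc β) (hKv β) (h0 β)
  have hp : ∀ β, IsProbabilityMeasure (P β) := fun β => (h β).prob
  refine ⟨∀ β, sphere (0 : Ek (k β)) 1, inferInstance, Measure.pi P, fun β ω => θ β (ω β),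
    inferInstance, fun β => ⟨(h β).meas.comp (measurable_pi_apply β), inferInstance,
      fun ω => (h β).one _, fun F hF => ?_⟩⟩
  rw [(h β).lint F hF]
  congr 1
  have hm := (h β).meas
  have hev := measurePreserving_eval P β
  have h1 : Measurable fun ω : sphere (0 : Ek (k β)) 1 =>
      ∫⁻ r, F (r • θ β ω) ∂(rad (k β)) := by
    exact Measurable.lintegral_prod_right' (f := fun p : sphere (0 : Ek (k β)) 1 × ℝ =>
      F (p.2 • θ β p.1)) (by fun_prop)
  exact (hev.lintegral_comp h1).symm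

instance rad_sigma (k : ℕ) : SigmaFinite (rad k) := by
  unfold rad
  exact SigmaFinite.withDensity_ofReal _

/-- the point with given norms and directions -/
noncomputable def xx (θ : ∀ β, Ω → Ek (k β)) (z : Fin M → ℝ × Ω) : Xk k :=
  asm k fun β => (z β).1 • θ β (z β).2

theorem xx_meas (hθ : ∀ β, Measurable (θ β)) : Measurable (xx θ) := by
  refine (asm k).continuous.measurable.comp (measurable_pi_lambda _ fun β => ?_)
  have := hθ β
  fun_prop

/-- the measure of the norms and directions -/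
noncomputable abbrev zm (k : Fin M → ℕ) (P : Measure Ω) : Measure (Fin M → ℝ × Ω) :=
  Measure.pi fun β => (rad (k β)).prod P

/-- polar coordinates -/
theorem polar_z [IsProbabilityMeasure P] (h : ∀ β, Plr (k β) (K β) P (θ β))
    (hKc : ∀ β, IsCompact (K β)) (h0 : ∀ β, (0 : Ek (k β)) ∈ interior (K β)) :
    ∃ c : ℝ≥0∞, c ≠ 0 ∧ c ≠ ⊤ ∧ ∀ G : Xk k → ℝ≥0∞, Measurable G →
      ∫⁻ x, G x = c * ∫⁻ z, G (xx θ z) ∂(zm k P) := by
  have hV0 : ∀ β, volume (K β) ≠ 0 := fun β =>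
    (lt_of_lt_of_le (isOpen_interior.measure_pos volume ⟨0, h0 β⟩)
      (measure_mono interior_subset)).ne'
  have hVt : ∀ β, volume (K β) ≠ ⊤ := fun β => (hKc β).measure_lt_top.ne
  have hθ : ∀ β, Measurable (θ β) := fun β => (h β).meas
  let ν : ∀ β, Measure (Ek (k β)) := fun β => (volume (K β))⁻¹ • volume
  have hν : ∀ β, (ν β).IsAddHaarMeasure := fun β =>
    Measure.IsAddHaarMeasure.smul _ (ENNReal.inv_ne_zero.2 (hVt β))
      (ENNReal.inv_ne_top.2 (hV0 β))
  have hmp : ∀ β, MeasurePreserving (fun p : ℝ × Ω => p.1 • θ β p.2) ((rad (k β)).prod P)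
      (ν β) := by
    intro β
    have hm := hθ β
    refine ⟨by fun_prop, ?_⟩
    ext s hs
    have h1 := (h β).lint (s.indicator 1) (measurable_one.indicator hs)
    rw [lintegral_indicator_one hs] at h1
    have h2 : Measurable fun p : ℝ × Ω => p.1 • θ β p.2 := by fun_prop
    have h3 : Measurable fun p : Ω × ℝ =>
        s.indicator (1 : Ek (k β) → ℝ≥0∞) (p.2 • θ β p.1) := by
      have : Measurable fun p : Ω × ℝ => p.2 • θ β p.1 := by fun_prop
      exact (measurable_one.indicator hs).comp this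
    rw [lintegral_lintegral_swap h3.aemeasurable] at h1
    rw [Measure.map_apply h2 hs, Measure.smul_apply, h1, smul_eq_mul, ← mul_assoc,
      ENNReal.inv_mul_cancel (hV0 β) (hVt β), one_mul, ← lintegral_indicator_one (h2 hs),
      lintegral_prod _ ((measurable_one.indicator (h2 hs)).aemeasurable)]
    rfl
  have hpi := measurePreserving_pi (fun β => (rad (k β)).prod P) ν hmp
  let μ : Measure (Xk k) := Measure.map (asm k) (Measure.pi ν)
  have hμ : μ.IsAddHaarMeasure := (asm k).isAddHaarMeasure_map _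
  refine ⟨(volume : Measure (Xk k)).addHaarScalarFactor μ, ?_, ENNReal.coe_ne_top, fun G hG => ?_⟩
  · have := Measure.addHaarScalarFactor_pos_of_isAddHaarMeasure (volume : Measure (Xk k)) μ
    exact_mod_cast this.ne'
  · have h1 := Measure.isAddLeftInvariant_eq_smul (volume : Measure (Xk k)) μ
    have h2 : ∫⁻ x, G x = ∫⁻ x, G x ∂((volume : Measure (Xk k)).addHaarScalarFactor μ • μ) := by
      rw [← h1]
    rw [h2, lintegral_smul_measure]
    have h3 : ∫⁻ x, G x ∂μ = ∫⁻ z, G (xx θ z) ∂(zm k P) := by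
      rw [lintegral_map hG (asm k).continuous.measurable]
      exact (hpi.lintegral_comp (hG.comp (asm k).continuous.measurable)).symm
    rw [h3]
    rfl

/-- the norms -/
noncomputable def nn (K : ∀ β, Set (Ek (k β))) (x : Xk k) : Fin M → ℝ := fun β => gauge (K β) (bl β x)

theorem nn_cont (hKv : ∀ β, Convex ℝ (K β)) (h0 : ∀ β, (0 : Ek (k β)) ∈ interior (K β)) :
    Continuous (nn K) :=
  continuous_pi fun β => (gauge_cont (hKv β) (h0 β)).comp (bl β).continuous

theorem z_pos (P : Measure Ω) [IsProbabilityMeasure P] : ∀ᵐ z ∂(zm k P), ∀ β, 0 < (z β).1 := by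
  rw [ae_all_iff]
  intro β
  have h1 : ∀ᵐ p ∂((rad (k β)).prod P), 0 < p.1 := by
    have := rad_ae_pos (k β)
    exact Measure.quasiMeasurePreserving_fst.ae this
  exact (Measure.quasiMeasurePreserving_eval (fun β => (rad (k β)).prod P) β).ae h1

theorem nn_xx (h : ∀ β, Plr (k β) (K β) P (θ β)) {z : Fin M → ℝ × Ω} (hz : ∀ β, 0 < (z β).1) :
    nn K (xx θ z) = fun β => (z β).1 := by
  funext β
  unfold nn xx
  rw [bl_asm, gauge_smul_of_nonneg (hz β).le, (h β).one, smul_eq_mul, mul_one]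

/-- polar coordinates with a weight -/
theorem polar_w [IsProbabilityMeasure P] (h : ∀ β, Plr (k β) (K β) P (θ β))
    (hKc : ∀ β, IsCompact (K β)) (hKv : ∀ β, Convex ℝ (K β))
    (h0 : ∀ β, (0 : Ek (k β)) ∈ interior (K β)) :
    ∃ c : ℝ≥0∞, c ≠ 0 ∧ c ≠ ⊤ ∧ ∀ (G : Xk k → ℝ≥0∞) (W : (Fin M → ℝ) → ℝ≥0∞), Measurable G →
      Measurable W → ∫⁻ x, G x * W (nn K x) =
        c * ∫⁻ z, G (xx θ z) * W (fun β => (z β).1) ∂(zm k P) := by
  obtain ⟨c, hc0, hct, H⟩ := polar_z h hKc h0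
  refine ⟨c, hc0, hct, fun G W hG hW => ?_⟩
  rw [H (fun x => G x * W (nn K x)) (hG.mul (hW.comp (nn_cont hKv h0).measurable))]
  congr 1
  refine lintegral_congr_ae ?_
  filter_upwards [z_pos (k := k) P] with z hz
  rw [nn_xx h hz]

end

end Pool.Agent.V5helper78.KU
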