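import Pool.Agent.V5helper78.KU.Lcl

/-!
# The local inequality for bodies over solid sets
-/

set_option autoImplicit false
set_option linter.unusedSectionVars false

namespace Pool.Agent.V5helper78.KU

open MeasureTheory Set Filter Topology Metric
open scoped ENNReal InnerProductSpace
open Pool.Agent.V5helper78.KO
open Pool.Agent.TH610.RB (cH)

section

variable {M : ℕ} {k : Fin M → ℕ} {K : ∀ β, Set (Ek (k β))} {Ω : Type} [MeasurableSpace Ω]
  {P : Measure Ω} {θ : ∀ β, Ω → Ek (k β)} [IsProbabilityMeasure P]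

theorem rm_pos (k : Fin M → ℕ) : ∀ᵐ ρ ∂(rm k), ∀ β, 0 < ρ β := by
  rw [ae_all_iff]
  intro β
  exact (Measure.quasiMeasurePreserving_eval (fun β => rad (k β)) β).ae (rad_ae_pos (k β))

/-- integrals over the bodies in polar coordinates -/
theorem body_polar (h : ∀ β, Plr (k β) (K β) P (θ β)) (hKc : ∀ β, IsCompact (K β))
    (hKv : ∀ β, Convex ℝ (K β)) (h0 : ∀ β, (0 : Ek (k β)) ∈ interior (K β)) :
    ∃ c : ℝ≥0∞, c ≠ 0 ∧ c ≠ ⊤ ∧ ∀ (D : Set (Fin M → ℝ)), MeasurableSet D →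
      ∀ (G : Xk k → ℝ≥0∞), Measurable G → ∫⁻ x in Sb K D, G x =
        c * ∫⁻ ρ, D.indicator 1 ρ * ∫⁻ ω, G (xr θ ρ ω) ∂(PP (Fin M) P) ∂(rm k) := by
  obtain ⟨c, hc0, hct, H⟩ := polar_w h hKc hKv h0
  refine ⟨c, hc0, hct, fun D hD G hG => ?_⟩
  have hθ : ∀ β, Measurable (θ β) := fun β => (h β).meas
  have hSm : MeasurableSet (Sb K D) := (nn_cont hKv h0).measurable hD
  have hDm : Measurable (D.indicator (1 : (Fin M → ℝ) → ℝ≥0∞)) := measurable_one.indicator hD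
  have e1 : ∀ x, (Sb K D).indicator G x = G x * D.indicator (1 : (Fin M → ℝ) → ℝ≥0∞) (nn K x) := by
    intro x
    by_cases hx : x ∈ Sb K D
    · rw [indicator_of_mem hx, indicator_of_mem (show nn K x ∈ D from hx), Pi.one_apply, mul_one]
    · rw [indicator_of_notMem hx, indicator_of_notMem (show nn K x ∉ D from hx), mul_zero]
  rw [← lintegral_indicator hSm, lintegral_congr e1, H G _ hG hDm]
  congr 1
  have hGx : Measurable fun p : (Fin M → ℝ) × (Fin M → Ω) => G (xr θ p.1 p.2) :=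
    hG.comp (xr_meas hθ)
  have h2 := swap_z (k := k) (P := P) (F := fun p : (Fin M → ℝ) × (Fin M → Ω) =>
    G (xr θ p.1 p.2) * D.indicator (1 : (Fin M → ℝ) → ℝ≥0∞) p.1)
    (hGx.mul (hDm.comp measurable_fst))
  refine Eq.trans h2 (lintegral_congr fun ρ => ?_)
  simp only
  have h3 : Measurable fun ω => G (xr θ ρ ω) := hGx.comp measurable_prodMk_left
  rw [lintegral_mul_const _ h3, mul_comm]

/-- functions of the norms -/
theorem body_norms (h : ∀ β, Plr (k β) (K β) P (θ β)) (hKc : ∀ β, IsCompact (K β))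
    (hKv : ∀ β, Convex ℝ (K β)) (h0 : ∀ β, (0 : Ek (k β)) ∈ interior (K β)) :
    ∃ c : ℝ≥0∞, c ≠ 0 ∧ c ≠ ⊤ ∧ ∀ (D : Set (Fin M → ℝ)), MeasurableSet D →
      ∀ (F : (Fin M → ℝ) → ℝ≥0∞), Measurable F → ∫⁻ x in Sb K D, F (nn K x) =
        c * ∫⁻ ρ, D.indicator 1 ρ * F ρ ∂(rm k) := by
  obtain ⟨c, hc0, hct, H⟩ := polar_w h hKc hKv h0
  refine ⟨c, hc0, hct, fun D hD F hF => ?_⟩
  have hSm : MeasurableSet (Sb K D) := (nn_cont hKv h0).measurable hD
  have hDm : Measurable (D.indicator (1 : (Fin M → ℝ) → ℝ≥0∞)) := measurable_one.indicator hD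
  have e1 : ∀ x, (Sb K D).indicator (fun x => F (nn K x)) x =
      1 * (fun ρ => D.indicator (1 : (Fin M → ℝ) → ℝ≥0∞) ρ * F ρ) (nn K x) := by
    intro x
    by_cases hx : x ∈ Sb K D
    · rw [indicator_of_mem hx]
      simp only
      rw [indicator_of_mem (show nn K x ∈ D from hx), Pi.one_apply, one_mul, one_mul]
    · rw [indicator_of_notMem hx]
      simp only
      rw [indicator_of_notMem (show nn K x ∉ D from hx), zero_mul, mul_zero]
  rw [← lintegral_indicator hSm, lintegral_congr e1,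
    H (fun _ => 1) (fun ρ => D.indicator (1 : (Fin M → ℝ) → ℝ≥0∞) ρ * F ρ) measurable_const
      (hDm.mul hF)]
  congr 1
  have h2 := swap_z (k := k) (P := P) (F := fun p : (Fin M → ℝ) × (Fin M → Ω) =>
    1 * (D.indicator (1 : (Fin M → ℝ) → ℝ≥0∞) p.1 * F p.1))
    (((hDm.mul hF).comp measurable_fst).const_mul 1)
  refine Eq.trans h2 (lintegral_congr fun ρ => ?_)
  simp only [one_mul, lintegral_const, measure_univ, mul_one]

/-- the radial part -/
theorem radial_part (h : ∀ β, Plr (k β) (K β) P (θ β)) (hk : ∀ β, 1 ≤ k β) {c₀ : ℝ}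
    (hK : ∀ β, Iso c₀ (K β)) {a : ℝ} (ha : 0 < a) {D : Set (Fin M → ℝ)} (hD : Un D)
    (hbox : ∀ ρ ∈ D, ∀ β, ρ β ≤ a * (Real.sqrt (k β) / Real.sqrt (k β + 2)))
    {f : Xk k → ℝ} (hf : ContDiff ℝ 1 f) {B L : ℝ}
    (hB : ∀ x, |f x| ≤ B) (hL : ∀ x, ‖fderiv ℝ f x‖ ≤ L) :
    ∃ c : ℝ, ∫⁻ ρ, D.indicator 1 ρ * ENNReal.ofReal ((Hf P θ f ρ - c) ^ 2) ∂(rm k) ≤
      ENNReal.ofReal (4 * (cH * a ^ 2)) *
        ∫⁻ ρ, D.indicator 1 ρ * ENNReal.ofReal (Gf P θ f ρ) ∂(rm k) := by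
  have hθ : ∀ β, Measurable (θ β) := fun β => (h β).meas
  have hcH := Pool.Agent.TH610.RB.cH_pos
  obtain ⟨Ω', _, P', θ', hP', h'⟩ := exists_common (k := k) hk (K := Bl k) Bl_comp Bl_conv Bl_zero
  obtain ⟨cB, hc0, hct, H⟩ := body_norms h' Bl_comp Bl_conv Bl_zero
  have hcl := Sb_closed (k := k) Bl_conv Bl_zero hD
  have hle : ∀ β : Fin M, Real.sqrt (k β) / Real.sqrt (k β + 2) ≤ 1 := fun β => by
    rw [div_le_one (sqk β)]
    exact Real.sqrt_le_sqrt (by linarith)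
  have hb := Sb_bdd (k := k) Bl_comp Bl_conv Bl_zero hD (a := a) fun ρ hρ β =>
    (hbox ρ hρ β).trans (mul_le_of_le_one_right ha.le (hle β))
  have hfin : volume (Sb (Bl k) D) ≠ ⊤ := hb.measure_lt_top.ne
  have hfinm : IsFiniteMeasure (volume.restrict (Sb (Bl k) D)) :=
    ⟨by rw [Measure.restrict_apply_univ]; exact hb.measure_lt_top⟩
  have hHc : Continuous (Hf P θ f) := (Hf_C1 h hk hK hf hB hL).continuous
  have hGc := Gf_cont (P := P) hθ hf hL
  have hHb := Hf_le (P := P) (θ := θ) hB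
  have hGb := Gf_le (P := P) (θ := θ) hL
  have hG0 := Gf_nonneg (P := P) (θ := θ) f
  have hP : ∀ g : Xk k → ℝ, ContDiff ℝ 1 g → ∃ c : ℝ, ∫ y in Sb (Bl k) D, (g y - c) ^ 2 ≤
      4 * (cH * a ^ 2) * ∫ y in Sb (Bl k) D, ‖fderiv ℝ g y‖ ^ 2 := by
    intro g hg
    by_cases hvol : volume (Sb (Bl k) D) = 0
    · refine ⟨0, ?_⟩
      rw [Measure.restrict_eq_zero.2 hvol]
      simp
    · exact loc_rad ha hD hbox hvol g hg
  obtain ⟨c, hc⟩ := lim_eps h hk hK hf hB hL (volume.restrict (Sb (Bl k) D)) (by positivity) hP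
  refine ⟨c, ?_⟩
  have hrp0 := rp_cont (k := k) 0
  have i1 : Integrable (fun y : Xk k => (Hf P θ f (rp 0 y) - c) ^ 2)
      (volume.restrict (Sb (Bl k) D)) := by
    have hc1 : Continuous fun y : Xk k => (Hf P θ f (rp 0 y) - c) ^ 2 := by fun_prop
    refine Integrable.of_bound hc1.aestronglyMeasurable ((B + |c|) ^ 2)
      (Eventually.of_forall fun y => ?_)
    rw [Real.norm_eq_abs, abs_pow]
    refine pow_le_pow_left₀ (abs_nonneg _) ?_ 2
    exact (abs_sub _ _).trans (add_le_add_left (hHb _) _)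
  have i2 : Integrable (fun y : Xk k => Gf P θ f (rp 0 y)) (volume.restrict (Sb (Bl k) D)) := by
    refine Integrable.of_bound (hGc.comp hrp0).aestronglyMeasurable (L ^ 2)
      (Eventually.of_forall fun y => ?_)
    rw [Real.norm_of_nonneg (hG0 _)]
    exact hGb _
  have h2 := ENNReal.ofReal_le_ofReal hc
  rw [ENNReal.ofReal_mul (by positivity),
    ofReal_integral_eq_lintegral_ofReal i1 (Eventually.of_forall fun ω => sq_nonneg _),
    ofReal_integral_eq_lintegral_ofReal i2 (Eventually.of_forall fun ω => hG0 _)] at h2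
  have e1 := H D hD.closed.measurableSet (fun ρ => ENNReal.ofReal ((Hf P θ f ρ - c) ^ 2))
    (by have := hHc.measurable; fun_prop)
  have e2 := H D hD.closed.measurableSet (fun ρ => ENNReal.ofReal (Gf P θ f ρ))
    (by have := hGc.measurable; fun_prop)
  simp only [nn_Bl] at e1 e2
  rw [e1, e2, mul_left_comm] at h2
  exact (ENNReal.mul_le_mul_iff_right hc0 hct).1 h2

/-- the local inequality -/
theorem thmA (h : ∀ β, Plr (k β) (K β) P (θ β)) (hk : ∀ β, 1 ≤ k β) {c₀ : ℝ} (hc₀ : 0 ≤ c₀)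
    (hK : ∀ β, Iso c₀ (K β)) {a : ℝ} (ha : 0 < a) {D : Set (Fin M → ℝ)} (hD : Un D)
    (hbox : ∀ ρ ∈ D, ∀ β, ρ β ≤ a * (Real.sqrt (k β) / Real.sqrt (k β + 2)))
    {f : Xk k → ℝ} (hf : ContDiff ℝ 1 f) {B L : ℝ}
    (hB : ∀ x, |f x| ≤ B) (hL : ∀ x, ‖fderiv ℝ f x‖ ≤ L) :
    ∃ c : ℝ, ∫⁻ x in Sb K D, ENNReal.ofReal ((f x - c) ^ 2) ≤
      ENNReal.ofReal ((c₀ + 4 * cH) * a ^ 2) *
        ∫⁻ x in Sb K D, ENNReal.ofReal (‖fderiv ℝ f x‖ ^ 2) := by
  have hθ : ∀ β, Measurable (θ β) := fun β => (h β).meas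
  have hcH := Pool.Agent.TH610.RB.cH_pos
  have hKc : ∀ β, IsCompact (K β) := fun β => (hK β).comp
  have hKv : ∀ β, Convex ℝ (K β) := fun β => (hK β).conv
  have h0 : ∀ β, (0 : Ek (k β)) ∈ interior (K β) := fun β => (hK β).zero
  obtain ⟨cK, hc0, hct, H⟩ := body_polar h hKc hKv h0
  obtain ⟨c, hc⟩ := radial_part h hk hK ha hD hbox hf hB hL
  refine ⟨c, ?_⟩
  have hfm := hf.continuous.measurable
  have hfd : Continuous (fderiv ℝ f) := hf.continuous_fderiv one_ne_zero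
  have hDm : MeasurableSet D := hD.closed.measurableSet
  have hDi : Measurable (D.indicator (1 : (Fin M → ℝ) → ℝ≥0∞)) := measurable_one.indicator hDm
  rw [H D hDm (fun x => ENNReal.ofReal ((f x - c) ^ 2)) (by fun_prop),
    H D hDm (fun x => ENNReal.ofReal (‖fderiv ℝ f x‖ ^ 2))
      (by have := hfd.norm.measurable; fun_prop), mul_left_comm]
  refine mul_le_mul_right ?_ _
  have hx : ∀ ρ, Measurable fun ω : Fin M → Ω => xr θ ρ ω := fun ρ =>
    (xr_meas hθ).comp measurable_prodMk_left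
  -- the positive part of `D`
  set D' : Set (Fin M → ℝ) := D ∩ {ρ | ∀ β, 0 < ρ β} with hD'
  have hpm : MeasurableSet {ρ : Fin M → ℝ | ∀ β, 0 < ρ β} := by
    have e1 : {ρ : Fin M → ℝ | ∀ β, 0 < ρ β} = ⋂ β, {ρ : Fin M → ℝ | 0 < ρ β} := by
      ext ρ
      simp
    rw [e1]
    exact MeasurableSet.iInter fun β => measurableSet_lt measurable_const (measurable_pi_apply β)
  have hle : ∀ β : Fin M, Real.sqrt (k β) / Real.sqrt (k β + 2) ≤ 1 := fun β => by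
    rw [div_le_one (sqk β)]
    exact Real.sqrt_le_sqrt (by linarith)
  have hDn : Dn a D' := by
    refine ⟨hDm.inter hpm, fun ρ hρ => hρ.2, fun ρ hρ ρ' h1 h2 => ⟨?_, h1⟩, fun ρ hρ β => ?_⟩
    · refine hD.solid ρ hρ.1 ρ' fun β => ?_
      rw [abs_of_pos (h1 β), abs_of_pos (hρ.2 β)]
      exact h2 β
    · exact (hbox ρ hρ.1 β).trans (mul_le_of_le_one_right ha.le (hle β))
  have hae : ∀ᵐ ρ ∂(rm k), D.indicator (1 : (Fin M → ℝ) → ℝ≥0∞) ρ = D'.indicator 1 ρ := by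
    filter_upwards [rm_pos k] with ρ hρ
    by_cases hm : ρ ∈ D
    · rw [indicator_of_mem hm, indicator_of_mem (show ρ ∈ D' from ⟨hm, hρ⟩)]
    · rw [indicator_of_notMem hm, indicator_of_notMem fun h => hm h.1]
  have hang := ang_all h hk hc₀ hK hDn hf hB
  have hang' : ∫⁻ ρ, D.indicator 1 ρ * ∫⁻ ω, ENNReal.ofReal ((f (xr θ ρ ω) - Hf P θ f ρ) ^ 2)
      ∂(PP (Fin M) P) ∂(rm k) ≤
    ENNReal.ofReal (c₀ * a ^ 2) * ∫⁻ ρ, D.indicator 1 ρ *
      ∫⁻ ω, ENNReal.ofReal (‖fderiv ℝ f (xr θ ρ ω)‖ ^ 2) ∂(PP (Fin M) P) ∂(rm k) := by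
    have e1 : ∀ F : (Fin M → ℝ) → ℝ≥0∞, ∫⁻ ρ, D.indicator 1 ρ * F ρ ∂(rm k) =
        ∫⁻ ρ, D'.indicator 1 ρ * F ρ ∂(rm k) := by
      intro F
      refine lintegral_congr_ae ?_
      filter_upwards [hae] with ρ hρ
      rw [hρ]
    rw [e1, e1]
    exact hang
  have hG : ∀ ρ, ENNReal.ofReal (Gf P θ f ρ) =
      ∫⁻ ω, ENNReal.ofReal (‖fderiv ℝ f (xr θ ρ ω)‖ ^ 2) ∂(PP (Fin M) P) := by
    intro ρ
    unfold Gf
    refine ofReal_integral_eq_lintegral_ofReal ?_ (Eventually.of_forall fun ω => sq_nonneg _)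
    refine Integrable.of_bound ((hfd.norm.measurable.comp (hx ρ)).pow_const 2).aestronglyMeasurable
      (L ^ 2) (Eventually.of_forall fun ω => ?_)
    rw [Real.norm_of_nonneg (sq_nonneg _)]
    exact pow_le_pow_left₀ (norm_nonneg _) (hL _) 2
  simp only [hG] at hc
  have hsp : ∀ ρ, ∫⁻ ω, ENNReal.ofReal ((f (xr θ ρ ω) - c) ^ 2) ∂(PP (Fin M) P) =
      ∫⁻ ω, ENNReal.ofReal ((f (xr θ ρ ω) - Hf P θ f ρ) ^ 2) ∂(PP (Fin M) P) +
        ENNReal.ofReal ((Hf P θ f ρ - c) ^ 2) := fun ρ =>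
    split (P := PP (Fin M) P) (u := fun ω => f (xr θ ρ ω)) (hfm.comp (hx ρ)) (fun ω => hB _) c
  simp only [hsp, mul_add]
  have hHm := Hf_meas (P := P) hθ hfm
  have hm3 : Measurable fun ρ => D.indicator (1 : (Fin M → ℝ) → ℝ≥0∞) ρ *
      ENNReal.ofReal ((Hf P θ f ρ - c) ^ 2) := hDi.mul (by fun_prop)
  rw [lintegral_add_right _ hm3]
  refine (add_le_add hang' hc).trans (le_of_eq ?_)
  rw [← add_mul, ← ENNReal.ofReal_add (by positivity) (by positivity)]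
  congr 2
  ring

end

end Pool.Agent.V5helper78.KU
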