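import Pool.Agent.V5helper78.KU.Thm

/-!
# The tails
-/

set_option autoImplicit false
set_option linter.unusedSectionVars false

namespace Pool.Agent.V5helper78.KU

open MeasureTheory Set Filter Topology Metric
open scoped ENNReal InnerProductSpace
open Pool.Agent.V5helper78.KO
open Pool.Agent.H212R2.KLS (mu Bdd)
open Pool.Agent.TH610.RB (RD NN nS blk nb lev cH G Sw)

section

variable {M : ℕ} {k : Fin M → ℕ}

/-- second moments of the coordinates in a block are equal -/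
theorem coord_eq {D : Set (Fin M → ℝ)} (β : Fin M) (i j : Fin (k β)) :
    ∫⁻ x in Sb (Bl k) D, ENNReal.ofReal (x ⟨β, i⟩ ^ 2) =
      ∫⁻ x in Sb (Bl k) D, ENNReal.ofReal (x ⟨β, j⟩ ^ 2) := by
  obtain ⟨F, hF⟩ : ∃ F : ∀ γ, Equiv.Perm (Fin (k γ)), F β i = j :=
    ⟨Function.update (fun γ => (1 : Equiv.Perm (Fin (k γ)))) β (Equiv.swap i j), by
      rw [Function.update_self, Equiv.swap_apply_left]⟩
  let π : Equiv.Perm (Σ β : Fin M, Fin (k β)) := Equiv.sigmaCongrRight F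
  have hπ : ∀ γ i, π ⟨γ, i⟩ = ⟨γ, F γ i⟩ := fun γ i => rfl
  have hπi : π ⟨β, i⟩ = ⟨β, j⟩ := by rw [hπ, hF]
  let e : Xk k ≃ₗᵢ[ℝ] Xk k := LinearIsometryEquiv.piLpCongrLeft 2 ℝ ℝ π.symm
  have he : ∀ x p, e x p = x (π p) := fun x p => by
    simp only [e]
    rw [LinearIsometryEquiv.piLpCongrLeft_apply]
    rfl
  have hmp : MeasurePreserving e volume volume := e.measurePreserving
  have hbl : ∀ x β', ‖bl β' (e x)‖ = ‖bl β' x‖ := by
    intro x β'
    have h : ‖bl β' (e x)‖ ^ 2 = ‖bl β' x‖ ^ 2 := by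
      rw [EuclideanSpace.real_norm_sq_eq, EuclideanSpace.real_norm_sq_eq]
      simp only [bl_apply, he, hπ]
      exact Equiv.sum_comp (F β') (fun i' => x ⟨β', i'⟩ ^ 2)
    exact (sq_eq_sq₀ (norm_nonneg _) (norm_nonneg _)).1 h
  have hS : ∀ x, e x ∈ Sb (Bl k) D ↔ x ∈ Sb (Bl k) D := by
    intro x
    unfold Sb
    rw [mem_ofPred_eq, mem_ofPred_eq, nn_Bl, nn_Bl, rp_zero, rp_zero]
    simp only [hbl]
  have h1 := hmp.setLIntegral_comp_preimage_emb e.toHomeomorph.measurableEmbedding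
    (fun x => ENNReal.ofReal (x ⟨β, i⟩ ^ 2)) (Sb (Bl k) D)
  have h2 : e ⁻¹' (Sb (Bl k) D) = Sb (Bl k) D := by
    ext x
    exact hS x
  rw [h2] at h1
  rw [← h1]
  simp only [he, hπi]

/-- the second moments of the coordinates -/
theorem coord_mom (hk : ∀ β, 1 ≤ k β) {D : Set (Fin M → ℝ)} (hD : Un D)
    (hnorm : ∀ β, ∫⁻ ρ, D.indicator 1 ρ * ENNReal.ofReal (ρ β ^ 2) ∂(rm k) =
      ENNReal.ofReal (k β / (k β + 2)) * ∫⁻ ρ, D.indicator 1 ρ ∂(rm k))
    (β : Fin M) (i : Fin (k β)) :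
    ∫⁻ x in Sb (Bl k) D, ENNReal.ofReal (x ⟨β, i⟩ ^ 2) = volume (Sb (Bl k) D) := by
  obtain ⟨Ω', _, P', θ', hP', h'⟩ := exists_common (k := k) hk (K := Bl k) Bl_comp Bl_conv Bl_zero
  obtain ⟨cB, hc0, hct, H⟩ := body_norms h' Bl_comp Bl_conv Bl_zero
  have hDm := hD.closed.measurableSet
  have hk0 : (0 : ℝ) < k β := by exact_mod_cast hk β
  have h1 : ∫⁻ x in Sb (Bl k) D, ENNReal.ofReal (‖bl β x‖ ^ 2) =
      ENNReal.ofReal (k β) * volume (Sb (Bl k) D) := by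
    have e1 : ∀ x : Xk k, ENNReal.ofReal (‖bl β x‖ ^ 2) =
        (fun ρ : Fin M → ℝ => ENNReal.ofReal (k β + 2) * ENNReal.ofReal (ρ β ^ 2)) (nn (Bl k) x) := by
      intro x
      simp only
      rw [nn_Bl, rp_zero, ← ENNReal.ofReal_mul (by positivity)]
      congr 1
      rw [div_pow, Real.sq_sqrt (by positivity)]
      field_simp
    rw [lintegral_congr e1, H D hDm (fun ρ : Fin M → ℝ =>
      ENNReal.ofReal (k β + 2) * ENNReal.ofReal (ρ β ^ 2)) (by fun_prop)]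
    have e2 : ∫⁻ ρ, D.indicator 1 ρ *
        (ENNReal.ofReal (k β + 2) * ENNReal.ofReal (ρ β ^ 2)) ∂(rm k) =
        ENNReal.ofReal (k β) * ∫⁻ ρ, D.indicator 1 ρ ∂(rm k) := by
      have hDi : Measurable (D.indicator (1 : (Fin M → ℝ) → ℝ≥0∞)) := measurable_one.indicator hDm
      have e3 : ∀ ρ : Fin M → ℝ, D.indicator (1 : (Fin M → ℝ) → ℝ≥0∞) ρ *
          (ENNReal.ofReal (k β + 2) * ENNReal.ofReal (ρ β ^ 2)) =
          ENNReal.ofReal (k β + 2) * (D.indicator 1 ρ * ENNReal.ofReal (ρ β ^ 2)) := fun ρ => by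
        ring
      simp only [e3]
      have hm : Measurable (fun ρ : Fin M → ℝ =>
          D.indicator (1 : (Fin M → ℝ) → ℝ≥0∞) ρ * ENNReal.ofReal (ρ β ^ 2)) :=
        hDi.mul (by fun_prop)
      rw [lintegral_const_mul _ hm, hnorm, ← mul_assoc,
        ← ENNReal.ofReal_mul (by positivity)]
      congr 2
      field_simp
    have e4 : volume (Sb (Bl k) D) = cB * ∫⁻ ρ, D.indicator 1 ρ ∂(rm k) := by
      have h5 := H D hDm (fun _ => 1) measurable_const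
      rw [setLIntegral_const, one_mul] at h5
      rw [h5]
      simp only [mul_one]
    rw [e2, e4]
    ring
  have h2 : ∫⁻ x in Sb (Bl k) D, ENNReal.ofReal (‖bl β x‖ ^ 2) =
      ∑ j, ∫⁻ x in Sb (Bl k) D, ENNReal.ofReal (x ⟨β, j⟩ ^ 2) := by
    rw [← lintegral_finsetSum _ fun j _ => by fun_prop]
    refine lintegral_congr fun x => ?_
    rw [← ENNReal.ofReal_sum_of_nonneg fun j _ => sq_nonneg _, EuclideanSpace.real_norm_sq_eq]
    rfl
  rw [h2, Finset.sum_congr rfl fun j _ => coord_eq (D := D) β j i, Finset.sum_const,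
    Finset.card_univ, Fintype.card_fin, nsmul_eq_mul] at h1
  have h3 : ((k β : ℕ) : ℝ≥0∞) = ENNReal.ofReal (k β) := by simp
  rw [h3] at h1
  have h4 : ENNReal.ofReal (k β) ≠ 0 := by
    rw [Ne, ENNReal.ofReal_eq_zero, not_le]
    exact hk0
  exact (ENNReal.mul_right_inj h4 ENNReal.ofReal_ne_top).1 h1

/-- the tail of one norm -/
theorem tail_one (hk : ∀ β, 1 ≤ k β)
    {D : Set (Fin M → ℝ)} (hD : Un D) {R : ℝ} (hR : ∀ ρ ∈ D, ∀ β, ρ β ≤ R)
    (hne : ∫⁻ ρ, D.indicator 1 ρ ∂(rm k) ≠ 0)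
    (hnorm : ∀ β, ∫⁻ ρ, D.indicator 1 ρ * ENNReal.ofReal (ρ β ^ 2) ∂(rm k) =
      ENNReal.ofReal (k β / (k β + 2)) * ∫⁻ ρ, D.indicator 1 ρ ∂(rm k)) (β : Fin M) (l : ℝ)
    (hl : 1 ≤ l) :
    ∫⁻ ρ, (D ∩ {ρ | l * 540 * (Real.sqrt (k β) / Real.sqrt (k β + 2)) < ρ β}).indicator 1 ρ
      ∂(rm k) ≤
      ENNReal.ofReal (Real.exp (-(3 * k β * (l - 1)))) * ∫⁻ ρ, D.indicator 1 ρ ∂(rm k) := by
  obtain ⟨Ω', _, P', θ', hP', h'⟩ := exists_common (k := k) hk (K := Bl k) Bl_comp Bl_conv Bl_zero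
  obtain ⟨cB, hc0, hct, H⟩ := body_norms h' Bl_comp Bl_conv Bl_zero
  have hDm := hD.closed.measurableSet
  have hcl := Sb_closed (k := k) Bl_conv Bl_zero hD
  have hb := Sb_bdd (k := k) Bl_comp Bl_conv Bl_zero hD hR
  have hfin : volume (Sb (Bl k) D) ≠ ⊤ := hb.measure_lt_top.ne
  have hvolD : ∀ D' : Set (Fin M → ℝ), MeasurableSet D' →
      volume (Sb (Bl k) D') = cB * ∫⁻ ρ, D'.indicator 1 ρ ∂(rm k) := by
    intro D' hD'
    have h5 := H D' hD' (fun _ => 1) measurable_const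
    rw [setLIntegral_const, one_mul] at h5
    rw [h5]
    simp only [mul_one]
  have hvol : volume (Sb (Bl k) D) ≠ 0 := by
    rw [hvolD D hDm]
    exact mul_ne_zero hc0 hne
  set V := volume (Sb (Bl k) D) with hV
  set c : ℝ := V.toReal⁻¹ with hc
  have hVp : 0 < V.toReal := ENNReal.toReal_pos hvol hfin
  have hcp : 0 < c := inv_pos.2 hVp
  have hcV : ENNReal.ofReal c * V = 1 := by
    rw [hc, ENNReal.ofReal_inv_of_pos hVp, ENNReal.ofReal_toReal hfin,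
      ENNReal.inv_mul_cancel hvol hfin]
  have hRD := rd_body (k := k) hD hcp
  have hmu := mu_wd (S := Sb (Bl k) D) hcl.measurableSet c
  have h1 : mu ((Sb (Bl k) D).indicator fun _ => c) univ = 1 := by
    rw [hmu, Measure.smul_apply, Measure.restrict_apply_univ, ← hV, smul_eq_mul, hcV]
  have hbd : Bdd ((Sb (Bl k) D).indicator fun _ => c) := by
    obtain ⟨R, hR⟩ := hb.exists_norm_le
    exact ⟨R, fun x hx => indicator_of_notMem (fun h => absurd (hR x h) (not_le.2 hx)) _⟩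
  have hv : ∀ i : Σ β : Fin M, Fin (k β),
      ∫ x, x i ^ 2 ∂(mu ((Sb (Bl k) D).indicator fun _ => c)) ≤ 1 := by
    rintro ⟨β, i⟩
    rw [hmu, integral_smul_measure, ENNReal.toReal_ofReal hcp.le, smul_eq_mul,
      integral_eq_lintegral_of_nonneg_ae (Eventually.of_forall fun x => sq_nonneg _)
        (by fun_prop), coord_mom hk hD hnorm β i, ← hV, hc, inv_mul_cancel₀ hVp.ne']
  have key := Pool.Agent.TH610.RB.tail_blk hRD hbd h1 k card_fib β
    (by rw [nb_id]; exact hk β) 1 one_pos hv l hl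
  rw [Real.sqrt_one, mul_one, nb_id] at key
  simp only [NN_id] at key
  have hset : {x : Xk k | l * 540 * (k β : ℝ) < Real.sqrt (k β) * ‖bl β x‖} ∩ Sb (Bl k) D =
      Sb (Bl k) (D ∩ {ρ | l * 540 * (Real.sqrt (k β) / Real.sqrt (k β + 2)) < ρ β}) := by
    ext x
    have h3 : l * 540 * (k β : ℝ) < Real.sqrt (k β) * ‖bl β x‖ ↔
        l * 540 * (Real.sqrt (k β) / Real.sqrt (k β + 2)) < nn (Bl k) x β := by
      rw [nn_Bl, rp_zero]
      have hk0 : 0 < Real.sqrt (k β) := Real.sqrt_pos.2 (by exact_mod_cast hk β)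
      rw [mul_div_assoc', div_lt_div_iff_of_pos_right (sqk β)]
      have e1 : l * 540 * (k β : ℝ) = Real.sqrt (k β) * (l * 540 * Real.sqrt (k β)) := by
        rw [mul_left_comm, Real.mul_self_sqrt (Nat.cast_nonneg _)]
      rw [e1]
      exact mul_lt_mul_iff_right₀ hk0
    rw [mem_inter_iff, mem_ofPred_eq, h3]
    exact and_comm
  have hbm : Continuous fun x : Xk k => ‖bl β x‖ := (bl β).continuous.norm
  have hlm : MeasurableSet {x : Xk k | l * 540 * (k β : ℝ) < Real.sqrt (k β) * ‖bl β x‖} :=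
    (isOpen_lt continuous_const (continuous_const.mul hbm)).measurableSet
  have hDm' : MeasurableSet (D ∩
      {ρ : Fin M → ℝ | l * 540 * (Real.sqrt (k β) / Real.sqrt (k β + 2)) < ρ β}) :=
    hDm.inter (measurableSet_lt measurable_const (measurable_pi_apply β))
  rw [hmu, Measure.smul_apply, Measure.restrict_apply hlm, hset, smul_eq_mul,
    hvolD _ hDm'] at key
  have h6 := mul_le_mul_right key V
  rw [← mul_assoc, mul_comm V, hcV, one_mul, mul_comm V, hV, hvolD D hDm, mul_left_comm] at h6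
  exact (ENNReal.mul_le_mul_iff_right hc0 hct).1 h6

/-- the box in the directions of `G` -/
def bg (k : Fin M → ℕ) (G : Finset (Fin M)) (a b : ℝ) : Set (Fin M → ℝ) :=
  {ρ | (∀ β ∈ G, |ρ β| ≤ a * (Real.sqrt (k β) / Real.sqrt (k β + 2))) ∧
    ∀ β, β ∉ G → |ρ β| ≤ b * (Real.sqrt (k β) / Real.sqrt (k β + 2))}

theorem bg_un (G : Finset (Fin M)) (a b : ℝ) : Un (bg k G a b) := by
  have hcv : ∀ (β : Fin M) (c : ℝ) (x y : Fin M → ℝ), |x β| ≤ c → |y β| ≤ c → ∀ s t : ℝ, 0 ≤ s →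
      0 ≤ t → s + t = 1 → |(s • x + t • y) β| ≤ c := by
    intro β c x y hx hy s t hs ht hst
    have h1 : |(s • x + t • y) β| ≤ s * |x β| + t * |y β| := by
      simp only [Pi.add_apply, Pi.smul_apply, smul_eq_mul]
      refine (abs_add_le _ _).trans (le_of_eq ?_)
      rw [abs_mul, abs_mul, abs_of_nonneg hs, abs_of_nonneg ht]
    refine h1.trans ?_
    have h2 := mul_le_mul_of_nonneg_left hx hs
    have h3 := mul_le_mul_of_nonneg_left hy ht
    have h4 : s * c + t * c = c := by rw [← add_mul, hst, one_mul]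
    linarith
  refine ⟨?_, ?_, fun ρ hρ ρ' h => ⟨fun β hβ => (h β).trans (hρ.1 β hβ),
    fun β hβ => (h β).trans (hρ.2 β hβ)⟩⟩
  · have e1 : bg k G a b = (⋂ β ∈ G, {ρ : Fin M → ℝ |
        |ρ β| ≤ a * (Real.sqrt (k β) / Real.sqrt (k β + 2))}) ∩ ⋂ β, ⋂ (_ : β ∉ G),
          {ρ : Fin M → ℝ | |ρ β| ≤ b * (Real.sqrt (k β) / Real.sqrt (k β + 2))} := by
      ext ρ
      simp [bg]
    rw [e1]
    exact (isClosed_biInter fun β _ => isClosed_le (by fun_prop) continuous_const).inter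
      (isClosed_iInter fun β => isClosed_iInter fun _ =>
        isClosed_le (by fun_prop) continuous_const)
  · intro x hx y hy s t hs ht hst
    exact ⟨fun β hβ => hcv β _ x y (hx.1 β hβ) (hy.1 β hβ) s t hs ht hst,
      fun β hβ => hcv β _ x y (hx.2 β hβ) (hy.2 β hβ) s t hs ht hst⟩

theorem un_inter {D D' : Set (Fin M → ℝ)} (h : Un D) (h' : Un D') : Un (D ∩ D') :=
  ⟨h.closed.inter h'.closed, h.conv.inter h'.conv,
    fun ρ hρ ρ' hh => ⟨h.solid ρ hρ.1 ρ' hh, h'.solid ρ hρ.2 ρ' hh⟩⟩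

/-- the tails in terms of the norms -/
theorem tails_rm (hk : ∀ β, 1 ≤ k β) {T : ℝ} (hT0 : 0 ≤ T) {G : Finset (Fin M)}
    (hT : ∑ β ∈ G, Real.exp (-(T * k β)) ≤ 1)
    {D : Set (Fin M → ℝ)} (hD : Un D) {R : ℝ} (hR : ∀ ρ ∈ D, ∀ β, ρ β ≤ R)
    (hne : ∫⁻ ρ, D.indicator 1 ρ ∂(rm k) ≠ 0)
    (hnorm : ∀ β, ∫⁻ ρ, D.indicator 1 ρ * ENNReal.ofReal (ρ β ^ 2) ∂(rm k) =
      ENNReal.ofReal (k β / (k β + 2)) * ∫⁻ ρ, D.indicator 1 ρ ∂(rm k)) {A : ℝ}
    (hA : ∀ t : ℝ, 1 ≤ t → ∫⁻ ρ, (D ∩ {ρ | ∃ β, β ∉ G ∧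
      A * t * (Real.sqrt (k β) / Real.sqrt (k β + 2)) < ρ β}).indicator 1 ρ ∂(rm k) ≤
        ENNReal.ofReal (Real.exp (-t)) * ∫⁻ ρ, D.indicator 1 ρ ∂(rm k)) (t : ℝ) (ht : 0 ≤ t) :
    ∫⁻ ρ, (D \ bg k G ((2 + T + t) * 540) (A * (1 + t))).indicator 1 ρ ∂(rm k) ≤
      ENNReal.ofReal (Real.exp (-(t / 2))) * ∫⁻ ρ, D.indicator 1 ρ ∂(rm k) := by
  have hDm := hD.closed.measurableSet
  set I := ∫⁻ ρ, D.indicator 1 ρ ∂(rm k) with hI
  -- the measurable pieces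
  let W : Fin M → Set (Fin M → ℝ) := fun β =>
    {ρ | (2 + T + t) * 540 * (Real.sqrt (k β) / Real.sqrt (k β + 2)) < ρ β}
  let Y : Set (Fin M → ℝ) := {ρ | ∃ β, β ∉ G ∧
    A * (1 + t) * (Real.sqrt (k β) / Real.sqrt (k β + 2)) < ρ β}
  have hWm : ∀ β, MeasurableSet (W β) := fun β =>
    measurableSet_lt measurable_const (measurable_pi_apply β)
  have hYm : MeasurableSet Y := by
    have e1 : Y = ⋃ β, ⋃ (_ : β ∉ G),
        {ρ : Fin M → ℝ | A * (1 + t) * (Real.sqrt (k β) / Real.sqrt (k β + 2)) < ρ β} := by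
      ext ρ
      simp [Y]
    rw [e1]
    exact MeasurableSet.iUnion fun β => MeasurableSet.iUnion fun _ =>
      measurableSet_lt measurable_const (measurable_pi_apply β)
  have hcov : ∀ᵐ ρ ∂(rm k), (D \ bg k G ((2 + T + t) * 540) (A * (1 + t))).indicator
      (1 : (Fin M → ℝ) → ℝ≥0∞) ρ ≤
      (∑ β ∈ G, (D ∩ W β).indicator (1 : (Fin M → ℝ) → ℝ≥0∞) ρ) +
        (D ∩ Y).indicator (1 : (Fin M → ℝ) → ℝ≥0∞) ρ := by
    filter_upwards [rm_pos k] with ρ hp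
    by_cases hρ : ρ ∈ D \ bg k G ((2 + T + t) * 540) (A * (1 + t))
    · rw [indicator_of_mem hρ, Pi.one_apply]
      have h1 : ¬ ((∀ β ∈ G, |ρ β| ≤ (2 + T + t) * 540 *
          (Real.sqrt (k β) / Real.sqrt (k β + 2))) ∧ ∀ β, β ∉ G → |ρ β| ≤
          A * (1 + t) * (Real.sqrt (k β) / Real.sqrt (k β + 2))) := hρ.2
      rw [not_and_or] at h1
      rcases h1 with h1 | h1
      · push Not at h1
        obtain ⟨β, hβ, h2⟩ := h1
        rw [abs_of_pos (hp β)] at h2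
        have h3 : ρ ∈ D ∩ W β := ⟨hρ.1, h2⟩
        refine le_trans ?_ le_self_add
        refine le_trans ?_ (Finset.single_le_sum (f := fun β =>
          (D ∩ W β).indicator (1 : (Fin M → ℝ) → ℝ≥0∞) ρ) (fun _ _ => zero_le) hβ)
        rw [indicator_of_mem h3, Pi.one_apply]
      · push Not at h1
        obtain ⟨β, hβ, h2⟩ := h1
        rw [abs_of_pos (hp β)] at h2
        have h3 : ρ ∈ D ∩ Y := ⟨hρ.1, β, hβ, h2⟩
        refine le_trans ?_ le_add_self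
        rw [indicator_of_mem h3, Pi.one_apply]
    · rw [indicator_of_notMem hρ]
      exact zero_le
  have hm1 : ∀ β ∈ G, Measurable fun ρ => (D ∩ W β).indicator (1 : (Fin M → ℝ) → ℝ≥0∞) ρ :=
    fun β _ => measurable_one.indicator (hDm.inter (hWm β))
  have hm2 : Measurable fun ρ => (D ∩ Y).indicator (1 : (Fin M → ℝ) → ℝ≥0∞) ρ :=
    measurable_one.indicator (hDm.inter hYm)
  refine (lintegral_mono_ae hcov).trans ?_
  rw [lintegral_add_right _ hm2, lintegral_finsetSum _ hm1]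
  have h1 : ∀ β ∈ G, ∫⁻ ρ, (D ∩ W β).indicator (1 : (Fin M → ℝ) → ℝ≥0∞) ρ ∂(rm k) ≤
      ENNReal.ofReal (Real.exp (-(1 + t)) * Real.exp (-(T * k β))) * I := by
    intro β _
    refine (tail_one hk hD hR hne hnorm β (2 + T + t) (by linarith)).trans ?_
    refine mul_le_mul_left (ENNReal.ofReal_le_ofReal ?_) _
    rw [← Real.exp_add, Real.exp_le_exp]
    have h4 : (1 : ℝ) ≤ k β := by exact_mod_cast hk β
    have h5 : 0 ≤ T * k β := mul_nonneg hT0 (by linarith)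
    have h6 : 1 + t ≤ k β * (1 + t) := le_mul_of_one_le_left (by linarith) h4
    nlinarith
  have h2 : ∑ β ∈ G, ∫⁻ ρ, (D ∩ W β).indicator (1 : (Fin M → ℝ) → ℝ≥0∞) ρ ∂(rm k) ≤
      ENNReal.ofReal (Real.exp (-(1 + t))) * I := by
    refine (Finset.sum_le_sum h1).trans ?_
    rw [← Finset.sum_mul, ← ENNReal.ofReal_sum_of_nonneg fun β _ => by positivity,
      ← Finset.mul_sum]
    refine mul_le_mul_left (ENNReal.ofReal_le_ofReal ?_) _
    exact mul_le_of_le_one_right (Real.exp_pos _).le hT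
  refine (add_le_add h2 (hA (1 + t) (by linarith))).trans ?_
  rw [← add_mul, ← ENNReal.ofReal_add (Real.exp_pos _).le (Real.exp_pos _).le]
  refine mul_le_mul_left (ENNReal.ofReal_le_ofReal ?_) _
  have h3 : Real.exp (-(1 + t)) = Real.exp (-1 - t / 2) * Real.exp (-(t / 2)) := by
    rw [← Real.exp_add]
    congr 1
    ring
  have h4 : Real.exp (-1 - t / 2) ≤ 1 / 2 := by
    have h5 : Real.exp (-1 - t / 2) ≤ Real.exp (-1) := Real.exp_le_exp.2 (by linarith)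
    have h6 : Real.exp (-1) ≤ 1 / 2 := by
      rw [Real.exp_neg, inv_le_comm₀ (Real.exp_pos _) (by norm_num)]
      have := Real.add_one_le_exp (1 : ℝ)
      linarith
    exact h5.trans h6
  rw [h3]
  have h7 := Real.exp_pos (-(t / 2))
  nlinarith

end

end Pool.Agent.V5helper78.KU
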